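import Pool.Agent.Helper84.NR.Red

set_option autoImplicit false

/-!
# Irreducible matrices with infinitely many simple directions
-/

open Matrix
open scoped ComplexOrder

namespace Pool.Agent.Helper84.NR

open Pool.Agent.Helper774

variable {ι : Type*} [Fintype ι] [DecidableEq ι]

omit [DecidableEq ι] in
theorem range_of_perp {k : ℕ} (V : Matrix ι (Fin k) ℂ) (hV : Vᴴ * V = 1) (M : Matrix ι ι ℂ)
    (h : ∀ y : ι → ℂ, Vᴴ *ᵥ y = 0 → ∀ c, star y ⬝ᵥ (M *ᵥ (V *ᵥ c)) = 0) :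
    M * V = V * (Vᴴ * M * V) := by
  apply Matrix.ext_of_mulVec_single
  intro i
  obtain ⟨c, hc⟩ : ∃ c : Fin k → ℂ, c = Pi.single i 1 := ⟨_, rfl⟩
  rw [← hc]
  obtain ⟨z, hz⟩ : ∃ z, z = M *ᵥ (V *ᵥ c) := ⟨_, rfl⟩
  obtain ⟨y, hy⟩ : ∃ y, y = z - V *ᵥ (Vᴴ *ᵥ z) := ⟨_, rfl⟩
  have h1 : Vᴴ *ᵥ y = 0 := by
    rw [hy, Matrix.mulVec_sub, Matrix.mulVec_mulVec (Vᴴ *ᵥ z), hV, Matrix.one_mulVec, sub_self]
  have h2 : star y ⬝ᵥ z = 0 := by rw [hz]; exact h y h1 c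
  have h3 : ∀ d, star y ⬝ᵥ (V *ᵥ d) = 0 := by
    intro d
    rw [Matrix.dotProduct_mulVec]
    have : star y ᵥ* V = star (Vᴴ *ᵥ y) := by
      rw [Matrix.star_mulVec, conjTranspose_conjTranspose]
    rw [this, h1, star_zero, zero_dotProduct]
  have h4 : star y ⬝ᵥ y = 0 := by
    have : star y ⬝ᵥ y = star y ⬝ᵥ (z - V *ᵥ (Vᴴ *ᵥ z)) := by rw [← hy]
    rw [this, dotProduct_sub, h2, h3, sub_self]
  have h5 : y = 0 := dot_self_re_eq_zero (by rw [h4, Complex.zero_re])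
  rw [h5] at hy
  have h6 : z = V *ᵥ (Vᴴ *ᵥ z) := (sub_eq_zero.mp hy.symm)
  rw [hz] at h6
  rw [← Matrix.mulVec_mulVec, h6]
  simp only [Matrix.mulVec_mulVec, Matrix.mul_assoc]

theorem irr_rankone {A : Matrix ι ι ℂ} (hD : FinPropD A)
    (hirr : ∀ P : Matrix ι ι ℂ, Pᴴ = P → P * P = P → A * P = P * A → P = 0 ∨ P = 1)
    (hinf : {u : ℂ | ‖u‖ = 1 ∧ ∃ (t : ℝ) (x : ι → ℂ), Good A u t x}.Infinite) :
    ∃ (u : ℂ) (lam : ℝ) (g : ι → ℂ), u ≠ 0 ∧ g ≠ 0 ∧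
      (u • A) + (u • A)ᴴ = (2 : ℂ) • ((lam : ℂ) • 1 - vecMulVec g (star g)) := by
  -- two independent tops
  have h2 : ∃ x₁ ∈ {x : ι → ℂ | ∃ (u : ℂ) (t : ℝ), ‖u‖ = 1 ∧ Good A u t x},
      ∃ x₂ ∈ {x : ι → ℂ | ∃ (u : ℂ) (t : ℝ), ‖u‖ = 1 ∧ Good A u t x},
      ¬ ∃ c : ℂ, x₂ = c • x₁ := by
    obtain ⟨u₁, hu₁, t₁, x₁, h₁⟩ := hinf.nonempty
    obtain ⟨u₂, ⟨hu₂, t₂, x₂, h₂⟩, hnot⟩ := (hinf.diff (Set.toFinite {u₁, -u₁})).nonempty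
    refine ⟨x₁, ⟨u₁, t₁, hu₁, h₁⟩, x₂, ⟨u₂, t₂, hu₂, h₂⟩, ?_⟩
    rintro ⟨c, hc⟩
    have hc0 : c ≠ 0 := by
      rintro rfl
      exact h₂.ne_zero (by rw [hc, zero_smul])
    have h3 : sm A t₂ u₂ *ᵥ x₁ = 0 := by
      have h4 := h₂.sm_zero
      rw [hc, Matrix.mulVec_smul] at h4
      exact (smul_eq_zero.mp h4).resolve_left hc0
    obtain ⟨ρ, _, hρ⟩ := h₁.ker_line hu₁ t₂ u₂ h3
    have h6 : |ρ| = 1 := by
      rw [hρ, norm_mul, hu₁, mul_one, Complex.norm_real, Real.norm_eq_abs] at hu₂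
      exact hu₂
    apply hnot
    rcases (abs_eq zero_le_one).mp h6 with h7 | h7
    · left; rw [hρ, h7]; simp
    · right; rw [hρ, h7]; simp
  obtain ⟨k, V, s, w, g, hV, hrange, hadm, hw, hΓ⟩ := rankone_of_set hD
    {x : ι → ℂ | ∃ (u : ℂ) (t : ℝ), ‖u‖ = 1 ∧ Good A u t x} (fun x hx => hx) h2
  obtain ⟨T₁, hT₁⟩ : ∃ T₁ : Set (ι → ℂ),
    T₁ = {x | ∃ (u : ℂ) (t : ℝ), ‖u‖ = 1 ∧ (u / w).im ≠ 0 ∧ Good A u t x} := ⟨_, rfl⟩
  obtain ⟨k₁, V₁, hV₁, hr₁, hs₁⟩ := iso_of_set T₁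
  obtain ⟨U₁, hU₁⟩ : ∃ U₁ : Set ℂ,
    U₁ = {u | ‖u‖ = 1 ∧ (u / w).im ≠ 0 ∧ ∃ (t : ℝ) (x : ι → ℂ), Good A u t x} := ⟨_, rfl⟩
  have hwn : ‖w‖ ≠ 0 := norm_ne_zero_iff.mpr hw
  have hU₁inf : U₁.Infinite := by
    apply (hinf.diff (Set.toFinite {((‖w‖⁻¹ : ℝ) : ℂ) * w, ((-‖w‖⁻¹ : ℝ) : ℂ) * w})).mono
    rintro u ⟨⟨hu, t, x, hx⟩, hnot⟩
    rw [hU₁]
    refine ⟨hu, ?_, t, x, hx⟩
    intro him
    apply hnot
    have h1 : u = (((u / w).re : ℝ) : ℂ) * w := by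
      have h3 : u = (u / w) * w := by field_simp
      have h4 : u / w = (((u / w).re : ℝ) : ℂ) := by
        apply Complex.ext
        · simp
        · simpa using him
      conv_lhs => rw [h3]
      rw [← h4]
    have h3 : |(u / w).re| = ‖w‖⁻¹ := by
      have h4 : |(u / w).re| * ‖w‖ = 1 := by
        rw [← Real.norm_eq_abs, ← Complex.norm_real, ← norm_mul, ← h1, hu]
      exact eq_inv_of_mul_eq_one_left h4
    rcases (abs_eq (inv_nonneg.mpr (norm_nonneg w))).mp h3 with h4 | h4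
    · left; rw [← h4]; exact h1
    · right; rw [← h4]; exact h1
  have hgoodU : ∀ u ∈ U₁, ‖u‖ = 1 ∧ (u / w).im ≠ 0 ∧
      ∃ (t : ℝ) (c : Fin k₁ → ℂ), Good A u t (V₁ *ᵥ c) := by
    intro u hu
    rw [hU₁] at hu
    obtain ⟨hu1, hu2, t, x, hx⟩ := hu
    obtain ⟨c, hc⟩ := hr₁ x (by rw [hT₁]; exact ⟨u, t, hu1, hu2, hx⟩)
    exact ⟨hu1, hu2, t, c, by rw [← hc]; exact hx⟩
  have hspan : ∀ N : Submodule ℂ (Fin k₁ → ℂ),
      (∀ u ∈ U₁, ∀ (t : ℝ) (c : Fin k₁ → ℂ), Good A u t (V₁ *ᵥ c) → c ∈ N) → N = ⊤ := by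
    intro N hN
    rw [eq_top_iff]
    intro c _
    have h1 : Submodule.span ℂ T₁ ≤ N.map V₁.mulVecLin := by
      rw [Submodule.span_le]
      intro x hx
      obtain ⟨y, hy⟩ := hr₁ x hx
      rw [hT₁] at hx
      obtain ⟨u, t, hu1, hu2, hgd⟩ := hx
      refine ⟨y, ?_, ?_⟩
      · apply hN u (by rw [hU₁]; exact ⟨hu1, hu2, t, x, hgd⟩) t y
        rw [← hy]
        exact hgd
      · rw [Matrix.mulVecLin_apply, hy]
    obtain ⟨c', hc', hcc⟩ := h1 (hs₁ c)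
    rw [Matrix.mulVecLin_apply] at hcc
    have h3 : c' = c := by
      have h4 := congrArg (fun z => V₁ᴴ *ᵥ z) hcc
      simp only [Matrix.mulVec_mulVec, hV₁, Matrix.one_mulVec] at h4
      exact h4
    rw [← h3]
    exact hc'
  -- the form on the smaller space
  have hVC : V * (Vᴴ * V₁) = V₁ := by
    have h1 : ∀ z ∈ Submodule.span ℂ T₁, V *ᵥ (Vᴴ *ᵥ z) = z := by
      intro z hz
      refine Submodule.span_induction (p := fun z _ => V *ᵥ (Vᴴ *ᵥ z) = z) ?_ ?_ ?_ ?_ hz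
      · intro x hx
        rw [hT₁] at hx
        obtain ⟨u, t, hu1, _, hgd⟩ := hx
        obtain ⟨y, hy⟩ := hrange x ⟨u, t, hu1, hgd⟩
        rw [hy, Matrix.mulVec_mulVec y Vᴴ V, hV, Matrix.one_mulVec]
      · simp
      · intro a b _ _ ha hb
        rw [Matrix.mulVec_add, Matrix.mulVec_add, ha, hb]
      · intro r a _ ha
        rw [Matrix.mulVec_smul, Matrix.mulVec_smul, ha]
    apply Matrix.ext_of_mulVec_single
    intro i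
    rw [← Matrix.mulVec_mulVec, ← Matrix.mulVec_mulVec]
    exact h1 _ (hs₁ _)
  obtain ⟨g₁, hg₁⟩ : ∃ g₁, g₁ = (Vᴴ * V₁)ᴴ *ᵥ g := ⟨_, rfl⟩
  have hΓ₁ : V₁ᴴ * sm A s w * V₁ = vecMulVec g₁ (star g₁) := by
    calc V₁ᴴ * sm A s w * V₁ = (V * (Vᴴ * V₁))ᴴ * sm A s w * (V * (Vᴴ * V₁)) := by rw [hVC]
      _ = (Vᴴ * V₁)ᴴ * (Vᴴ * sm A s w * V) * (Vᴴ * V₁) := by
          rw [conjTranspose_mul]; simp only [Matrix.mul_assoc]
      _ = _ := by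
          rw [hΓ, Matrix.mul_vecMulVec, Matrix.vecMulVec_mul, hg₁, Matrix.star_mulVec,
            conjTranspose_conjTranspose]
  have hg₁0 : g₁ ≠ 0 := by
    intro h0
    obtain ⟨u, hu⟩ := hU₁inf.nonempty
    obtain ⟨hu1, hu2, t, c, hc⟩ := hgoodU u hu
    have h1 : (star (V₁ *ᵥ c) ⬝ᵥ (sm A s w *ᵥ (V₁ *ᵥ c))).re = 0 := by
      rw [← quad_compress, hΓ₁, h0]
      simp
    obtain ⟨r, _, hr⟩ := hc.ker_line hu1 s w (hadm.kernel _ h1)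
    apply hu2
    have hu0 : u ≠ 0 := by
      rintro rfl
      simp at hu1
    rw [hr, div_mul_cancel_right₀ hu0, ← Complex.ofReal_inv, Complex.ofReal_im]
  have hperp := reducing_alg hadm hw V₁ hV₁ g₁ hg₁0 hΓ₁ U₁ hU₁inf hgoodU hspan
  have e1 := range_of_perp V₁ hV₁ A (fun y hy c => (hperp y hy c).1)
  have e2 := range_of_perp V₁ hV₁ Aᴴ (fun y hy c => (hperp y hy c).2)
  have hcomm : A * (V₁ * V₁ᴴ) = (V₁ * V₁ᴴ) * A := by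
    have f1 : A * (V₁ * V₁ᴴ) = V₁ * (V₁ᴴ * A * V₁) * V₁ᴴ := by
      rw [← Matrix.mul_assoc, e1]
    have f2 : (V₁ * V₁ᴴ) * A = V₁ * (V₁ᴴ * A * V₁) * V₁ᴴ := by
      have h3 := congrArg conjTranspose e2
      rw [conjTranspose_mul, conjTranspose_conjTranspose, conjTranspose_mul, conjTranspose_mul,
        conjTranspose_mul, conjTranspose_conjTranspose, conjTranspose_conjTranspose] at h3
      calc (V₁ * V₁ᴴ) * A = V₁ * (V₁ᴴ * A) := Matrix.mul_assoc _ _ _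
        _ = V₁ * (V₁ᴴ * (A * V₁) * V₁ᴴ) := congrArg (V₁ * ·) h3
        _ = _ := by simp only [Matrix.mul_assoc]
    rw [f1, f2]
  have hP : V₁ * V₁ᴴ = 1 := by
    rcases hirr (V₁ * V₁ᴴ) (by rw [conjTranspose_mul, conjTranspose_conjTranspose]) (by
        rw [Matrix.mul_assoc, ← Matrix.mul_assoc V₁ᴴ, hV₁, Matrix.one_mul]) hcomm with h | h
    · exfalso
      obtain ⟨u, hu⟩ := hU₁inf.nonempty
      obtain ⟨hu1, hu2, t, c, hc⟩ := hgoodU u hu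
      apply hc.ne_zero
      calc V₁ *ᵥ c = V₁ *ᵥ ((V₁ᴴ * V₁) *ᵥ c) := by rw [hV₁, Matrix.one_mulVec]
        _ = (V₁ * V₁ᴴ) *ᵥ (V₁ *ᵥ c) := by simp only [Matrix.mulVec_mulVec, Matrix.mul_assoc]
        _ = 0 := by rw [h, Matrix.zero_mulVec]
    · exact h
  refine ⟨w, s, V₁ *ᵥ g₁, hw, ?_, ?_⟩
  · intro h
    apply hg₁0
    have : V₁ᴴ *ᵥ (V₁ *ᵥ g₁) = g₁ := by rw [Matrix.mulVec_mulVec, hV₁, Matrix.one_mulVec]
    rw [← this, h, Matrix.mulVec_zero]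
  · have h1 : w • A + (w • A)ᴴ = (2 : ℂ) • ((s : ℂ) • 1 - sm A s w) := by
      rw [sm, sub_sub_cancel, Hu, smul_smul]
      norm_num
    have h3 : sm A s w = vecMulVec (V₁ *ᵥ g₁) (star (V₁ *ᵥ g₁)) := by
      calc sm A s w = (V₁ * V₁ᴴ) * sm A s w * (V₁ * V₁ᴴ) := by
            rw [hP, Matrix.one_mul, Matrix.mul_one]
        _ = V₁ * (V₁ᴴ * sm A s w * V₁) * V₁ᴴ := by simp only [Matrix.mul_assoc]
        _ = _ := by rw [hΓ₁, Matrix.mul_vecMulVec, Matrix.vecMulVec_mul, Matrix.star_mulVec]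
    rw [h1, h3]

end Pool.Agent.Helper84.NR
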