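import Pool.Agent.Helper84.NR.Irr

set_option autoImplicit false

/-!
# One simple direction gives infinitely many
-/

open Matrix Filter Topology
open scoped ComplexOrder

namespace Pool.Agent.Helper84.NR

open Pool.Agent.Helper774

variable {ι : Type*} [Fintype ι] [DecidableEq ι]

theorem nonsimple_pair {A : Matrix ι ι ℂ} (hne : (MW A).Nonempty)
    (hnj : ∀ x : ι → ℂ, star x ⬝ᵥ x = 1 → ¬ ∃ a a' : ℂ, A *ᵥ x = a • x ∧ Aᴴ *ᵥ x = a' • x)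
    (u : ℂ) (hu : ¬ ∃ (t : ℝ) (x : ι → ℂ), Good A u t x) :
    ∃ x y : ι → ℂ, star x ⬝ᵥ x = 1 ∧ star y ⬝ᵥ y = 1 ∧ star x ⬝ᵥ y = 0 ∧
      (∀ z ∈ MW A, (u * z).re ≤ (u * (star x ⬝ᵥ (A *ᵥ x))).re) ∧
      (∀ z ∈ MW A, (u * z).re ≤ (u * (star y ⬝ᵥ (A *ᵥ y))).re) := by
  obtain ⟨z₀, ⟨x, hx, hxz⟩, hmax⟩ := (MW_isCompact A).exists_isMaxOn hne
    (f := fun z => (u * z).re) (by fun_prop)
  obtain ⟨t, ht⟩ : ∃ t : ℝ, t = (u * (star x ⬝ᵥ (A *ᵥ x))).re := ⟨_, rfl⟩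
  have hadm : Adm A t u := by
    intro z hz
    rw [ht, hxz]
    exact hmax hz
  have hns : ¬ ∀ y, star y ⬝ᵥ y = 1 → (u * (star y ⬝ᵥ (A *ᵥ y))).re = t → ∃ c : ℂ, y = c • x := by
    intro h
    exact hu ⟨t, x, hx, hadm, ht.symm, h, hnj x hx⟩
  push Not at hns
  obtain ⟨y', hy', hyt, hyc⟩ := hns
  have hkx : sm A t u *ᵥ x = 0 := by
    apply hadm.kernel
    rw [sm_quad_re, hx, ← ht, Complex.one_re, mul_one, sub_self]
  have hky : sm A t u *ᵥ y' = 0 := by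
    apply hadm.kernel
    rw [sm_quad_re, hy', hyt, Complex.one_re, mul_one, sub_self]
  obtain ⟨s, hs, hs1⟩ := exists_normalize (y' - (star x ⬝ᵥ y') • x) (by
    intro h0
    exact hyc _ (sub_eq_zero.mp h0))
  refine ⟨x, (s : ℂ) • (y' - (star x ⬝ᵥ y') • x), hx, hs1, ?_, ?_, ?_⟩
  · rw [dotProduct_smul, dotProduct_sub, dotProduct_smul, hx, smul_eq_mul, smul_eq_mul, mul_one,
      sub_self, mul_zero]
  · intro z hz
    rw [← ht]
    exact hadm z hz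
  · intro z hz
    have h1 : sm A t u *ᵥ ((s : ℂ) • (y' - (star x ⬝ᵥ y') • x)) = 0 := by
      rw [Matrix.mulVec_smul, Matrix.mulVec_sub, Matrix.mulVec_smul, hkx, hky, smul_zero,
        sub_zero, smul_zero]
    have h2 := sm_quad_re A t u ((s : ℂ) • (y' - (star x ⬝ᵥ y') • x))
    rw [h1, dotProduct_zero, hs1, Complex.one_re, mul_one, Complex.zero_re] at h2
    have h3 := hadm z hz
    linarith

/-- a sequence of points of the circle tending to `1` -/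
noncomputable def cseq (m : ℕ) : ℂ :=
  (1 + ((1 / ((m : ℝ) + 1) : ℝ) : ℂ) * Complex.I) / (1 - ((1 / ((m : ℝ) + 1) : ℝ) : ℂ) * Complex.I)

theorem cden_ne (τ : ℝ) : (1 - (τ : ℂ) * Complex.I) ≠ 0 := by
  intro h
  have := congrArg Complex.re h
  simp at this

theorem cseq_norm (m : ℕ) : ‖cseq m‖ = 1 := by
  unfold cseq
  generalize (1 / ((m : ℝ) + 1) : ℝ) = τ
  have h : (1 + (τ : ℂ) * Complex.I) = starRingEnd ℂ (1 - (τ : ℂ) * Complex.I) := by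
    rw [map_sub, map_mul, Complex.conj_I, Complex.conj_ofReal, map_one]
    ring
  rw [norm_div, h, Complex.norm_conj, div_self (norm_ne_zero_iff.mpr (cden_ne τ))]

theorem cseq_inj : Function.Injective cseq := by
  intro a b hab
  unfold cseq at hab
  have key : ∀ τ τ' : ℝ, (1 + (τ : ℂ) * Complex.I) / (1 - (τ : ℂ) * Complex.I)
      = (1 + (τ' : ℂ) * Complex.I) / (1 - (τ' : ℂ) * Complex.I) → τ = τ' := by
    intro τ τ' h
    rw [div_eq_div_iff (cden_ne τ) (cden_ne τ')] at h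
    have h1 := congrArg Complex.im h
    simp at h1
    linarith
  have h1 := key _ _ hab
  have h2 : ((a : ℝ) + 1) = (b : ℝ) + 1 := by
    rw [one_div, one_div] at h1
    exact inv_injective h1
  have h3 : (a : ℝ) = b := by linarith
  exact_mod_cast h3

theorem cseq_tendsto : Tendsto cseq atTop (𝓝 1) := by
  have h1 : Tendsto (fun m : ℕ => ((1 / ((m : ℝ) + 1) : ℝ) : ℂ)) atTop (𝓝 ((0 : ℝ) : ℂ)) :=
    (Complex.continuous_ofReal.tendsto 0).comp tendsto_one_div_add_atTop_nhds_zero_nat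
  have h2 : Tendsto (fun m : ℕ => (1 + ((1 / ((m : ℝ) + 1) : ℝ) : ℂ) * Complex.I) /
      (1 - ((1 / ((m : ℝ) + 1) : ℝ) : ℂ) * Complex.I)) atTop
      (𝓝 ((1 + ((0 : ℝ) : ℂ) * Complex.I) / (1 - ((0 : ℝ) : ℂ) * Complex.I))) := by
    apply Tendsto.div
    · exact tendsto_const_nhds.add (h1.mul tendsto_const_nhds)
    · exact tendsto_const_nhds.sub (h1.mul tendsto_const_nhds)
    · exact cden_ne 0
  have e : (1 + ((0 : ℝ) : ℂ) * Complex.I) / (1 - ((0 : ℝ) : ℂ) * Complex.I) = 1 := by simp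
  rw [e] at h2
  exact h2

theorem isCompact_pairs : IsCompact {p : (ι → ℂ) × (ι → ℂ) | star p.1 ⬝ᵥ p.1 = 1 ∧
    star p.2 ⬝ᵥ p.2 = 1 ∧ star p.1 ⬝ᵥ p.2 = 0} := by
  have h1 : IsCompact (({x : ι → ℂ | star x ⬝ᵥ x = 1}) ×ˢ ({x : ι → ℂ | star x ⬝ᵥ x = 1})) :=
    isCompact_unit.prod isCompact_unit
  have h2 : IsClosed {p : (ι → ℂ) × (ι → ℂ) | star p.1 ⬝ᵥ p.2 = 0} := by
    apply isClosed_eq
    · simp only [dotProduct, Pi.star_apply]
      fun_prop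
    · fun_prop
  convert h1.inter_right h2 using 1
  ext p
  simp only [Set.mem_ofPred_eq, Set.mem_inter_iff, Set.mem_prod, and_assoc]

theorem infinite_of_one {A : Matrix ι ι ℂ}
    (hnj : ∀ x : ι → ℂ, star x ⬝ᵥ x = 1 → ¬ ∃ a a' : ℂ, A *ᵥ x = a • x ∧ Aᴴ *ᵥ x = a' • x)
    {u₀ : ℂ} {t₀ : ℝ} {x₀ : ι → ℂ} (hu₀ : ‖u₀‖ = 1) (h₀ : Good A u₀ t₀ x₀) :
    {u : ℂ | ‖u‖ = 1 ∧ ∃ (t : ℝ) (x : ι → ℂ), Good A u t x}.Infinite := by
  intro hfin
  have hu0ne : u₀ ≠ 0 := by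
    rintro rfl
    simp at hu₀
  have hne : (MW A).Nonempty := ⟨_, x₀, h₀.unit, rfl⟩
  have hfin2 : {m : ℕ | u₀ * cseq m ∈ {u : ℂ | ‖u‖ = 1 ∧
      ∃ (t : ℝ) (x : ι → ℂ), Good A u t x}}.Finite := by
    apply hfin.preimage
    intro a _ b _ hab
    exact cseq_inj (mul_left_cancel₀ hu0ne hab)
  obtain ⟨M, hM⟩ := hfin2.bddAbove
  have hnon : ∀ m : ℕ, ¬ ∃ (t : ℝ) (x : ι → ℂ), Good A (u₀ * cseq (m + M + 1)) t x := by
    intro m hm
    have h1 : (m + M + 1) ≤ M := hM (by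
      refine ⟨?_, hm⟩
      rw [norm_mul, hu₀, cseq_norm, one_mul])
    omega
  choose x y hx hy hxy hxt hyt using fun m => nonsimple_pair hne hnj _ (hnon m)
  obtain ⟨⟨a, b⟩, hab, φ, hφ, hlim⟩ := (isCompact_pairs (ι := ι)).tendsto_subseq
    (x := fun m => (x m, y m)) (fun m => ⟨hx m, hy m, hxy m⟩)
  obtain ⟨ha, hb, habo⟩ := hab
  simp only at ha hb habo
  have hlimx : Tendsto (fun m => x (φ m)) atTop (𝓝 a) :=
    (continuous_fst.tendsto (a, b)).comp hlim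
  have hlimy : Tendsto (fun m => y (φ m)) atTop (𝓝 b) :=
    (continuous_snd.tendsto (a, b)).comp hlim
  have hlimu : Tendsto (fun m => u₀ * cseq (φ m + M + 1)) atTop (𝓝 u₀) := by
    have h1 : Tendsto (fun m => φ m + M + 1) atTop atTop :=
      tendsto_atTop_mono (fun m => by omega) hφ.tendsto_atTop
    have h2 := (tendsto_const_nhds (x := u₀)).mul (cseq_tendsto.comp h1)
    rw [mul_one] at h2
    exact h2
  have hcont : ∀ (v : ℕ → ι → ℂ) (v₀ : ι → ℂ), Tendsto v atTop (𝓝 v₀) →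
      Tendsto (fun m => (u₀ * cseq (φ m + M + 1) * (star (v m) ⬝ᵥ (A *ᵥ v m))).re) atTop
        (𝓝 (u₀ * (star v₀ ⬝ᵥ (A *ᵥ v₀))).re) := by
    intro v v₀ hv
    have h1 : Tendsto (fun m => star (v m) ⬝ᵥ (A *ᵥ v m)) atTop (𝓝 (star v₀ ⬝ᵥ (A *ᵥ v₀))) :=
      ((continuous_quad A).tendsto v₀).comp hv
    exact (Complex.continuous_re.tendsto _).comp (hlimu.mul h1)
  have hz₀ : Tendsto (fun m => (u₀ * cseq (φ m + M + 1) * (star x₀ ⬝ᵥ (A *ᵥ x₀))).re) atTop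
        (𝓝 (u₀ * (star x₀ ⬝ᵥ (A *ᵥ x₀))).re) :=
    (Complex.continuous_re.tendsto _).comp (hlimu.mul tendsto_const_nhds)
  have ha1 : t₀ ≤ (u₀ * (star a ⬝ᵥ (A *ᵥ a))).re := by
    rw [← h₀.eq]
    exact le_of_tendsto_of_tendsto' hz₀ (hcont _ _ hlimx)
      (fun m => hxt (φ m) _ ⟨x₀, h₀.unit, rfl⟩)
  have hb1 : t₀ ≤ (u₀ * (star b ⬝ᵥ (A *ᵥ b))).re := by
    rw [← h₀.eq]
    exact le_of_tendsto_of_tendsto' hz₀ (hcont _ _ hlimy)
      (fun m => hyt (φ m) _ ⟨x₀, h₀.unit, rfl⟩)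
  obtain ⟨c, hc⟩ := h₀.simple a ha (le_antisymm (h₀.adm _ ⟨a, ha, rfl⟩) ha1)
  obtain ⟨d, hd⟩ := h₀.simple b hb (le_antisymm (h₀.adm _ ⟨b, hb, rfl⟩) hb1)
  rw [hc, hd, star_smul, smul_dotProduct, dotProduct_smul, h₀.unit, smul_eq_mul, smul_eq_mul,
    mul_one] at habo
  rcases mul_eq_zero.mp habo with h | h
  · have : c = 0 := by simpa using h
    rw [hc, this, zero_smul] at ha
    simp at ha
  · rw [hd, h, zero_smul] at hb
    simp at hb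

end Pool.Agent.Helper84.NR
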