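import Pool.Agent.Helper84.NR.Thm

set_option autoImplicit false

/-!
# The span of the simple top vectors is reducing (algebraic proof)
-/

open Matrix
open scoped ComplexOrder

namespace Pool.Agent.Helper84.NR

open Pool.Agent.Helper774

variable {ι : Type*} [Fintype ι] [DecidableEq ι]

/-- an isometry onto the span of a set -/
theorem iso_of_set (T : Set (ι → ℂ)) :
    ∃ (k : ℕ) (V : Matrix ι (Fin k) ℂ), Vᴴ * V = 1 ∧ (∀ x ∈ T, ∃ y, x = V *ᵥ y) ∧
      ∀ c, V *ᵥ c ∈ Submodule.span ℂ T := by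
  obtain ⟨f, hfS, hspan, hli⟩ := Submodule.exists_fun_fin_finrank_span_eq ℂ T
  generalize Module.finrank ℂ (Submodule.span ℂ T) = k at f hfS hspan hli
  have hinj : Function.Injective (colMat f).mulVec := by
    rw [Matrix.mulVec_injective_iff]
    exact hli
  obtain ⟨R₀, S₀, hRS, hSR, hGR⟩ := exists_factor ((colMat f)ᴴ * colMat f)
    (Matrix.PosDef.conjTranspose_mul_self _ hinj)
  obtain ⟨V, hVd⟩ : ∃ V, V = colMat f * S₀ := ⟨_, rfl⟩
  have hSR' : S₀ᴴ * R₀ᴴ = 1 := by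
    rw [← conjTranspose_mul, hRS, conjTranspose_one]
  have hV : Vᴴ * V = 1 := by
    rw [hVd, conjTranspose_mul]
    calc S₀ᴴ * (colMat f)ᴴ * (colMat f * S₀) = S₀ᴴ * ((colMat f)ᴴ * colMat f) * S₀ := by
          simp only [Matrix.mul_assoc]
      _ = (S₀ᴴ * R₀ᴴ) * (R₀ * S₀) := by rw [hGR]; simp only [Matrix.mul_assoc]
      _ = 1 := by rw [hSR', hRS, Matrix.one_mul]
  have hXV : colMat f = V * R₀ := by rw [hVd, Matrix.mul_assoc, hSR, Matrix.mul_one]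
  refine ⟨k, V, hV, ?_, ?_⟩
  · intro x hx
    have h1 : x ∈ Submodule.span ℂ (Set.range f) := by
      rw [hspan]
      exact Submodule.subset_span hx
    obtain ⟨c, hc⟩ := (Submodule.mem_span_range_iff_exists_fun ℂ).mp h1
    refine ⟨R₀ *ᵥ c, ?_⟩
    rw [Matrix.mulVec_mulVec, ← hXV, colMat_mulVec, hc]
  · intro c
    rw [hVd, ← Matrix.mulVec_mulVec, colMat_mulVec, ← hspan]
    exact Submodule.sum_mem _ fun i _ => Submodule.smul_mem _ _ (Submodule.subset_span ⟨i, rfl⟩)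

/-- the rank one direction for an arbitrary set of simple tops -/
theorem rankone_of_set {A : Matrix ι ι ℂ} (hD : FinPropD A) (T : Set (ι → ℂ))
    (hT : ∀ x ∈ T, ∃ (u : ℂ) (t : ℝ), ‖u‖ = 1 ∧ Good A u t x)
    (h2 : ∃ x₁ ∈ T, ∃ x₂ ∈ T, ¬ ∃ c : ℂ, x₂ = c • x₁) :
    ∃ (k : ℕ) (V : Matrix ι (Fin k) ℂ) (s : ℝ) (w : ℂ) (g : Fin k → ℂ), Vᴴ * V = 1 ∧
      (∀ x ∈ T, ∃ y, x = V *ᵥ y) ∧ Adm A s w ∧ w ≠ 0 ∧
      Vᴴ * sm A s w * V = vecMulVec g (star g) := by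
  obtain ⟨f, hfS, hspan, hli⟩ := Submodule.exists_fun_fin_finrank_span_eq ℂ T
  -- the rank is at least two
  have hk2 : 2 ≤ Module.finrank ℂ (Submodule.span ℂ T) := by
    obtain ⟨x₁, h₁, x₂, h₂, hne⟩ := h2
    obtain ⟨_, _, _, hg₁⟩ := hT x₁ h₁
    have hli2 : LinearIndependent ℂ ![x₁, x₂] := by
      rw [LinearIndependent.pair_iff]
      intro a b hab
      have hb : b = 0 := by
        by_contra hb
        apply hne
        refine ⟨-(b⁻¹ * a), ?_⟩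
        have : b • x₂ = -(a • x₁) := by
          rw [eq_neg_iff_add_eq_zero, add_comm]; exact hab
        have h3 : x₂ = b⁻¹ • (b • x₂) := by rw [smul_smul, inv_mul_cancel₀ hb, one_smul]
        rw [h3, this, smul_neg, smul_smul, neg_smul]
      rw [hb, zero_smul, add_zero] at hab
      exact ⟨(smul_eq_zero.mp hab).resolve_right hg₁.ne_zero, hb⟩
    have h3 : Module.finrank ℂ (Submodule.span ℂ (Set.range ![x₁, x₂])) = 2 := by
      rw [finrank_span_eq_card hli2]; simp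
    refine h3.symm.le.trans (Submodule.finrank_mono ?_)
    rw [Submodule.span_le]
    rintro y ⟨i, rfl⟩
    fin_cases i
    · exact Submodule.subset_span h₁
    · exact Submodule.subset_span h₂
  generalize Module.finrank ℂ (Submodule.span ℂ T) = k at f hfS hspan hli hk2
  have hfS' : ∀ i, ∃ (u : ℂ) (t : ℝ), ‖u‖ = 1 ∧ Good A u t (f i) := fun i => hT _ (hfS i)
  choose u t hu hgood using hfS'
  have hind := not_mul_of_li hli
  have hinj : Function.Injective (colMat f).mulVec := by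
    rw [Matrix.mulVec_injective_iff]
    exact hli
  obtain ⟨R₀, S₀, hRS, hSR, hGR⟩ := exists_factor ((colMat f)ᴴ * colMat f)
    (Matrix.PosDef.conjTranspose_mul_self _ hinj)
  obtain ⟨V, hVd⟩ : ∃ V, V = colMat f * S₀ := ⟨_, rfl⟩
  have hSR' : S₀ᴴ * R₀ᴴ = 1 := by
    rw [← conjTranspose_mul, hRS, conjTranspose_one]
  have hV : Vᴴ * V = 1 := by
    rw [hVd, conjTranspose_mul]
    calc S₀ᴴ * (colMat f)ᴴ * (colMat f * S₀) = S₀ᴴ * ((colMat f)ᴴ * colMat f) * S₀ := by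
          simp only [Matrix.mul_assoc]
      _ = (S₀ᴴ * R₀ᴴ) * (R₀ * S₀) := by rw [hGR]; simp only [Matrix.mul_assoc]
      _ = 1 := by rw [hSR', hRS, Matrix.one_mul]
  have hXV : colMat f = V * R₀ := by rw [hVd, Matrix.mul_assoc, hSR, Matrix.mul_one]
  have hrange : ∀ x ∈ T, ∃ y, x = V *ᵥ y := by
    intro x hx
    have h1 : x ∈ Submodule.span ℂ (Set.range f) := by
      rw [hspan]
      exact Submodule.subset_span hx
    obtain ⟨c, hc⟩ := (Submodule.mem_span_range_iff_exists_fun ℂ).mp h1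
    refine ⟨R₀ *ᵥ c, ?_⟩
    rw [Matrix.mulVec_mulVec, ← hXV, colMat_mulVec, hc]
  have hi0 : 0 < k := by omega
  have hi1 : 1 < k := by omega
  have hk1 : 1 ≤ Fintype.card (Fin k) := by rw [Fintype.card_fin]; omega
  obtain ⟨s, w, hadm, hnorm, hm⟩ := exists_minor_zero (hD 2) (hD k) u t f hu hgood hind hk1
  have hne01 : (⟨0, hi0⟩ : Fin k) ≠ ⟨1, hi1⟩ := by
    intro h
    have := congrArg Fin.val h
    simp at this
  obtain ⟨i₀, hi₀⟩ : ∃ i₀, (star (f i₀) ⬝ᵥ (sm A s w *ᵥ f i₀)).re ≠ 0 := by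
    by_contra hc
    push Not at hc
    have h0 := hadm.kernel _ (hc ⟨0, hi0⟩)
    have h1 := hadm.kernel _ (hc ⟨1, hi1⟩)
    obtain ⟨r, hr1, hr2⟩ := (hgood ⟨0, hi0⟩).ker_line (hu _) s w h0
    have hr : r ≠ 0 := by
      rintro rfl
      rw [hr1, hr2] at hnorm
      simp at hnorm
    rw [hr1, hr2, sm_smul, Matrix.smul_mulVec] at h1
    have h2 := (smul_eq_zero.mp h1).resolve_left (by exact_mod_cast hr)
    exact hind _ _ hne01 ((hgood ⟨0, hi0⟩).kernel _ h2)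
  have hrk := rank_one_of_minors hadm.psd f hm i₀ hi₀
  obtain ⟨μ, hμ⟩ : ∃ μ, μ = (star (f i₀) ⬝ᵥ (sm A s w *ᵥ f i₀)).re := ⟨_, rfl⟩
  have hμ0 : μ ≠ 0 := by rw [hμ]; exact hi₀
  have hμpos : 0 < μ := lt_of_le_of_ne (by rw [hμ]; exact hadm.nonneg _) (Ne.symm hμ0)
  have hμc : star (f i₀) ⬝ᵥ (sm A s w *ᵥ f i₀) = (μ : ℂ) := by
    rw [hμ]; exact real_form (sm_herm A s w) _
  have hw : w ≠ 0 := by
    rintro rfl
    have hs : s ≠ 0 := by
      rintro rfl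
      simp at hnorm
    have hsm : sm A s 0 = (s : ℂ) • (1 : Matrix ι ι ℂ) := by
      rw [sm, Hu]
      simp
    obtain ⟨j, hj⟩ : ∃ j, i₀ ≠ j := by
      by_cases h : i₀ = ⟨0, hi0⟩
      · exact ⟨⟨1, hi1⟩, by rw [h]; exact hne01⟩
      · exact ⟨_, h⟩
    have h1 := hrk j
    rw [hsm, Matrix.smul_mulVec, Matrix.one_mulVec] at h1
    have h2 := (smul_eq_zero.mp h1).resolve_left (by exact_mod_cast hs)
    exact hind _ _ hj ⟨_, sub_eq_zero.mp h2⟩
  obtain ⟨σ, hσ⟩ : ∃ σ, σ = Real.sqrt μ := ⟨_, rfl⟩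
  have hσpos : 0 < σ := by rw [hσ]; exact Real.sqrt_pos.mpr hμpos
  have hσσ : (σ : ℂ) * σ = (μ : ℂ) := by
    rw [← Complex.ofReal_mul, hσ, Real.mul_self_sqrt hμpos.le]
  have hσc : (σ : ℂ) ≠ 0 := by exact_mod_cast hσpos.ne'
  obtain ⟨g, hg⟩ : ∃ g : Fin k → ℂ, g = fun j => star (f j) ⬝ᵥ (sm A s w *ᵥ f i₀) / (σ : ℂ) :=
    ⟨_, rfl⟩
  have hΓ : (colMat f)ᴴ * sm A s w * colMat f = vecMulVec g (star g) := by
    ext l j
    have h1 := hrk j
    rw [Matrix.mulVec_sub, Matrix.mulVec_smul, sub_eq_zero] at h1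
    rw [entry_form]
    change star (f l) ⬝ᵥ (sm A s w *ᵥ f j) = g l * star (g j)
    rw [h1, dotProduct_smul, smul_eq_mul, hμc, hg]
    simp only
    have h2 := herm_swap (sm_herm A s w) (f j) (f i₀)
    rw [Complex.star_def, map_div₀, Complex.conj_ofReal, h2, ← hσσ]
    field_simp
  refine ⟨k, V, s, w, S₀ᴴ *ᵥ g, hV, hrange, hadm, hw, ?_⟩
  calc Vᴴ * sm A s w * V = S₀ᴴ * ((colMat f)ᴴ * sm A s w * colMat f) * S₀ := by
        rw [hVd, conjTranspose_mul]; simp only [Matrix.mul_assoc]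
    _ = S₀ᴴ * vecMulVec g (star g) * S₀ := by rw [hΓ]
    _ = vecMulVec (S₀ᴴ *ᵥ g) (star (S₀ᴴ *ᵥ g)) := by
        rw [Matrix.mul_vecMulVec, Matrix.vecMulVec_mul, Matrix.star_mulVec,
          conjTranspose_conjTranspose]

/-- two good tops in directions which differ by a multiple of a nonnegative element -/
theorem no_pair {A : Matrix ι ι ℂ} {u u' : ℂ} {t t' : ℝ} {x : ι → ℂ}
    (h : Good A u t x) (hu : ‖u‖ = 1) (hu' : ‖u'‖ = 1) (h'adm : Adm A t' u') {s : ℝ} {w : ℂ}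
    (hadm : Adm A s w) (r κ : ℝ) (hr : 0 < r) (hκ : 0 ≤ κ)
    (heq : sm A t u = (r : ℂ) • sm A t' u' + (κ : ℂ) • sm A s w) : u' = u ∨ u' = -u := by
  have h1 := h.sm_zero
  have h2 : (star x ⬝ᵥ (sm A t u *ᵥ x)).re = 0 := by rw [h1, dotProduct_zero, Complex.zero_re]
  rw [heq, Matrix.add_mulVec, dotProduct_add, smul_form, smul_form, Complex.add_re,
    Complex.re_ofReal_mul, Complex.re_ofReal_mul] at h2
  have h3 := h'adm.nonneg x
  have h4 := hadm.nonneg x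
  have h5 : (star x ⬝ᵥ (sm A t' u' *ᵥ x)).re = 0 := by
    have h6 : 0 ≤ κ * (star x ⬝ᵥ (sm A s w *ᵥ x)).re := mul_nonneg hκ h4
    have h7 : 0 ≤ r * (star x ⬝ᵥ (sm A t' u' *ᵥ x)).re := mul_nonneg hr.le h3
    have h8 : r * (star x ⬝ᵥ (sm A t' u' *ᵥ x)).re = 0 := by linarith
    rcases mul_eq_zero.mp h8 with h9 | h9
    · exact absurd h9 hr.ne'
    · exact h9
  obtain ⟨ρ, _, hρ⟩ := h.ker_line hu t' u' (h'adm.kernel x h5)
  have h6 : |ρ| = 1 := by
    rw [hρ, norm_mul, hu, mul_one, Complex.norm_real, Real.norm_eq_abs] at hu'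
    exact hu'
  rcases (abs_eq zero_le_one).mp h6 with h7 | h7
  · left; rw [hρ, h7]; simp
  · right; rw [hρ, h7]; simp

theorem sm_expand (A : Matrix ι ι ℂ) (s t : ℝ) (w u : ℂ) (hw : w ≠ 0) :
    sm A t u = (((u / w).re : ℝ) : ℂ) • sm A s w + (((t - (u / w).re * s : ℝ) : ℂ) •
      (1 : Matrix ι ι ℂ) + (((u / w).im : ℝ) : ℂ) • sm A 0 (Complex.I * w)) := by
  have h1 : sm A 1 0 = (1 : Matrix ι ι ℂ) := by
    rw [sm, Hu]; simp
  rw [← h1, ← sm_smul, ← sm_smul, ← sm_smul, ← sm_add, ← sm_add]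
  congr 1
  · ring
  · have h2 : u = (u / w) * w := by field_simp
    conv_lhs => rw [h2, ← Complex.re_add_im (u / w)]
    ring

end Pool.Agent.Helper84.NR
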