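import Mathlib
import Pool.Agent.Helper774.Final2

set_option autoImplicit false

/-!
# Positive maps and dilations attached to the span of `1`, `A`, `A*`
-/

open Matrix
open scoped ComplexOrder

namespace Pool.Agent.Helper84.NR

open Pool.Agent.Helper774

section basic

variable {ι : Type*} [Fintype ι] [DecidableEq ι]

/-- the hermitian matrix `t - Re (w A)` -/
noncomputable def sm (A : Matrix ι ι ℂ) (t : ℝ) (w : ℂ) : Matrix ι ι ℂ :=
  (t : ℂ) • (1 : Matrix ι ι ℂ) - Hu A w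

theorem sm_herm (A : Matrix ι ι ℂ) (t : ℝ) (w : ℂ) : (sm A t w).IsHermitian := by
  unfold sm
  apply Matrix.IsHermitian.sub
  · unfold Matrix.IsHermitian
    rw [conjTranspose_smul, conjTranspose_one, Complex.star_def, Complex.conj_ofReal]
  · exact Hu_isHermitian A w

theorem sm_quad (A : Matrix ι ι ℂ) (t : ℝ) (w : ℂ) (x : ι → ℂ) :
    star x ⬝ᵥ (sm A t w *ᵥ x) = (t : ℂ) * (star x ⬝ᵥ x) - (((w * (star x ⬝ᵥ (A *ᵥ x))).re : ℝ) : ℂ) := by
  rw [sm, Matrix.sub_mulVec, dotProduct_sub, Matrix.smul_mulVec, Matrix.one_mulVec,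
    dotProduct_smul, smul_eq_mul, quad_Hu]

theorem sm_quad_re (A : Matrix ι ι ℂ) (t : ℝ) (w : ℂ) (x : ι → ℂ) :
    (star x ⬝ᵥ (sm A t w *ᵥ x)).re = t * (star x ⬝ᵥ x).re - (w * (star x ⬝ᵥ (A *ᵥ x))).re := by
  rw [sm_quad, Complex.sub_re, Complex.re_ofReal_mul, Complex.ofReal_re]

theorem sm_quad_ofReal (A : Matrix ι ι ℂ) (t : ℝ) (w : ℂ) (x : ι → ℂ) :
    star x ⬝ᵥ (sm A t w *ᵥ x) = (((star x ⬝ᵥ (sm A t w *ᵥ x)).re : ℝ) : ℂ) := by
  apply Complex.ext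
  · simp
  · rw [sm_quad, Complex.sub_im, Complex.ofReal_im, Complex.im_ofReal_mul, dot_self_im]
    simp

/-- `(t, w)` is nonnegative: `Re (w z) ≤ t` on the numerical range. -/
def Adm (A : Matrix ι ι ℂ) (t : ℝ) (w : ℂ) : Prop := ∀ z ∈ MW A, (w * z).re ≤ t

theorem MW_smul_mem (A : Matrix ι ι ℂ) (w z : ℂ) (hz : z ∈ MW (w • A)) :
    ∃ y ∈ MW A, z = w * y := by
  obtain ⟨x, hx, rfl⟩ := hz
  exact ⟨_, ⟨x, hx, rfl⟩, by rw [Matrix.smul_mulVec, dotProduct_smul, smul_eq_mul]⟩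

theorem Adm.nonneg {A : Matrix ι ι ℂ} {t : ℝ} {w : ℂ} (h : Adm A t w) (x : ι → ℂ) :
    0 ≤ (star x ⬝ᵥ (sm A t w *ᵥ x)).re := by
  rw [sm_quad_re]
  have h1 := re_quad_le_of_MW (w • A) t (by
    intro z hz
    obtain ⟨y, hy, rfl⟩ := MW_smul_mem A w z hz
    exact h y hy) x
  rw [Matrix.smul_mulVec, dotProduct_smul, smul_eq_mul] at h1
  linarith

theorem Adm.psd {A : Matrix ι ι ℂ} {t : ℝ} {w : ℂ} (h : Adm A t w) : (sm A t w).PosSemidef := by
  apply Matrix.PosSemidef.of_dotProduct_mulVec_nonneg (sm_herm A t w)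
  intro x
  rw [sm_quad_ofReal]
  exact_mod_cast h.nonneg x

theorem Adm.kernel {A : Matrix ι ι ℂ} {t : ℝ} {w : ℂ} (h : Adm A t w) (x : ι → ℂ)
    (hx : (star x ⬝ᵥ (sm A t w *ᵥ x)).re = 0) : sm A t w *ᵥ x = 0 := by
  rw [← h.psd.dotProduct_mulVec_zero_iff, sm_quad_ofReal, hx, Complex.ofReal_zero]

/-- linearity of the pencil -/
theorem sm_add (A : Matrix ι ι ℂ) (t t' : ℝ) (w w' : ℂ) :
    sm A (t + t') (w + w') = sm A t w + sm A t' w' := by
  unfold sm Hu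
  rw [Complex.ofReal_add, add_smul, add_smul, conjTranspose_add]
  simp only [smul_add]
  abel

theorem sm_smul (A : Matrix ι ι ℂ) (r t : ℝ) (w : ℂ) :
    sm A (r * t) ((r : ℂ) * w) = (r : ℂ) • sm A t w := by
  unfold sm Hu
  rw [Complex.ofReal_mul, mul_smul, mul_smul, conjTranspose_smul, Complex.star_def,
    Complex.conj_ofReal, smul_sub, ← smul_add, smul_comm (1 / 2 : ℂ) (r : ℂ)]

/-- the pencil as a real linear map -/
noncomputable def smL (A : Matrix ι ι ℂ) : ℝ × ℂ →ₗ[ℝ] Matrix ι ι ℂ where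
  toFun p := sm A p.1 p.2
  map_add' p q := sm_add A p.1 q.1 p.2 q.2
  map_smul' r p := by
    change sm A (r * p.1) (r • p.2) = r • sm A p.1 p.2
    rw [Complex.real_smul, sm_smul, Complex.coe_smul]

theorem smL_apply (A : Matrix ι ι ℂ) (p : ℝ × ℂ) : smL A p = sm A p.1 p.2 := rfl

end basic

section dil

variable {ι : Type*} [Fintype ι] [DecidableEq ι] {κ : Type*} [Fintype κ] [DecidableEq κ]

/-- separation with a constant -/
theorem exists_sep' (A : Matrix ι ι ℂ) (z : ℂ) (hz : z ∉ MW A) :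
    ∃ (u : ℂ) (c : ℝ), (∀ w ∈ MW A, (u * w).re < c) ∧ c < (u * z).re := by
  obtain ⟨f, c, h1, h2⟩ := RCLike.geometric_hahn_banach_closed_point (𝕜 := ℂ) (MW_convex A)
    (MW_isCompact A).isClosed hz
  have e : ∀ w : ℂ, f w = f 1 * w := by
    intro w
    have : w = w • (1 : ℂ) := by simp
    conv_lhs => rw [this, map_smul]
    rw [smul_eq_mul, mul_comm]
  refine ⟨f 1, c, fun w hw => ?_, ?_⟩
  · rw [← e]
    exact h1 w hw
  · rw [← e]
    exact h2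

theorem finDil_toMatrix {A : Matrix ι ι ℂ} {T : Matrix κ κ ℂ} (h : FinDil A T) :
    ∃ (N : ℕ) (R : Fin N → Matrix ι κ ℂ), ∑ p, (R p)ᴴ * R p = 1 ∧
      ∑ p, (R p)ᴴ * A * R p = T := by
  obtain ⟨N, R, h1, h2⟩ := h
  refine ⟨N, fun p => Matrix.of (R p), ?_, ?_⟩
  · ext a b
    rw [Matrix.sum_apply, Matrix.one_apply, ← h1 a b]
    apply Finset.sum_congr rfl
    intro p _
    rw [Matrix.mul_apply]
    rfl
  · ext a b
    rw [Matrix.sum_apply, ← h2 a b]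
    apply Finset.sum_congr rfl
    intro p _
    rw [Matrix.mul_assoc, Matrix.mul_apply]
    apply Finset.sum_congr rfl
    intro i _
    rw [Matrix.mul_apply, Finset.mul_sum]
    apply Finset.sum_congr rfl
    intro j _
    change starRingEnd ℂ (R p i a) * (A i j * R p j b) = _
    ring

/-- A positive map given by `1 ↦ G`, `A ↦ Φ` is completely positive if `A` has the dilation
property. -/
theorem gram_dil (A : Matrix ι ι ℂ)
    (hA : ∀ T : Matrix κ κ ℂ, MW T ⊆ MW A → FinDil A T)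
    (G Φ : Matrix κ κ ℂ) (hG : G.PosDef)
    (hpos : ∀ (t : ℝ) (w : ℂ), Adm A t w → ∀ y : κ → ℂ,
      0 ≤ t * (star y ⬝ᵥ (G *ᵥ y)).re - (w * (star y ⬝ᵥ (Φ *ᵥ y))).re) :
    ∃ (N : ℕ) (R : Fin N → Matrix ι κ ℂ), ∑ p, (R p)ᴴ * R p = G ∧
      ∑ p, (R p)ᴴ * A * R p = Φ := by
  obtain ⟨R₀, S₀, hRS, hSR, hGR⟩ := exists_factor G hG
  have hRS' : R₀ᴴ * S₀ᴴ = 1 := by
    rw [← conjTranspose_mul, hSR, conjTranspose_one]
  have hSR' : S₀ᴴ * R₀ᴴ = 1 := by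
    rw [← conjTranspose_mul, hRS, conjTranspose_one]
  obtain ⟨N, R, h1, h2⟩ := finDil_toMatrix (hA (S₀ᴴ * Φ * S₀) (by
    rintro z ⟨y, hy, rfl⟩
    by_contra hz
    obtain ⟨u, c, hc1, hc2⟩ := exists_sep' A _ hz
    have h := hpos c u (fun z hz => (hc1 z hz).le) (S₀ *ᵥ y)
    have e1 : star (S₀ *ᵥ y) ⬝ᵥ (G *ᵥ (S₀ *ᵥ y)) = 1 := by
      rw [Matrix.star_mulVec, ← Matrix.dotProduct_mulVec, Matrix.mulVec_mulVec,
        Matrix.mulVec_mulVec, hGR, Matrix.mul_assoc, Matrix.mul_assoc, hRS, Matrix.mul_one, hSR',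
        Matrix.one_mulVec, hy]
    have e2 : star (S₀ *ᵥ y) ⬝ᵥ (Φ *ᵥ (S₀ *ᵥ y)) = star y ⬝ᵥ ((S₀ᴴ * Φ * S₀) *ᵥ y) := by
      rw [Matrix.star_mulVec, ← Matrix.dotProduct_mulVec, Matrix.mulVec_mulVec,
        Matrix.mulVec_mulVec, Matrix.mul_assoc]
    rw [e1, e2, Complex.one_re, mul_one] at h
    linarith))
  refine ⟨N, fun p => R p * R₀, ?_, ?_⟩
  · have : ∀ p, (R p * R₀)ᴴ * (R p * R₀) = R₀ᴴ * ((R p)ᴴ * R p) * R₀ := by
      intro p
      rw [conjTranspose_mul]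
      simp only [Matrix.mul_assoc]
    simp only [this]
    rw [← Finset.sum_mul, ← Finset.mul_sum, h1, Matrix.mul_one, hGR]
  · have : ∀ p, (R p * R₀)ᴴ * A * (R p * R₀) = R₀ᴴ * ((R p)ᴴ * A * R p) * R₀ := by
      intro p
      rw [conjTranspose_mul]
      simp only [Matrix.mul_assoc]
    simp only [this]
    rw [← Finset.sum_mul, ← Finset.mul_sum, h2]
    calc R₀ᴴ * (S₀ᴴ * Φ * S₀) * R₀ = (R₀ᴴ * S₀ᴴ) * Φ * (S₀ * R₀) := by
          simp only [Matrix.mul_assoc]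
      _ = Φ := by rw [hRS', hSR, Matrix.one_mul, Matrix.mul_one]

end dil

end Pool.Agent.Helper84.NR
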