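import Pool.Agent.Helper84.NR.Tops

set_option autoImplicit false

/-!
# Two simple top vectors are connected if the dilation property holds
-/

open Matrix
open scoped ComplexOrder

namespace Pool.Agent.Helper84.NR

open Pool.Agent.Helper774

variable {ι : Type*} [Fintype ι] [DecidableEq ι]

/-- squared euclidean norm -/
noncomputable def nsq (x : ι → ℂ) : ℝ := (star x ⬝ᵥ x).re

omit [DecidableEq ι] in
theorem norm_sq_le_nsq (x : ι → ℂ) : ‖x‖ ^ 2 ≤ nsq x := by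
  have h : nsq x = ∑ i, ‖x i‖ ^ 2 := by rw [nsq, dot_self_eq, Complex.ofReal_re]
  rw [h]
  have h0 : 0 ≤ ∑ i, ‖x i‖ ^ 2 := Finset.sum_nonneg fun _ _ => by positivity
  have h1 : ‖x‖ ≤ Real.sqrt (∑ i, ‖x i‖ ^ 2) := by
    rw [pi_norm_le_iff_of_nonneg (Real.sqrt_nonneg _)]
    intro i
    apply Real.le_sqrt_of_sq_le
    exact Finset.single_le_sum (f := fun i => ‖x i‖ ^ 2) (fun _ _ => by positivity)
      (Finset.mem_univ i)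
  calc ‖x‖ ^ 2 ≤ (Real.sqrt (∑ i, ‖x i‖ ^ 2)) ^ 2 := by gcongr
    _ = _ := Real.sq_sqrt h0

omit [DecidableEq ι] in
theorem nsq_nonneg (x : ι → ℂ) : 0 ≤ nsq x := dot_self_re_nonneg x

omit [DecidableEq ι] in
theorem psd_bound (M : Matrix ι ι ℂ) (hM : M.PosSemidef) (K : ℝ) (hK : 0 < K)
    (hb : ∀ y, (star y ⬝ᵥ (M *ᵥ y)).re ≤ K * nsq y) (x : ι → ℂ) :
    nsq (M *ᵥ x) ≤ K * (star x ⬝ᵥ (M *ᵥ x)).re := by
  obtain ⟨z, hz⟩ : ∃ z, z = M *ᵥ x := ⟨_, rfl⟩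
  have h1 := hM.dotProduct_mulVec_nonneg (x - ((K⁻¹ : ℝ) : ℂ) • z)
  have h2 : star x ⬝ᵥ (M *ᵥ z) = star z ⬝ᵥ z := by
    rw [hz, Matrix.star_mulVec, hM.1.eq, ← Matrix.dotProduct_mulVec]
  have h3 := hb z
  rw [Matrix.mulVec_sub, Matrix.mulVec_smul, star_sub, star_smul, sub_dotProduct, smul_dotProduct,
    dotProduct_sub, dotProduct_sub, dotProduct_smul, dotProduct_smul, ← hz, h2] at h1
  simp only [smul_eq_mul, Complex.star_def, Complex.conj_ofReal] at h1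
  have h4 := (Complex.le_def.mp h1).1
  simp only [Complex.zero_re, Complex.sub_re, Complex.re_ofReal_mul] at h4
  rw [← hz]
  have e : (star z ⬝ᵥ z).re = nsq z := rfl
  rw [e] at h4
  have hKi : 0 < K⁻¹ := inv_pos.mpr hK
  have h5 : K⁻¹ * (star z ⬝ᵥ (M *ᵥ z)).re ≤ nsq z := by
    calc K⁻¹ * (star z ⬝ᵥ (M *ᵥ z)).re ≤ K⁻¹ * (K * nsq z) := by gcongr
      _ = nsq z := by field_simp
  have h6 : K⁻¹ * nsq z ≤ (star x ⬝ᵥ z).re := by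
    nlinarith
  calc nsq z = K * (K⁻¹ * nsq z) := by field_simp
    _ ≤ K * (star x ⬝ᵥ z).re := by gcongr

theorem exists_quad_bound (A : Matrix ι ι ℂ) :
    ∃ C : ℝ, 0 < C ∧ ∀ (t : ℝ) (w : ℂ) (y : ι → ℂ),
      (star y ⬝ᵥ (sm A t w *ᵥ y)).re ≤ C * ‖((t, w) : ℝ × ℂ)‖ * nsq y := by
  obtain ⟨C, hC⟩ := (MW_isCompact A).isBounded.exists_norm_le
  have hC' : ∀ y : ι → ℂ, ‖star y ⬝ᵥ (A *ᵥ y)‖ ≤ |C| * nsq y := by
    intro y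
    by_cases hy : y = 0
    · simp [hy, nsq]
    have h1 := hC _ (mem_MW_of_ne_zero A y hy)
    have hne : star y ⬝ᵥ y ≠ 0 := by
      intro h0
      exact hy (dot_self_re_eq_zero (by rw [h0]; simp))
    have h2 : ‖star y ⬝ᵥ y‖ = nsq y := by
      rw [dot_self_ofReal, Complex.norm_real, Real.norm_eq_abs, abs_of_nonneg (dot_self_re_nonneg y)]
      rfl
    rw [norm_div, h2, div_le_iff₀ (by
      rw [← h2]; exact norm_pos_iff.mpr hne)] at h1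
    exact h1.trans (mul_le_mul_of_nonneg_right (le_abs_self C) (nsq_nonneg y))
  refine ⟨1 + |C|, by positivity, ?_⟩
  intro t w y
  rw [sm_quad_re]
  have h1 : t ≤ ‖((t, w) : ℝ × ℂ)‖ := (le_abs_self t).trans (norm_fst_le ((t, w) : ℝ × ℂ))
  have h2 : ‖w‖ ≤ ‖((t, w) : ℝ × ℂ)‖ := norm_snd_le ((t, w) : ℝ × ℂ)
  have h3 : -(w * (star y ⬝ᵥ (A *ᵥ y))).re ≤ ‖w‖ * (|C| * nsq y) := by
    calc -(w * (star y ⬝ᵥ (A *ᵥ y))).re ≤ |(w * (star y ⬝ᵥ (A *ᵥ y))).re| := neg_le_abs _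
      _ ≤ ‖w * (star y ⬝ᵥ (A *ᵥ y))‖ := Complex.abs_re_le_norm _
      _ = ‖w‖ * ‖star y ⬝ᵥ (A *ᵥ y)‖ := norm_mul _ _
      _ ≤ ‖w‖ * (|C| * nsq y) := by gcongr; exact hC' y
  have h4 := nsq_nonneg y
  have h5 : t * nsq y ≤ ‖((t, w) : ℝ × ℂ)‖ * nsq y := by gcongr
  have h6 : ‖w‖ * (|C| * nsq y) ≤ ‖((t, w) : ℝ × ℂ)‖ * (|C| * nsq y) := by gcongr
  have e : (star y ⬝ᵥ y).re = nsq y := rfl
  rw [e]
  nlinarith

/-- evaluation of the pencil at a vector -/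
noncomputable def ev (A : Matrix ι ι ℂ) (x : ι → ℂ) : ℝ × ℂ →ₗ[ℝ] (ι → ℂ) where
  toFun p := smL A p *ᵥ x
  map_add' p q := by rw [map_add, Matrix.add_mulVec]
  map_smul' r p := by rw [map_smul, RingHom.id_apply, Matrix.smul_mulVec]

theorem ev_apply (A : Matrix ι ι ℂ) (x : ι → ℂ) (t : ℝ) (w : ℂ) :
    ev A x (t, w) = sm A t w *ᵥ x := rfl

theorem exists_two_functional (a b : ℝ × ℂ) :
    ∃ c : (ℝ × ℂ) →ₗ[ℝ] ℝ, c ≠ 0 ∧ c a = 0 ∧ c b = 0 := by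
  classical
  have hlt : Submodule.span ℝ ({a, b} : Set (ℝ × ℂ)) < ⊤ := by
    rw [lt_top_iff_ne_top]
    intro h
    have h1 : Module.finrank ℝ (Submodule.span ℝ ({a, b} : Set (ℝ × ℂ))) ≤ 2 := by
      have := finrank_span_finset_le_card (R := ℝ) ({a, b} : Finset (ℝ × ℂ))
      rw [Set.finrank] at this
      have e : ((({a, b} : Finset (ℝ × ℂ)) : Set (ℝ × ℂ))) = ({a, b} : Set (ℝ × ℂ)) := by simp
      rw [e] at this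
      exact this.trans Finset.card_le_two
    rw [h, finrank_top, Module.finrank_prod, Complex.finrank_real_complex, Module.finrank_self] at h1
    omega
  obtain ⟨c, hc0, hc⟩ := Submodule.exists_le_ker_of_lt_top _ hlt
  exact ⟨c, hc0, hc (Submodule.subset_span (by simp)), hc (Submodule.subset_span (by simp))⟩

theorem exists_factor_of_ker {E F : Type*} [AddCommGroup E] [Module ℝ E] [AddCommGroup F]
    [Module ℝ F] (f : E →ₗ[ℝ] F) (c : E →ₗ[ℝ] ℝ) (h : LinearMap.ker f ≤ LinearMap.ker c) :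
    ∃ l : F →ₗ[ℝ] ℝ, c = l ∘ₗ f := by
  have h1 : c ∈ LinearMap.range f.dualMap := by
    rw [LinearMap.range_dualMap_eq_dualAnnihilator_ker, Submodule.mem_dualAnnihilator]
    intro w hw
    exact h hw
  obtain ⟨l, hl⟩ := h1
  exact ⟨l, hl.symm⟩

theorem Good.functional_bound {A : Matrix ι ι ℂ} {u : ℂ} {t : ℝ} {x : ι → ℂ}
    (h : Good A u t x) (hu : ‖u‖ = 1) (c : (ℝ × ℂ) →ₗ[ℝ] ℝ) (hc : c (t, u) = 0) :
    ∃ C : ℝ, 0 < C ∧ ∀ p : ℝ × ℂ, |c p| ≤ C * ‖ev A x p‖ := by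
  obtain ⟨l, hl⟩ := exists_factor_of_ker (ev A x) c (by
    rintro ⟨t', w⟩ hw
    rw [LinearMap.mem_ker, ev_apply] at hw
    obtain ⟨r, h1, h2⟩ := h.ker_line hu t' w hw
    rw [LinearMap.mem_ker]
    have : ((t', w) : ℝ × ℂ) = r • ((t, u) : ℝ × ℂ) := by
      rw [Prod.smul_mk, smul_eq_mul, Complex.real_smul, h1, h2]
    rw [this, map_smul, hc, smul_zero])
  refine ⟨‖LinearMap.toContinuousLinearMap l‖ + 1, by positivity, fun p => ?_⟩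
  rw [hl]
  have h1 := (LinearMap.toContinuousLinearMap l).le_opNorm (ev A x p)
  rw [LinearMap.coe_toContinuousLinearMap'] at h1
  rw [LinearMap.comp_apply, ← Real.norm_eq_abs]
  have h2 := norm_nonneg (ev A x p)
  nlinarith

theorem key_bound {A : Matrix ι ι ℂ} {u₁ u₂ : ℂ} {t₁ t₂ : ℝ} {x₁ x₂ : ι → ℂ}
    (h₁ : Good A u₁ t₁ x₁) (h₂ : Good A u₂ t₂ x₂) (hu₁ : ‖u₁‖ = 1) (hu₂ : ‖u₂‖ = 1)
    (hne : ¬ ∃ c : ℂ, x₂ = c • x₁) (c : (ℝ × ℂ) →ₗ[ℝ] ℝ) (hc₁ : c (t₁, u₁) = 0)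
    (hc₂ : c (t₂, u₂) = 0) :
    ∃ B : ℝ, 0 < B ∧ ∀ (t : ℝ) (w : ℂ), Adm A t w → (c (t, w)) ^ 2 ≤
      B * ((star x₁ ⬝ᵥ (sm A t w *ᵥ x₁)).re * (star x₂ ⬝ᵥ (sm A t w *ᵥ x₂)).re) := by
  obtain ⟨C0, hC0, hb⟩ := exists_quad_bound A
  obtain ⟨C1, hC1, hb1⟩ := h₁.functional_bound hu₁ c hc₁
  obtain ⟨C2, hC2, hb2⟩ := h₂.functional_bound hu₂ c hc₂
  have hker : LinearMap.ker ((ev A x₁).prod (ev A x₂)) = ⊥ := by
    rw [LinearMap.ker_eq_bot']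
    rintro ⟨t, w⟩ hp
    replace hp : ((ev A x₁ (t, w), ev A x₂ (t, w)) : (ι → ℂ) × (ι → ℂ)) = 0 := hp
    rw [Prod.mk_eq_zero, ev_apply, ev_apply] at hp
    obtain ⟨r, hr1, hr2⟩ := h₁.ker_line hu₁ t w hp.1
    by_cases hr : r = 0
    · rw [hr1, hr2, hr]; simp
    · exfalso
      have h5 : (r : ℂ) • (sm A t₁ u₁ *ᵥ x₂) = 0 := by
        rw [← Matrix.smul_mulVec, ← sm_smul, ← hr1, ← hr2]
        exact hp.2
      have h6 : sm A t₁ u₁ *ᵥ x₂ = 0 := by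
        rcases smul_eq_zero.mp h5 with h | h
        · exact absurd (by exact_mod_cast h) hr
        · exact h
      exact hne (h₁.kernel x₂ h6)
  obtain ⟨K, hK, hK'⟩ := LinearMap.exists_antilipschitzWith _ hker
  have hbK : ∀ p : ℝ × ℂ, ‖p‖ ^ 2 ≤ (K : ℝ) ^ 2 * (‖ev A x₁ p‖ ^ 2 + ‖ev A x₂ p‖ ^ 2) := by
    intro p
    have h1 := hK'.le_mul_dist p 0
    rw [dist_zero_right, map_zero, dist_zero_right] at h1
    replace h1 : ‖p‖ ≤ (K : ℝ) * ‖((ev A x₁ p, ev A x₂ p) : (ι → ℂ) × (ι → ℂ))‖ := h1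
    have h3 : ‖((ev A x₁ p, ev A x₂ p) : (ι → ℂ) × (ι → ℂ))‖ = max ‖ev A x₁ p‖ ‖ev A x₂ p‖ :=
      Prod.norm_mk _ _
    rw [h3] at h1
    have h2 : (max ‖ev A x₁ p‖ ‖ev A x₂ p‖) ^ 2 ≤ ‖ev A x₁ p‖ ^ 2 + ‖ev A x₂ p‖ ^ 2 := by
      rcases max_cases ‖ev A x₁ p‖ ‖ev A x₂ p‖ with ⟨h, _⟩ | ⟨h, _⟩ <;> rw [h] <;> nlinarith [sq_nonneg ‖ev A x₁ p‖, sq_nonneg ‖ev A x₂ p‖]
    calc ‖p‖ ^ 2 ≤ ((K : ℝ) * max ‖ev A x₁ p‖ ‖ev A x₂ p‖) ^ 2 := by gcongr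
      _ = (K : ℝ) ^ 2 * (max ‖ev A x₁ p‖ ‖ev A x₂ p‖) ^ 2 := by ring
      _ ≤ _ := by gcongr
  set E : ℝ := (C1 ^ 2 + C2 ^ 2) * C0 ^ 2 * (K : ℝ) ^ 2 with hE
  have hKpos : (0 : ℝ) < K := by exact_mod_cast hK
  have hEpos : 0 < E := by positivity
  refine ⟨2 * E, by positivity, ?_⟩
  intro t w hadm
  obtain ⟨G1, hG1⟩ : ∃ G1, G1 = (star x₁ ⬝ᵥ (sm A t w *ᵥ x₁)).re := ⟨_, rfl⟩
  obtain ⟨G2, hG2⟩ : ∃ G2, G2 = (star x₂ ⬝ᵥ (sm A t w *ᵥ x₂)).re := ⟨_, rfl⟩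
  rw [← hG1, ← hG2]
  have hG1n : 0 ≤ G1 := by rw [hG1]; exact hadm.nonneg x₁
  have hG2n : 0 ≤ G2 := by rw [hG2]; exact hadm.nonneg x₂
  by_cases hp : ((t, w) : ℝ × ℂ) = 0
  · rw [hp, map_zero]
    have : 0 ≤ 2 * E * (G1 * G2) := by positivity
    simpa using this
  have hpn : 0 < ‖((t, w) : ℝ × ℂ)‖ := norm_pos_iff.mpr hp
  have e1 : ‖ev A x₁ (t, w)‖ ^ 2 ≤ C0 * ‖((t, w) : ℝ × ℂ)‖ * G1 := by
    refine (norm_sq_le_nsq _).trans ?_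
    rw [ev_apply, hG1]
    exact psd_bound _ hadm.psd _ (by positivity) (fun y => hb t w y) x₁
  have e2 : ‖ev A x₂ (t, w)‖ ^ 2 ≤ C0 * ‖((t, w) : ℝ × ℂ)‖ * G2 := by
    refine (norm_sq_le_nsq _).trans ?_
    rw [ev_apply, hG2]
    exact psd_bound _ hadm.psd _ (by positivity) (fun y => hb t w y) x₂
  have e3 := hbK (t, w)
  have f1 := hb1 (t, w)
  have f2 := hb2 (t, w)
  obtain ⟨P, hP⟩ : ∃ P, P = ‖((t, w) : ℝ × ℂ)‖ := ⟨_, rfl⟩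
  obtain ⟨a₁, ha₁⟩ : ∃ a, a = ‖ev A x₁ (t, w)‖ := ⟨_, rfl⟩
  obtain ⟨a₂, ha₂⟩ : ∃ a, a = ‖ev A x₂ (t, w)‖ := ⟨_, rfl⟩
  obtain ⟨c', hc'⟩ : ∃ c', c' = c (t, w) := ⟨_, rfl⟩
  rw [← hP] at hpn e1 e2 e3
  rw [← ha₁] at e1 e3 f1
  rw [← ha₂] at e2 e3 f2
  rw [← hc'] at f1 f2 ⊢
  have ha1 : 0 ≤ a₁ := by rw [ha₁]; exact norm_nonneg _
  have ha2 : 0 ≤ a₂ := by rw [ha₂]; exact norm_nonneg _
  clear hP ha₁ ha₂ hc'
  have g1 : P ≤ (K : ℝ) ^ 2 * C0 * (G1 + G2) := by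
    have : P * P ≤ P * ((K : ℝ) ^ 2 * C0 * (G1 + G2)) := by
      calc P * P = P ^ 2 := by ring
        _ ≤ (K : ℝ) ^ 2 * (a₁ ^ 2 + a₂ ^ 2) := e3
        _ ≤ (K : ℝ) ^ 2 * (C0 * P * G1 + C0 * P * G2) := by gcongr
        _ = _ := by ring
    exact le_of_mul_le_mul_left this hpn
  have g2 : c' ^ 2 ≤ C1 ^ 2 * a₁ ^ 2 := by
    rw [← sq_abs c', ← mul_pow]
    gcongr
  have g3 : c' ^ 2 ≤ C2 ^ 2 * a₂ ^ 2 := by
    rw [← sq_abs c', ← mul_pow]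
    gcongr
  have g4 : c' ^ 2 ≤ E * (G1 + G2) * G1 := by
    calc c' ^ 2 ≤ C1 ^ 2 * a₁ ^ 2 := g2
      _ ≤ C1 ^ 2 * (C0 * P * G1) := by gcongr
      _ ≤ C1 ^ 2 * (C0 * ((K : ℝ) ^ 2 * C0 * (G1 + G2)) * G1) := by gcongr
      _ ≤ (C1 ^ 2 + C2 ^ 2) * (C0 * ((K : ℝ) ^ 2 * C0 * (G1 + G2)) * G1) := by
          gcongr
          nlinarith [sq_nonneg C2]
      _ = _ := by rw [hE]; ring
  have g5 : c' ^ 2 ≤ E * (G1 + G2) * G2 := by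
    calc c' ^ 2 ≤ C2 ^ 2 * a₂ ^ 2 := g3
      _ ≤ C2 ^ 2 * (C0 * P * G2) := by gcongr
      _ ≤ C2 ^ 2 * (C0 * ((K : ℝ) ^ 2 * C0 * (G1 + G2)) * G2) := by gcongr
      _ ≤ (C1 ^ 2 + C2 ^ 2) * (C0 * ((K : ℝ) ^ 2 * C0 * (G1 + G2)) * G2) := by
          gcongr
          nlinarith [sq_nonneg C1]
      _ = _ := by rw [hE]; ring
  clear_value E
  rcases le_total G1 G2 with h | h
  · calc c' ^ 2 ≤ E * (G1 + G2) * G1 := g4
      _ ≤ E * (G2 + G2) * G1 := by gcongr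
      _ = 2 * E * (G1 * G2) := by ring
  · calc c' ^ 2 ≤ E * (G1 + G2) * G2 := g5
      _ ≤ E * (G1 + G1) * G2 := by gcongr
      _ = 2 * E * (G1 * G2) := by ring

section cols

variable {κ : Type*} [Fintype κ] [DecidableEq κ]

omit [DecidableEq ι] [Fintype κ] [DecidableEq κ] in
theorem entry_gram (R : Matrix ι κ ℂ) (i j : κ) :
    (Rᴴ * R) i j = star (fun a => R a i) ⬝ᵥ (fun a => R a j) := by
  rw [Matrix.mul_apply, dotProduct]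
  rfl

omit [DecidableEq ι] [Fintype κ] [DecidableEq κ] in
theorem entry_form (A : Matrix ι ι ℂ) (R : Matrix ι κ ℂ) (i j : κ) :
    (Rᴴ * A * R) i j = star (fun a => R a i) ⬝ᵥ (A *ᵥ (fun a => R a j)) := by
  rw [Matrix.mul_assoc, Matrix.mul_apply, dotProduct]
  rfl

omit [Fintype κ] [DecidableEq κ] in
/-- At a contact direction the columns of the Kraus operators are killed by the support
functional. -/
theorem cols_kernel (A : Matrix ι ι ℂ) {N : ℕ} (R : Fin N → Matrix ι κ ℂ) (G Φ : Matrix κ κ ℂ)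
    (hG : ∑ p, (R p)ᴴ * R p = G) (hΦ : ∑ p, (R p)ᴴ * A * R p = Φ) (i : κ) (t : ℝ) (u : ℂ)
    (hadm : Adm A t u) (h0 : t * (G i i).re - (u * Φ i i).re = 0) (p : Fin N) :
    sm A t u *ᵥ (fun a => R p a i) = 0 := by
  apply hadm.kernel
  have h1 : ∑ q, (star (fun a => R q a i) ⬝ᵥ (sm A t u *ᵥ (fun a => R q a i))).re = 0 := by
    rw [← h0, ← hG, ← hΦ, Matrix.sum_apply, Matrix.sum_apply, Complex.re_sum, Finset.mul_sum,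
      Finset.mul_sum, Complex.re_sum, ← Finset.sum_sub_distrib]
    apply Finset.sum_congr rfl
    intro q _
    rw [sm_quad_re, entry_gram, entry_form]
  exact (Finset.sum_eq_zero_iff_of_nonneg (fun q _ => hadm.nonneg _)).mp h1 p (Finset.mem_univ p)

end cols

/-- Two independent simple top vectors are connected. -/
theorem connected {A : Matrix ι ι ℂ}
    (hA : ∀ T : Matrix (Fin 2) (Fin 2) ℂ, MW T ⊆ MW A → FinDil A T)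
    {u₁ u₂ : ℂ} {t₁ t₂ : ℝ} {x₁ x₂ : ι → ℂ}
    (h₁ : Good A u₁ t₁ x₁) (h₂ : Good A u₂ t₂ x₂) (hu₁ : ‖u₁‖ = 1) (hu₂ : ‖u₂‖ = 1)
    (hne : ¬ ∃ c : ℂ, x₂ = c • x₁) (hG : star x₁ ⬝ᵥ x₂ = 0) (hΦ : star x₁ ⬝ᵥ (A *ᵥ x₂) = 0) :
    False := by
  obtain ⟨c, hc0, hc₁, hc₂⟩ := exists_two_functional (t₁, u₁) (t₂, u₂)
  obtain ⟨B, hB, hkey⟩ := key_bound h₁ h₂ hu₁ hu₂ hne c hc₁ hc₂
  obtain ⟨c0, hc0d⟩ : ∃ c0 : ℝ, c0 = c (1, 0) := ⟨_, rfl⟩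
  obtain ⟨κ, hκd⟩ : ∃ κ : ℂ, κ = -((c (0, 1) : ℝ) : ℂ) + Complex.I * ((c (0, Complex.I) : ℝ) : ℂ) :=
    ⟨_, rfl⟩
  have hcform : ∀ (t : ℝ) (w : ℂ), c (t, w) = t * c0 - (w * κ).re := by
    intro t w
    have e1 : ((t, w) : ℝ × ℂ) = t • ((1, 0) : ℝ × ℂ) + w.re • ((0, 1) : ℝ × ℂ)
        + w.im • ((0, Complex.I) : ℝ × ℂ) := by
      apply Prod.ext
      · simp
      · simp [Complex.re_add_im]
    rw [e1, map_add, map_add, map_smul, map_smul, map_smul, ← hc0d, hκd]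
    simp [Complex.mul_re, Complex.mul_im]
    ring
  obtain ⟨g, hg⟩ : ∃ g : ℝ, 0 < g ∧ g ^ 2 * B ≤ 1 / 4 := by
    refine ⟨(2 * Real.sqrt B)⁻¹, by positivity, ?_⟩
    rw [inv_pow, mul_pow, Real.sq_sqrt hB.le]
    rw [inv_mul_le_iff₀ (by positivity)]
    norm_num
    linarith
  have hg2 : ∀ (t : ℝ) (w : ℂ), Adm A t w → (g * c (t, w)) ^ 2 ≤
      1 / 4 * ((star x₁ ⬝ᵥ (sm A t w *ᵥ x₁)).re * (star x₂ ⬝ᵥ (sm A t w *ᵥ x₂)).re) := by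
    intro t w h
    have h3 := hkey t w h
    have h4 : 0 ≤ (star x₁ ⬝ᵥ (sm A t w *ᵥ x₁)).re * (star x₂ ⬝ᵥ (sm A t w *ᵥ x₂)).re :=
      mul_nonneg (h.nonneg _) (h.nonneg _)
    calc (g * c (t, w)) ^ 2 = g ^ 2 * (c (t, w)) ^ 2 := by ring
      _ ≤ g ^ 2 * (B * ((star x₁ ⬝ᵥ (sm A t w *ᵥ x₁)).re * (star x₂ ⬝ᵥ (sm A t w *ᵥ x₂)).re)) := by
          gcongr
      _ = (g ^ 2 * B) * ((star x₁ ⬝ᵥ (sm A t w *ᵥ x₁)).re * (star x₂ ⬝ᵥ (sm A t w *ᵥ x₂)).re) := by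
          ring
      _ ≤ _ := by gcongr; exact hg.2
  obtain ⟨a₁, ha₁⟩ : ∃ a, a = star x₁ ⬝ᵥ (A *ᵥ x₁) := ⟨_, rfl⟩
  obtain ⟨a₂, ha₂⟩ : ∃ a, a = star x₂ ⬝ᵥ (A *ᵥ x₂) := ⟨_, rfl⟩
  have hform1 : ∀ y : Fin 2 → ℂ, star y ⬝ᵥ ((!![1, ((g * c0 : ℝ) : ℂ); ((g * c0 : ℝ) : ℂ), 1] :
      Matrix (Fin 2) (Fin 2) ℂ) *ᵥ y) =
      ((‖y 0‖ ^ 2 + ‖y 1‖ ^ 2 + 2 * (g * c0) * (starRingEnd ℂ (y 0) * y 1).re : ℝ) : ℂ) := by
    intro y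
    have e1 : starRingEnd ℂ (y 0) * y 0 = ((‖y 0‖ ^ 2 : ℝ) : ℂ) := by
      rw [Complex.conj_mul']; norm_num
    have e2 : starRingEnd ℂ (y 1) * y 1 = ((‖y 1‖ ^ 2 : ℝ) : ℂ) := by
      rw [Complex.conj_mul']; norm_num
    have e3 : starRingEnd ℂ (y 0) * y 1 + starRingEnd ℂ (y 1) * y 0
        = ((2 * (starRingEnd ℂ (y 0) * y 1).re : ℝ) : ℂ) := by
      rw [← Complex.add_conj, map_mul, Complex.conj_conj]
      ring
    have e4 : star y ⬝ᵥ ((!![1, ((g * c0 : ℝ) : ℂ); ((g * c0 : ℝ) : ℂ), 1] :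
        Matrix (Fin 2) (Fin 2) ℂ) *ᵥ y) = starRingEnd ℂ (y 0) * y 0 + starRingEnd ℂ (y 1) * y 1
        + ((g * c0 : ℝ) : ℂ) * (starRingEnd ℂ (y 0) * y 1 + starRingEnd ℂ (y 1) * y 0) := by
      simp [dotProduct, Matrix.mulVec, Fin.sum_univ_two]
      ring
    rw [e4, e1, e2, e3]
    push_cast
    ring
  have hform2 : ∀ y : Fin 2 → ℂ, star y ⬝ᵥ ((!![a₁, (g : ℂ) * κ; (g : ℂ) * κ, a₂] :
      Matrix (Fin 2) (Fin 2) ℂ) *ᵥ y) =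
      ((‖y 0‖ ^ 2 : ℝ) : ℂ) * a₁ + ((‖y 1‖ ^ 2 : ℝ) : ℂ) * a₂
        + ((2 * g * (starRingEnd ℂ (y 0) * y 1).re : ℝ) : ℂ) * κ := by
    intro y
    have e1 : starRingEnd ℂ (y 0) * y 0 = ((‖y 0‖ ^ 2 : ℝ) : ℂ) := by
      rw [Complex.conj_mul']; norm_num
    have e2 : starRingEnd ℂ (y 1) * y 1 = ((‖y 1‖ ^ 2 : ℝ) : ℂ) := by
      rw [Complex.conj_mul']; norm_num
    have e3 : starRingEnd ℂ (y 0) * y 1 + starRingEnd ℂ (y 1) * y 0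
        = ((2 * (starRingEnd ℂ (y 0) * y 1).re : ℝ) : ℂ) := by
      rw [← Complex.add_conj, map_mul, Complex.conj_conj]
      ring
    have e4 : star y ⬝ᵥ ((!![a₁, (g : ℂ) * κ; (g : ℂ) * κ, a₂] :
        Matrix (Fin 2) (Fin 2) ℂ) *ᵥ y) = starRingEnd ℂ (y 0) * y 0 * a₁
        + starRingEnd ℂ (y 1) * y 1 * a₂
        + (g : ℂ) * κ * (starRingEnd ℂ (y 0) * y 1 + starRingEnd ℂ (y 1) * y 0) := by
      simp [dotProduct, Matrix.mulVec, Fin.sum_univ_two]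
      ring
    rw [e4, e1, e2, e3]
    push_cast
    ring
  have hrho : ∀ y : Fin 2 → ℂ, ((starRingEnd ℂ (y 0) * y 1).re) ^ 2 ≤ ‖y 0‖ ^ 2 * ‖y 1‖ ^ 2 := by
    intro y
    have h := Complex.abs_re_le_norm (starRingEnd ℂ (y 0) * y 1)
    rw [norm_mul, Complex.norm_conj] at h
    calc ((starRingEnd ℂ (y 0) * y 1).re) ^ 2 = |(starRingEnd ℂ (y 0) * y 1).re| ^ 2 := (sq_abs _).symm
      _ ≤ (‖y 0‖ * ‖y 1‖) ^ 2 := by gcongr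
      _ = _ := by ring
  have hgc0 : (g * c0) ^ 2 ≤ 1 / 4 := by
    have h := hg2 1 0 (by intro z _; simp)
    rw [← hc0d, sm_quad_re, sm_quad_re, h₁.unit, h₂.unit] at h
    simpa using h
  have hPD : (!![1, ((g * c0 : ℝ) : ℂ); ((g * c0 : ℝ) : ℂ), 1] :
      Matrix (Fin 2) (Fin 2) ℂ).PosDef := by
    apply Matrix.PosDef.of_dotProduct_mulVec_pos
    · ext i j
      fin_cases i <;> fin_cases j <;> simp
    · intro y hy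
      rw [hform1 y]
      have h1 := hrho y
      have h2 : 0 < ‖y 0‖ ^ 2 + ‖y 1‖ ^ 2 := by
        by_contra hcon
        apply hy
        have h3 : ‖y 0‖ ^ 2 = 0 := by nlinarith [sq_nonneg ‖y 0‖, sq_nonneg ‖y 1‖]
        have h4 : ‖y 1‖ ^ 2 = 0 := by nlinarith [sq_nonneg ‖y 0‖, sq_nonneg ‖y 1‖]
        funext i
        fin_cases i
        · simpa using h3
        · simpa using h4
      have h5 : |2 * (g * c0) * (starRingEnd ℂ (y 0) * y 1).re| < ‖y 0‖ ^ 2 + ‖y 1‖ ^ 2 := by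
        apply abs_lt_of_sq_lt_sq _ h2.le
        calc (2 * (g * c0) * (starRingEnd ℂ (y 0) * y 1).re) ^ 2
            = 4 * ((g * c0) ^ 2 * ((starRingEnd ℂ (y 0) * y 1).re) ^ 2) := by ring
          _ ≤ 4 * (1 / 4 * (‖y 0‖ ^ 2 * ‖y 1‖ ^ 2)) := by gcongr
          _ < (‖y 0‖ ^ 2 + ‖y 1‖ ^ 2) ^ 2 := by nlinarith [sq_nonneg (‖y 0‖ ^ 2 - ‖y 1‖ ^ 2), mul_pos h2 h2]
      have h6 := neg_lt_of_abs_lt h5
      have h7 : (0 : ℝ) < ‖y 0‖ ^ 2 + ‖y 1‖ ^ 2 + 2 * (g * c0) * (starRingEnd ℂ (y 0) * y 1).re := by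
        linarith
      exact_mod_cast h7
  obtain ⟨N, R, hR1, hR2⟩ := gram_dil A hA _ (!![a₁, (g : ℂ) * κ; (g : ℂ) * κ, a₂]) hPD (by
    intro t w hadm y
    rw [hform1, hform2, Complex.ofReal_re]
    have h1 := hrho y
    have h2 := hg2 t w hadm
    obtain ⟨G1, hG1⟩ : ∃ G1, G1 = (star x₁ ⬝ᵥ (sm A t w *ᵥ x₁)).re := ⟨_, rfl⟩
    obtain ⟨G2, hG2⟩ : ∃ G2, G2 = (star x₂ ⬝ᵥ (sm A t w *ᵥ x₂)).re := ⟨_, rfl⟩
    have hG1n : 0 ≤ G1 := by rw [hG1]; exact hadm.nonneg x₁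
    have hG2n : 0 ≤ G2 := by rw [hG2]; exact hadm.nonneg x₂
    rw [← hG1, ← hG2] at h2
    rw [sm_quad_re, h₁.unit, ← ha₁, Complex.one_re, mul_one] at hG1
    rw [sm_quad_re, h₂.unit, ← ha₂, Complex.one_re, mul_one] at hG2
    have h3 : (w * (((‖y 0‖ ^ 2 : ℝ) : ℂ) * a₁ + ((‖y 1‖ ^ 2 : ℝ) : ℂ) * a₂
        + ((2 * g * (starRingEnd ℂ (y 0) * y 1).re : ℝ) : ℂ) * κ)).re
        = ‖y 0‖ ^ 2 * (w * a₁).re + ‖y 1‖ ^ 2 * (w * a₂).re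
          + 2 * g * (starRingEnd ℂ (y 0) * y 1).re * (w * κ).re := by
      have : w * (((‖y 0‖ ^ 2 : ℝ) : ℂ) * a₁ + ((‖y 1‖ ^ 2 : ℝ) : ℂ) * a₂
        + ((2 * g * (starRingEnd ℂ (y 0) * y 1).re : ℝ) : ℂ) * κ)
        = ((‖y 0‖ ^ 2 : ℝ) : ℂ) * (w * a₁) + ((‖y 1‖ ^ 2 : ℝ) : ℂ) * (w * a₂)
          + ((2 * g * (starRingEnd ℂ (y 0) * y 1).re : ℝ) : ℂ) * (w * κ) := by ring
      rw [this, Complex.add_re, Complex.add_re, Complex.re_ofReal_mul, Complex.re_ofReal_mul,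
        Complex.re_ofReal_mul]
    rw [h3]
    obtain ⟨ρ, hρ⟩ : ∃ ρ, ρ = (starRingEnd ℂ (y 0) * y 1).re := ⟨_, rfl⟩
    rw [← hρ] at h1 ⊢
    have h4 : t * (‖y 0‖ ^ 2 + ‖y 1‖ ^ 2 + 2 * (g * c0) * ρ) - (‖y 0‖ ^ 2 * (w * a₁).re
        + ‖y 1‖ ^ 2 * (w * a₂).re + 2 * g * ρ * (w * κ).re)
        = ‖y 0‖ ^ 2 * G1 + ‖y 1‖ ^ 2 * G2 + 2 * ρ * (g * c (t, w)) := by
      rw [hcform, hG1, hG2]
      ring
    rw [h4]
    have h5 : |2 * ρ * (g * c (t, w))| ≤ ‖y 0‖ ^ 2 * G1 + ‖y 1‖ ^ 2 * G2 := by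
      apply abs_le_of_sq_le_sq _ (by positivity)
      calc (2 * ρ * (g * c (t, w))) ^ 2 = 4 * (ρ ^ 2 * (g * c (t, w)) ^ 2) := by ring
        _ ≤ 4 * ((‖y 0‖ ^ 2 * ‖y 1‖ ^ 2) * (1 / 4 * (G1 * G2))) := by gcongr
        _ = (‖y 0‖ ^ 2 * G1) * (‖y 1‖ ^ 2 * G2) := by ring
        _ ≤ (‖y 0‖ ^ 2 * G1 + ‖y 1‖ ^ 2 * G2) ^ 2 := by
            have p1 : 0 ≤ ‖y 0‖ ^ 2 * G1 := by positivity
            have p2 : 0 ≤ ‖y 1‖ ^ 2 * G2 := by positivity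
            nlinarith [mul_nonneg p1 p2]
    have h6 := neg_le_of_abs_le h5
    linarith)
  have hcol0 : ∀ p, ∃ α : ℂ, (fun a => R p a 0) = α • x₁ := by
    intro p
    apply h₁.kernel
    apply cols_kernel A R _ _ hR1 hR2 0 t₁ u₁ h₁.adm
    simp only [Matrix.of_apply, Matrix.cons_val', Matrix.cons_val_zero, Matrix.cons_val_fin_one,
      Complex.one_re, mul_one]
    rw [ha₁, h₁.eq, sub_self]
  have hcol1 : ∀ p, ∃ β : ℂ, (fun a => R p a 1) = β • x₂ := by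
    intro p
    apply h₂.kernel
    apply cols_kernel A R _ _ hR1 hR2 1 t₂ u₂ h₂.adm
    change t₂ * (1 : ℂ).re - (u₂ * a₂).re = 0
    rw [ha₂, h₂.eq, Complex.one_re, mul_one, sub_self]
  choose α hα using hcol0
  choose β hβ using hcol1
  have hc0' : ((g * c0 : ℝ) : ℂ) = 0 := by
    have e := congrFun (congrFun hR1 0) 1
    rw [Matrix.sum_apply] at e
    have e' : ∀ p, ((R p)ᴴ * R p) 0 1 = 0 := by
      intro p
      rw [entry_gram, hα, hβ, star_smul, smul_dotProduct, dotProduct_smul, hG, smul_zero, smul_zero]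
    rw [Finset.sum_congr rfl (fun p _ => e' p), Finset.sum_const_zero] at e
    simpa using e.symm
  have hκ' : (g : ℂ) * κ = 0 := by
    have e := congrFun (congrFun hR2 0) 1
    rw [Matrix.sum_apply] at e
    have e' : ∀ p, ((R p)ᴴ * A * R p) 0 1 = 0 := by
      intro p
      rw [entry_form, hα, hβ, star_smul, smul_dotProduct, Matrix.mulVec_smul, dotProduct_smul, hΦ,
        smul_zero, smul_zero]
    rw [Finset.sum_congr rfl (fun p _ => e' p), Finset.sum_const_zero] at e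
    simpa using e.symm
  have hg0 : (g : ℂ) ≠ 0 := by exact_mod_cast hg.1.ne'
  have hc00 : c0 = 0 := by
    have : g * c0 = 0 := by exact_mod_cast hc0'
    rcases mul_eq_zero.mp this with h | h
    · exact absurd h hg.1.ne'
    · exact h
  have hκ0 : κ = 0 := by
    rcases mul_eq_zero.mp hκ' with h | h
    · exact absurd h hg0
    · exact h
  apply hc0
  apply LinearMap.ext
  rintro ⟨t, w⟩
  rw [hcform, hc00, hκ0]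
  simp

end Pool.Agent.Helper84.NR
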