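import Pool.Agent.Helper84.NR.Conn

set_option autoImplicit false

/-!
# The positive map `v ↦ K diag - compression`
-/

open Matrix
open scoped ComplexOrder

namespace Pool.Agent.Helper84.NR

open Pool.Agent.Helper774

variable {ι : Type*} [Fintype ι] [DecidableEq ι] {κ : Type*} [Fintype κ] [DecidableEq κ]

/-- the matrix with columns `x i` -/
def colMat (x : κ → ι → ℂ) : Matrix ι κ ℂ := Matrix.of fun a i => x i a

omit [DecidableEq ι] [Fintype ι] [DecidableEq κ] in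
theorem colMat_mulVec (x : κ → ι → ℂ) (y : κ → ℂ) : colMat x *ᵥ y = ∑ i, y i • x i := by
  funext a
  simp [colMat, Matrix.mulVec, dotProduct, Finset.sum_apply, mul_comm]

omit [DecidableEq ι] [DecidableEq κ] in
theorem quad_compress (X : Matrix ι κ ℂ) (M : Matrix ι ι ℂ) (y : κ → ℂ) :
    star y ⬝ᵥ ((Xᴴ * M * X) *ᵥ y) = star (X *ᵥ y) ⬝ᵥ (M *ᵥ (X *ᵥ y)) := by
  rw [Matrix.star_mulVec, ← Matrix.dotProduct_mulVec, Matrix.mulVec_mulVec, Matrix.mulVec_mulVec,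
    Matrix.mul_assoc]

omit [DecidableEq ι] [DecidableEq κ] in
theorem quad_gram (X : Matrix ι κ ℂ) (y : κ → ℂ) :
    star y ⬝ᵥ ((Xᴴ * X) *ᵥ y) = star (X *ᵥ y) ⬝ᵥ (X *ᵥ y) := by
  rw [Matrix.star_mulVec, ← Matrix.dotProduct_mulVec, Matrix.mulVec_mulVec]

theorem quad_diag (a : κ → ℂ) (y : κ → ℂ) :
    star y ⬝ᵥ (Matrix.diagonal a *ᵥ y) = ∑ i, ((‖y i‖ ^ 2 : ℝ) : ℂ) * a i := by
  rw [dotProduct]
  apply Finset.sum_congr rfl
  intro i _
  rw [Matrix.mulVec_diagonal, Pi.star_apply, Complex.star_def]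
  have : starRingEnd ℂ (y i) * y i = ((‖y i‖ ^ 2 : ℝ) : ℂ) := by
    rw [Complex.conj_mul']; norm_num
  rw [← this]
  ring

theorem delta_main {A : Matrix ι ι ℂ}
    (hA2 : ∀ T : Matrix (Fin 2) (Fin 2) ℂ, MW T ⊆ MW A → FinDil A T)
    (hAκ : ∀ T : Matrix κ κ ℂ, MW T ⊆ MW A → FinDil A T)
    (u : κ → ℂ) (t : κ → ℝ) (x : κ → ι → ℂ) (hu : ∀ i, ‖u i‖ = 1)
    (hgood : ∀ i, Good A (u i) (t i) (x i))
    (hind : ∀ i j, i ≠ j → ¬ ∃ c : ℂ, x j = c • x i)
    (hk : 1 ≤ Fintype.card κ) (δ : ℝ) (hδ : 0 < δ) :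
    ∃ (s : ℝ) (w : ℂ), Adm A s w ∧ ∃ v : κ → ℂ,
      (Fintype.card κ : ℝ) * (1 - δ) *
        ∑ i, ‖v i‖ ^ 2 * (star (x i) ⬝ᵥ (sm A s w *ᵥ x i)).re <
      (star (∑ i, v i • x i) ⬝ᵥ (sm A s w *ᵥ (∑ i, v i • x i))).re := by
  by_contra hcon
  push Not at hcon
  obtain ⟨k, hkd⟩ : ∃ k : ℝ, k = (Fintype.card κ : ℝ) := ⟨_, rfl⟩
  have hk1 : 1 ≤ k := by rw [hkd]; exact_mod_cast hk
  obtain ⟨K, hKd⟩ : ∃ K : ℝ, K = k * (1 - δ / 2) := ⟨_, rfl⟩
  have hX := colMat_mulVec x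
  obtain ⟨X, hXd⟩ : ∃ X, X = colMat x := ⟨_, rfl⟩
  rw [← hXd] at hX
  obtain ⟨a, had⟩ : ∃ a : κ → ℂ, a = fun i => star (x i) ⬝ᵥ (A *ᵥ x i) := ⟨_, rfl⟩
  have hq1 : ∀ y : κ → ℂ, (star y ⬝ᵥ (((K : ℂ) • (1 : Matrix κ κ ℂ) - Xᴴ * X) *ᵥ y)).re
      = K * ∑ i, ‖y i‖ ^ 2 - (star (X *ᵥ y) ⬝ᵥ (X *ᵥ y)).re := by
    intro y
    rw [Matrix.sub_mulVec, dotProduct_sub, Matrix.smul_mulVec, Matrix.one_mulVec, dotProduct_smul,
      smul_eq_mul, quad_gram, Complex.sub_re, Complex.re_ofReal_mul, dot_self_eq, Complex.ofReal_re]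
  have hq2 : ∀ (w : ℂ) (y : κ → ℂ), (w * (star y ⬝ᵥ (((K : ℂ) • Matrix.diagonal a
      - Xᴴ * A * X) *ᵥ y))).re
      = K * ∑ i, ‖y i‖ ^ 2 * (w * a i).re - (w * (star (X *ᵥ y) ⬝ᵥ (A *ᵥ (X *ᵥ y)))).re := by
    intro w y
    rw [Matrix.sub_mulVec, dotProduct_sub, Matrix.smul_mulVec, dotProduct_smul,
      smul_eq_mul, quad_compress, mul_sub, Complex.sub_re, quad_diag]
    congr 1
    have : w * ((K : ℂ) * ∑ i, ((‖y i‖ ^ 2 : ℝ) : ℂ) * a i)
        = (K : ℂ) * ∑ i, ((‖y i‖ ^ 2 : ℝ) : ℂ) * (w * a i) := by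
      rw [Finset.mul_sum, Finset.mul_sum, Finset.mul_sum]
      apply Finset.sum_congr rfl
      intro i _
      ring
    rw [this, Complex.re_ofReal_mul, Complex.re_sum]
    congr 1
    apply Finset.sum_congr rfl
    intro i _
    rw [Complex.re_ofReal_mul]
  have hmain : ∀ (s : ℝ) (w : ℂ), Adm A s w → ∀ y : κ → ℂ,
      k * δ / 2 * ∑ i, ‖y i‖ ^ 2 * (star (x i) ⬝ᵥ (sm A s w *ᵥ x i)).re ≤
      s * (star y ⬝ᵥ (((K : ℂ) • (1 : Matrix κ κ ℂ) - Xᴴ * X) *ᵥ y)).re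
        - (w * (star y ⬝ᵥ (((K : ℂ) • Matrix.diagonal a - Xᴴ * A * X) *ᵥ y))).re := by
    intro s w hadm y
    have h1 := hcon s w hadm y
    rw [← hX, sm_quad_re, ← hkd] at h1
    rw [hq1, hq2]
    have h2 : ∀ i, (star (x i) ⬝ᵥ (sm A s w *ᵥ x i)).re = s - (w * a i).re := by
      intro i
      rw [sm_quad_re, (hgood i).unit, Complex.one_re, mul_one, had]
    have h3 : ∑ i, ‖y i‖ ^ 2 * (star (x i) ⬝ᵥ (sm A s w *ᵥ x i)).re
        = s * ∑ i, ‖y i‖ ^ 2 - ∑ i, ‖y i‖ ^ 2 * (w * a i).re := by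
      rw [Finset.mul_sum, ← Finset.sum_sub_distrib]
      apply Finset.sum_congr rfl
      intro i _
      rw [h2]
      ring
    rw [h3] at h1 ⊢
    rw [hKd]
    linarith
  have hterm : ∀ (s : ℝ) (w : ℂ), Adm A s w → ∀ y : κ → ℂ,
      0 ≤ ∑ i, ‖y i‖ ^ 2 * (star (x i) ⬝ᵥ (sm A s w *ᵥ x i)).re := by
    intro s w hadm y
    exact Finset.sum_nonneg fun i _ => mul_nonneg (by positivity) (hadm.nonneg _)
  have hkδ : 0 < k * δ / 2 := by positivity
  have hPD : ((K : ℂ) • (1 : Matrix κ κ ℂ) - Xᴴ * X).PosDef := by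
    have hherm : ((K : ℂ) • (1 : Matrix κ κ ℂ) - Xᴴ * X).IsHermitian := by
      apply Matrix.IsHermitian.sub
      · unfold Matrix.IsHermitian
        rw [conjTranspose_smul, conjTranspose_one, Complex.star_def, Complex.conj_ofReal]
      · exact Matrix.isHermitian_conjTranspose_mul_self X
    apply Matrix.PosDef.of_dotProduct_mulVec_pos hherm
    intro y hy
    have h1 := hmain 1 0 (by intro z _; simp) y
    have h2 : ∀ i, (star (x i) ⬝ᵥ (sm A 1 0 *ᵥ x i)).re = 1 := by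
      intro i
      rw [sm_quad_re, (hgood i).unit]
      simp
    simp only [h2, mul_one, one_mul, zero_mul, Complex.zero_re, sub_zero] at h1
    have h3 : 0 < ∑ i, ‖y i‖ ^ 2 := by
      obtain ⟨i, hi⟩ : ∃ i, y i ≠ 0 := by
        by_contra hc
        push Not at hc
        exact hy (funext hc)
      apply Finset.sum_pos' (fun i _ => by positivity)
      exact ⟨i, Finset.mem_univ i, by
        have := norm_pos_iff.mpr hi
        positivity⟩
    have h4 : 0 < (star y ⬝ᵥ (((K : ℂ) • (1 : Matrix κ κ ℂ) - Xᴴ * X) *ᵥ y)).re :=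
      lt_of_lt_of_le (by positivity) h1
    have h5 : (star y ⬝ᵥ (((K : ℂ) • (1 : Matrix κ κ ℂ) - Xᴴ * X) *ᵥ y)).im = 0 :=
      hherm.im_star_dotProduct_mulVec_self y
    rw [Complex.lt_def]
    exact ⟨h4, h5.symm⟩
  obtain ⟨N, R, hR1, hR2⟩ := gram_dil A hAκ _ ((K : ℂ) • Matrix.diagonal a - Xᴴ * A * X) hPD (by
    intro s w hadm y
    exact (mul_nonneg hkδ.le (hterm s w hadm y)).trans (hmain s w hadm y))
  have hcolX : ∀ i, (fun b => X b i) = x i := by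
    intro i
    rw [hXd]
    rfl
  have hcol : ∀ p i, ∃ α : ℂ, (fun b => R p b i) = α • x i := by
    intro p i
    apply (hgood i).kernel
    apply cols_kernel A R _ _ hR1 hR2 i (t i) (u i) (hgood i).adm
    have e1 : (((K : ℂ) • (1 : Matrix κ κ ℂ) - Xᴴ * X) i i).re = K - 1 := by
      rw [Matrix.sub_apply, entry_gram, hcolX, (hgood i).unit, Matrix.smul_apply,
        Matrix.one_apply_eq, smul_eq_mul, mul_one, Complex.sub_re, Complex.ofReal_re,
        Complex.one_re]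
    have e2 : (u i * ((K : ℂ) • Matrix.diagonal a - Xᴴ * A * X) i i).re = (K - 1) * t i := by
      rw [Matrix.sub_apply, entry_form, hcolX, Matrix.smul_apply,
        Matrix.diagonal_apply_eq, smul_eq_mul]
      have h4 := (hgood i).eq
      have : u i * ((K : ℂ) * a i - star (x i) ⬝ᵥ A *ᵥ x i)
          = ((K - 1 : ℝ) : ℂ) * (u i * (star (x i) ⬝ᵥ A *ᵥ x i)) := by
        rw [had]
        push_cast
        ring
      rw [this, Complex.re_ofReal_mul, h4]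
    rw [e1, e2]
    ring
  choose α hα using hcol
  obtain ⟨C, hCd⟩ : ∃ C : κ → κ → ℂ, C = fun i j => ∑ p, starRingEnd ℂ (α p i) * α p j := ⟨_, rfl⟩
  have hC1 : ∀ i j, ((K : ℂ) • (1 : Matrix κ κ ℂ) - Xᴴ * X) i j = C i j * (star (x i) ⬝ᵥ x j) := by
    intro i j
    rw [← hR1, Matrix.sum_apply, hCd, Finset.sum_mul]
    apply Finset.sum_congr rfl
    intro p _
    rw [entry_gram, hα, hα, star_smul, smul_dotProduct, dotProduct_smul, smul_eq_mul, smul_eq_mul,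
      Complex.star_def]
    ring
  have hC2 : ∀ i j, ((K : ℂ) • Matrix.diagonal a - Xᴴ * A * X) i j
      = C i j * (star (x i) ⬝ᵥ (A *ᵥ x j)) := by
    intro i j
    rw [← hR2, Matrix.sum_apply, hCd, Finset.sum_mul]
    apply Finset.sum_congr rfl
    intro p _
    rw [entry_form, hα, hα, star_smul, smul_dotProduct, Matrix.mulVec_smul, dotProduct_smul,
      smul_eq_mul, smul_eq_mul, Complex.star_def]
    ring
  have hCii : ∀ i, C i i = (K : ℂ) - 1 := by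
    intro i
    have h := hC1 i i
    rw [Matrix.sub_apply, entry_gram, hcolX, (hgood i).unit, Matrix.smul_apply,
      Matrix.one_apply_eq, smul_eq_mul, mul_one, mul_one] at h
    exact h.symm
  have hCij : ∀ i j, i ≠ j → C i j = -1 := by
    intro i j hij
    have h1 := hC1 i j
    have h2 := hC2 i j
    rw [Matrix.sub_apply, entry_gram, hcolX, hcolX, Matrix.smul_apply,
      Matrix.one_apply_ne hij, smul_zero, zero_sub] at h1
    rw [Matrix.sub_apply, entry_form, hcolX, hcolX, Matrix.smul_apply,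
      Matrix.diagonal_apply_ne _ hij, smul_zero, zero_sub] at h2
    by_contra hne
    have hne' : C i j + 1 ≠ 0 := by
      intro h
      exact hne (by linear_combination h)
    apply connected hA2 (hgood i) (hgood j) (hu i) (hu j) (hind i j hij)
    · have : (C i j + 1) * (star (x i) ⬝ᵥ x j) = 0 := by linear_combination -h1
      exact (mul_eq_zero.mp this).resolve_left hne'
    · have : (C i j + 1) * (star (x i) ⬝ᵥ (A *ᵥ x j)) = 0 := by linear_combination -h2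
      exact (mul_eq_zero.mp this).resolve_left hne'
  have hsum : ∑ i, ∑ j, C i j = ((k * (K - k) : ℝ) : ℂ) := by
    have h1 : ∀ i, ∑ j, C i j = ((K - k : ℝ) : ℂ) := by
      intro i
      rw [← Finset.add_sum_erase _ _ (Finset.mem_univ i), hCii]
      rw [Finset.sum_congr rfl (fun j hj => hCij i j (Finset.ne_of_mem_erase hj).symm)]
      rw [Finset.sum_const, Finset.card_erase_of_mem (Finset.mem_univ i), Finset.card_univ,
        nsmul_eq_mul, Nat.cast_sub hk, hkd]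
      push_cast
      ring
    rw [Finset.sum_congr rfl (fun i _ => h1 i), Finset.sum_const, Finset.card_univ, nsmul_eq_mul,
      hkd]
    push_cast
    ring
  have hsq : ∑ i, ∑ j, C i j = ((∑ p, ‖∑ i, α p i‖ ^ 2 : ℝ) : ℂ) := by
    have h1 : ∀ p, ((‖∑ i, α p i‖ ^ 2 : ℝ) : ℂ) = ∑ i, ∑ j, starRingEnd ℂ (α p i) * α p j := by
      intro p
      have : starRingEnd ℂ (∑ i, α p i) * (∑ i, α p i) = ((‖∑ i, α p i‖ ^ 2 : ℝ) : ℂ) := by
        rw [Complex.conj_mul']; norm_num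
      rw [← this, map_sum, Finset.sum_mul_sum]
    rw [Complex.ofReal_sum, Finset.sum_congr rfl (fun p _ => h1 p)]
    calc ∑ i, ∑ j, C i j = ∑ i, ∑ j, ∑ p, starRingEnd ℂ (α p i) * α p j := by rw [hCd]
      _ = ∑ i, ∑ p, ∑ j, starRingEnd ℂ (α p i) * α p j :=
          Finset.sum_congr rfl fun i _ => Finset.sum_comm
      _ = ∑ p, ∑ i, ∑ j, starRingEnd ℂ (α p i) * α p j := Finset.sum_comm
  rw [hsum] at hsq
  have hfin : k * (K - k) = ∑ p, ‖∑ i, α p i‖ ^ 2 := by exact_mod_cast hsq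
  have h0 : 0 ≤ ∑ p, ‖∑ i, α p i‖ ^ 2 := Finset.sum_nonneg fun _ _ => by positivity
  rw [← hfin, hKd] at h0
  have h9 : k * (k * (1 - δ / 2) - k) = -(k * (k * δ / 2)) := by ring
  rw [h9] at h0
  have h10 : 0 < k * (k * δ / 2) := by positivity
  linarith

end Pool.Agent.Helper84.NR
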