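import Pool.Agent.Helper84.NR.Open

set_option autoImplicit false

/-!
# Irreducible matrices of size at most four have a simple direction
-/

open Matrix
open scoped ComplexOrder

namespace Pool.Agent.Helper84.NR

open Pool.Agent.Helper774

variable {ι : Type*} [Fintype ι] [DecidableEq ι]

theorem joint_of_two {A : Matrix ι ι ℂ} {u w : ℂ} {t t' : ℝ} {x : ι → ℂ}
    (h1 : sm A t u *ᵥ x = 0) (h2 : sm A t' w *ᵥ x = 0)
    (hD0 : w * starRingEnd ℂ u - starRingEnd ℂ w * u ≠ 0) :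
    ∃ a a' : ℂ, A *ᵥ x = a • x ∧ Aᴴ *ᵥ x = a' • x := by
  have e1 := Hu_of_sm h1
  have e2 := Hu_of_sm h2
  obtain ⟨D, hD⟩ : ∃ D : ℂ, D = w * starRingEnd ℂ u - starRingEnd ℂ w * u := ⟨_, rfl⟩
  rw [← hD] at hD0
  have hA : A = (2 / D) • (starRingEnd ℂ u • Hu A w - starRingEnd ℂ w • Hu A u) := by
    ext i j
    simp only [Hu, Matrix.sub_apply, Matrix.smul_apply, Matrix.add_apply,
      Matrix.conjTranspose_apply, smul_eq_mul, Complex.star_def, map_mul]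
    field_simp
    rw [hD]
    ring
  have hAH : Aᴴ = (2 / D) • (w • Hu A u - u • Hu A w) := by
    ext i j
    simp only [Hu, Matrix.sub_apply, Matrix.smul_apply, Matrix.add_apply,
      Matrix.conjTranspose_apply, smul_eq_mul, Complex.star_def, map_mul]
    field_simp
    rw [hD]
    ring
  refine ⟨(2 / D) * (starRingEnd ℂ u * t' - starRingEnd ℂ w * t), (2 / D) * (w * t - u * t'), ?_, ?_⟩
  · conv_lhs => rw [hA]
    rw [Matrix.smul_mulVec, Matrix.sub_mulVec, Matrix.smul_mulVec, Matrix.smul_mulVec, e1, e2,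
      smul_smul, smul_smul, ← sub_smul, smul_smul]
  · conv_lhs => rw [hAH]
    rw [Matrix.smul_mulVec, Matrix.sub_mulVec, Matrix.smul_mulVec, Matrix.smul_mulVec, e1, e2,
      smul_smul, smul_smul, ← sub_smul, smul_smul]

theorem comm_of_range {k : ℕ} (V : Matrix ι (Fin k) ℂ) (A : Matrix ι ι ℂ)
    (e1 : A * V = V * (Vᴴ * A * V)) (e2 : Aᴴ * V = V * (Vᴴ * Aᴴ * V)) :
    A * (V * Vᴴ) = (V * Vᴴ) * A := by
  have f1 : A * (V * Vᴴ) = V * (Vᴴ * A * V) * Vᴴ := by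
    rw [← Matrix.mul_assoc, e1]
  have f2 : (V * Vᴴ) * A = V * (Vᴴ * A * V) * Vᴴ := by
    have h3 := congrArg conjTranspose e2
    rw [conjTranspose_mul, conjTranspose_conjTranspose, conjTranspose_mul, conjTranspose_mul,
      conjTranspose_mul, conjTranspose_conjTranspose, conjTranspose_conjTranspose] at h3
    calc (V * Vᴴ) * A = V * (Vᴴ * A) := Matrix.mul_assoc _ _ _
      _ = V * (Vᴴ * (A * V) * Vᴴ) := congrArg (V * ·) h3
      _ = _ := by simp only [Matrix.mul_assoc]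
  rw [f1, f2]

/-- the kernel of a member of the pencil -/
noncomputable def kerS (A : Matrix ι ι ℂ) (t : ℝ) (u : ℂ) : Submodule ℂ (ι → ℂ) := LinearMap.ker (sm A t u).mulVecLin

theorem mem_kerS {A : Matrix ι ι ℂ} {t : ℝ} {u : ℂ} {x : ι → ℂ} :
    x ∈ kerS A t u ↔ sm A t u *ᵥ x = 0 := by
  rw [kerS, LinearMap.mem_ker, Matrix.mulVecLin_apply]

theorem two_le_ker {A : Matrix ι ι ℂ} {t : ℝ} {u : ℂ} {x y : ι → ℂ} (hx : star x ⬝ᵥ x = 1)
    (hy : star y ⬝ᵥ y = 1) (hxy : star x ⬝ᵥ y = 0) (h1 : sm A t u *ᵥ x = 0)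
    (h2 : sm A t u *ᵥ y = 0) : 2 ≤ Module.finrank ℂ (kerS A t u) := by
  have hli2 : LinearIndependent ℂ ![x, y] := by
    rw [LinearIndependent.pair_iff]
    intro a b hab
    have e1 := congrArg (fun z => star x ⬝ᵥ z) hab
    simp only [dotProduct_add, dotProduct_smul, hx, hxy, dotProduct_zero, smul_eq_mul, mul_one,
      mul_zero, add_zero] at e1
    rw [e1, zero_smul, zero_add] at hab
    have e2 := congrArg (fun z => star y ⬝ᵥ z) hab
    simp only [dotProduct_smul, hy, dotProduct_zero, smul_eq_mul, mul_one] at e2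
    exact ⟨e1, e2⟩
  have h3 : Module.finrank ℂ (Submodule.span ℂ (Set.range ![x, y])) = 2 := by
    rw [finrank_span_eq_card hli2]; simp
  refine h3.symm.le.trans (Submodule.finrank_mono ?_)
  rw [Submodule.span_le]
  rintro z ⟨i, rfl⟩
  fin_cases i
  · exact mem_kerS.mpr h1
  · exact mem_kerS.mpr h2

/-- a nonsimple direction has a kernel of dimension at least two -/
theorem ker_of_nonsimple {A : Matrix ι ι ℂ} (hne : (MW A).Nonempty)
    (hnj : ∀ x : ι → ℂ, star x ⬝ᵥ x = 1 → ¬ ∃ a a' : ℂ, A *ᵥ x = a • x ∧ Aᴴ *ᵥ x = a' • x)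
    (u : ℂ) (hu : ¬ ∃ (t : ℝ) (x : ι → ℂ), Good A u t x) :
    ∃ t : ℝ, Adm A t u ∧ 2 ≤ Module.finrank ℂ (kerS A t u) := by
  obtain ⟨x, y, hx, hy, hxy, h1, h2⟩ := nonsimple_pair hne hnj u hu
  have hadm : Adm A (u * (star x ⬝ᵥ (A *ᵥ x))).re u := h1
  refine ⟨(u * (star x ⬝ᵥ (A *ᵥ x))).re, hadm, two_le_ker hx hy hxy ?_ ?_⟩
  · apply hadm.kernel
    rw [sm_quad_re, hx, Complex.one_re, mul_one, sub_self]
  · apply hadm.kernel
    have h3 := h2 _ ⟨x, hx, rfl⟩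
    have h4 := h1 _ ⟨y, hy, rfl⟩
    rw [sm_quad_re, hy, Complex.one_re, mul_one]
    linarith

theorem ker_inf {A : Matrix ι ι ℂ}
    (hnj : ∀ x : ι → ℂ, star x ⬝ᵥ x = 1 → ¬ ∃ a a' : ℂ, A *ᵥ x = a • x ∧ Aᴴ *ᵥ x = a' • x)
    {t t' : ℝ} {u w : ℂ} (hD0 : w * starRingEnd ℂ u - starRingEnd ℂ w * u ≠ 0) (x : ι → ℂ)
    (h1 : sm A t u *ᵥ x = 0) (h2 : sm A t' w *ᵥ x = 0) : x = 0 := by
  by_contra hx
  obtain ⟨s, hs, hs1⟩ := exists_normalize x hx
  apply hnj _ hs1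
  apply joint_of_two (u := u) (w := w) (t := t) (t' := t') _ _ hD0
  · rw [Matrix.mulVec_smul, h1, smul_zero]
  · rw [Matrix.mulVec_smul, h2, smul_zero]

end Pool.Agent.Helper84.NR
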