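import Pool.Agent.Helper84.NR.Minor

set_option autoImplicit false

/-!
# A direction in which the compressed pencil has rank at most one
-/

open Matrix
open scoped ComplexOrder

namespace Pool.Agent.Helper84.NR

open Pool.Agent.Helper774

variable {ι : Type*} [Fintype ι] [DecidableEq ι] {κ : Type*} [Fintype κ] [DecidableEq κ]

theorem Adm.smul {A : Matrix ι ι ℂ} {t : ℝ} {w : ℂ} (h : Adm A t w) (r : ℝ) (hr : 0 ≤ r) :
    Adm A (r * t) ((r : ℂ) * w) := by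
  intro z hz
  rw [mul_assoc, Complex.re_ofReal_mul]
  exact mul_le_mul_of_nonneg_left (h z hz) hr

omit [DecidableEq ι] in
theorem smul_form (S : Matrix ι ι ℂ) (r : ℝ) (x y : ι → ℂ) :
    star x ⬝ᵥ (((r : ℂ) • S) *ᵥ y) = (r : ℂ) * (star x ⬝ᵥ (S *ᵥ y)) := by
  rw [Matrix.smul_mulVec, dotProduct_smul, smul_eq_mul]

theorem near {A : Matrix ι ι ℂ}
    (hA2 : ∀ T : Matrix (Fin 2) (Fin 2) ℂ, MW T ⊆ MW A → FinDil A T)
    (hAκ : ∀ T : Matrix κ κ ℂ, MW T ⊆ MW A → FinDil A T)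
    (u : κ → ℂ) (t : κ → ℝ) (x : κ → ι → ℂ) (hu : ∀ i, ‖u i‖ = 1)
    (hgood : ∀ i, Good A (u i) (t i) (x i))
    (hind : ∀ i j, i ≠ j → ¬ ∃ c : ℂ, x j = c • x i)
    (hk : 1 ≤ Fintype.card κ) :
    ∃ D : ℝ, 0 < D ∧ ∀ δ : ℝ, 0 < δ → 8 * (Fintype.card κ : ℝ) ^ 2 * δ ≤ 1 →
      ∃ (s : ℝ) (w : ℂ), Adm A s w ∧ ‖((s, w) : ℝ × ℂ)‖ = 1 ∧
      ∀ i j, (star (x i) ⬝ᵥ (sm A s w *ᵥ x i)).re * (star (x j) ⬝ᵥ (sm A s w *ᵥ x j)).re
        - ‖star (x i) ⬝ᵥ (sm A s w *ᵥ x j)‖ ^ 2 ≤ D * δ := by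
  obtain ⟨C0, hC0, hb⟩ := exists_quad_bound A
  obtain ⟨k, hkd⟩ : ∃ k : ℝ, k = (Fintype.card κ : ℝ) := ⟨_, rfl⟩
  have hk1 : 1 ≤ k := by rw [hkd]; exact_mod_cast hk
  refine ⟨32 * C0 ^ 2 * k ^ 3, by positivity, ?_⟩
  intro δ hδ hδ1
  obtain ⟨s, w, hadm, v, hv⟩ := delta_main hA2 hAκ u t x hu hgood hind hk δ hδ
  rw [← hkd] at hδ1 hv
  obtain ⟨P, hP⟩ : ∃ P, P = ‖((s, w) : ℝ × ℂ)‖ := ⟨_, rfl⟩
  have hPn : 0 ≤ P := by rw [hP]; exact norm_nonneg _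
  have hPpos : 0 < P := by
    rcases hPn.lt_or_eq with h | h
    · exact h
    · exfalso
      rw [hP] at h
      have h1 := norm_eq_zero.mp h.symm
      rw [Prod.mk_eq_zero] at h1
      have h2 : sm A s w = 0 := by
        have := (smL A).map_zero
        rw [smL_apply] at this
        rw [h1.1, h1.2]
        exact this
      rw [h2] at hv
      simp at hv
  have hadm' := hadm.smul P⁻¹ (inv_nonneg.mpr hPn)
  refine ⟨P⁻¹ * s, ((P⁻¹ : ℝ) : ℂ) * w, hadm', ?_, ?_⟩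
  · have : ((P⁻¹ * s, ((P⁻¹ : ℝ) : ℂ) * w) : ℝ × ℂ) = P⁻¹ • ((s, w) : ℝ × ℂ) := by
      rw [Prod.smul_mk, smul_eq_mul, Complex.real_smul]
    rw [this, norm_smul, ← hP, norm_inv, Real.norm_eq_abs, abs_of_pos hPpos,
      inv_mul_cancel₀ hPpos.ne']
  · have hnorm : ‖((P⁻¹ * s, ((P⁻¹ : ℝ) : ℂ) * w) : ℝ × ℂ)‖ = 1 := by
      have : ((P⁻¹ * s, ((P⁻¹ : ℝ) : ℂ) * w) : ℝ × ℂ) = P⁻¹ • ((s, w) : ℝ × ℂ) := by
        rw [Prod.smul_mk, smul_eq_mul, Complex.real_smul]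
      rw [this, norm_smul, ← hP, norm_inv, Real.norm_eq_abs, abs_of_pos hPpos,
        inv_mul_cancel₀ hPpos.ne']
    intro i j
    apply minor_bound x hadm'.psd C0 hC0 _ v k δ hkd hk1 hδ hδ1
    · rw [sm_smul, smul_form, Complex.re_ofReal_mul]
      simp only [smul_form, Complex.re_ofReal_mul]
      have e : k * (1 - δ) * ∑ i, ‖v i‖ ^ 2 * (P⁻¹ * (star (x i) ⬝ᵥ (sm A s w *ᵥ x i)).re)
          = P⁻¹ * (k * (1 - δ) * ∑ i, ‖v i‖ ^ 2 * (star (x i) ⬝ᵥ (sm A s w *ᵥ x i)).re) := by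
        have : ∀ i, ‖v i‖ ^ 2 * (P⁻¹ * (star (x i) ⬝ᵥ (sm A s w *ᵥ x i)).re)
          = P⁻¹ * (‖v i‖ ^ 2 * (star (x i) ⬝ᵥ (sm A s w *ᵥ x i)).re) := fun i => by ring
        simp only [this]
        rw [← Finset.mul_sum]
        ring
      rw [e]
      exact mul_lt_mul_of_pos_left hv (inv_pos.mpr hPpos)
    · intro a
      have h1 := hb (P⁻¹ * s) (((P⁻¹ : ℝ) : ℂ) * w) (x a)
      rw [hnorm, mul_one, nsq, (hgood a).unit, Complex.one_re, mul_one] at h1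
      exact h1

theorem isClosed_adm (A : Matrix ι ι ℂ) : IsClosed {p : ℝ × ℂ | Adm A p.1 p.2} := by
  have : {p : ℝ × ℂ | Adm A p.1 p.2} = ⋂ z ∈ MW A, {p : ℝ × ℂ | (p.2 * z).re ≤ p.1} := by
    ext p
    simp [Adm]
  rw [this]
  apply isClosed_biInter
  intro z _
  apply isClosed_le
  · exact Complex.continuous_re.comp (continuous_snd.mul continuous_const)
  · exact continuous_fst

theorem continuous_form (A : Matrix ι ι ℂ) (x y : ι → ℂ) :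
    Continuous fun p : ℝ × ℂ => star x ⬝ᵥ (sm A p.1 p.2 *ᵥ y) := by
  have h1 : Continuous (ev A y) := LinearMap.continuous_of_finiteDimensional _
  have h2 : (fun p : ℝ × ℂ => star x ⬝ᵥ (sm A p.1 p.2 *ᵥ y))
      = fun p => ∑ i, star x i * ev A y p i := by
    funext p
    rfl
  rw [h2]
  apply continuous_finset_sum
  intro i _
  exact continuous_const.mul ((continuous_apply i).comp h1)

theorem exists_minor_zero {A : Matrix ι ι ℂ}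
    (hA2 : ∀ T : Matrix (Fin 2) (Fin 2) ℂ, MW T ⊆ MW A → FinDil A T)
    (hAκ : ∀ T : Matrix κ κ ℂ, MW T ⊆ MW A → FinDil A T)
    (u : κ → ℂ) (t : κ → ℝ) (x : κ → ι → ℂ) (hu : ∀ i, ‖u i‖ = 1)
    (hgood : ∀ i, Good A (u i) (t i) (x i))
    (hind : ∀ i j, i ≠ j → ¬ ∃ c : ℂ, x j = c • x i)
    (hk : 1 ≤ Fintype.card κ) :
    ∃ (s : ℝ) (w : ℂ), Adm A s w ∧ ‖((s, w) : ℝ × ℂ)‖ = 1 ∧
      ∀ i j, (star (x i) ⬝ᵥ (sm A s w *ᵥ x i)).re * (star (x j) ⬝ᵥ (sm A s w *ᵥ x j)).re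
        - ‖star (x i) ⬝ᵥ (sm A s w *ᵥ x j)‖ ^ 2 = 0 := by
  obtain ⟨D, hD, hnear⟩ := near hA2 hAκ u t x hu hgood hind hk
  obtain ⟨k, hkd⟩ : ∃ k : ℝ, k = (Fintype.card κ : ℝ) := ⟨_, rfl⟩
  have hk1 : 1 ≤ k := by rw [hkd]; exact_mod_cast hk
  rw [← hkd] at hnear
  obtain ⟨m, hm⟩ : ∃ m : κ → κ → ℝ × ℂ → ℝ, m = fun i j p =>
      (star (x i) ⬝ᵥ (sm A p.1 p.2 *ᵥ x i)).re * (star (x j) ⬝ᵥ (sm A p.1 p.2 *ᵥ x j)).re
        - ‖star (x i) ⬝ᵥ (sm A p.1 p.2 *ᵥ x j)‖ ^ 2 := ⟨_, rfl⟩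
  have hmc : ∀ i j, Continuous (m i j) := by
    intro i j
    rw [hm]
    exact ((Complex.continuous_re.comp (continuous_form A (x i) (x i))).mul
      (Complex.continuous_re.comp (continuous_form A (x j) (x j)))).sub
      ((continuous_form A (x i) (x j)).norm.pow 2)
  have hmn : ∀ i j (p : ℝ × ℂ), Adm A p.1 p.2 → 0 ≤ m i j p := by
    intro i j p hp
    rw [hm]
    simp only
    linarith [psd_cs hp.psd (x i) (x j)]
  obtain ⟨Kc, hKc⟩ : ∃ Kc : Set (ℝ × ℂ), Kc = {p | ‖p‖ = 1} ∩ {p | Adm A p.1 p.2} := ⟨_, rfl⟩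
  have hKcomp : IsCompact Kc := by
    rw [hKc]
    apply IsCompact.inter_right _ (isClosed_adm A)
    have : {p : ℝ × ℂ | ‖p‖ = 1} = Metric.sphere 0 1 := by
      ext p; simp
    rw [this]
    exact isCompact_sphere 0 1
  have hδ0 : 0 < 1 / (8 * k ^ 2) := by positivity
  have hKne : Kc.Nonempty := by
    obtain ⟨s, w, h1, h2, _⟩ := hnear (1 / (8 * k ^ 2)) hδ0 (by
      rw [mul_one_div, div_self (by positivity)])
    exact ⟨(s, w), by rw [hKc]; exact ⟨h2, h1⟩⟩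
  obtain ⟨μ, hμ⟩ : ∃ μ : ℝ × ℂ → ℝ, μ = fun p => ∑ i, ∑ j, m i j p := ⟨_, rfl⟩
  have hμc : Continuous μ := by
    rw [hμ]
    exact continuous_finset_sum _ fun i _ => continuous_finset_sum _ fun j _ => hmc i j
  obtain ⟨p, hpK, hpmin⟩ := hKcomp.exists_isMinOn hKne hμc.continuousOn
  have hpK' := hpK
  rw [hKc] at hpK'
  have hp0 : μ p ≤ 0 := by
    by_contra hc
    push Not at hc
    obtain ⟨δ, hδ, hδ1, hδ2⟩ : ∃ δ : ℝ, 0 < δ ∧ 8 * k ^ 2 * δ ≤ 1 ∧ k * k * (D * δ) < μ p := by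
      refine ⟨min (1 / (8 * k ^ 2)) (μ p / (2 * (k * k * D))), ?_, ?_, ?_⟩
      · exact lt_min hδ0 (by positivity)
      · calc 8 * k ^ 2 * min (1 / (8 * k ^ 2)) (μ p / (2 * (k * k * D)))
            ≤ 8 * k ^ 2 * (1 / (8 * k ^ 2)) := by gcongr; exact min_le_left _ _
          _ = 1 := by rw [mul_one_div, div_self (by positivity)]
          _ ≤ 1 := le_refl _
      · calc k * k * (D * min (1 / (8 * k ^ 2)) (μ p / (2 * (k * k * D))))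
            ≤ k * k * (D * (μ p / (2 * (k * k * D)))) := by gcongr; exact min_le_right _ _
          _ = μ p / 2 := by field_simp
          _ < μ p := by linarith
    obtain ⟨s, w, h1, h2, h3⟩ := hnear δ hδ hδ1
    have h4 : μ p ≤ μ (s, w) := hpmin (by rw [hKc]; exact ⟨h2, h1⟩)
    have h5 : μ (s, w) ≤ k * k * (D * δ) := by
      rw [hμ]
      simp only
      calc ∑ i, ∑ j, m i j (s, w) ≤ ∑ i : κ, ∑ j : κ, D * δ := by
            apply Finset.sum_le_sum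
            intro i _
            apply Finset.sum_le_sum
            intro j _
            rw [hm]
            exact h3 i j
        _ = k * k * (D * δ) := by
            rw [Finset.sum_const, Finset.sum_const, Finset.card_univ, nsmul_eq_mul, nsmul_eq_mul,
              ← hkd]
            ring
    linarith
  refine ⟨p.1, p.2, hpK'.2, hpK'.1, ?_⟩
  intro i j
  have h1 : m i j p ≤ μ p := by
    rw [hμ]
    calc m i j p ≤ ∑ b, m i b p :=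
          Finset.single_le_sum (fun b _ => hmn i b p hpK'.2) (Finset.mem_univ j)
      _ ≤ _ := Finset.single_le_sum (f := fun a => ∑ b, m a b p)
            (fun a _ => Finset.sum_nonneg fun b _ => hmn a b p hpK'.2) (Finset.mem_univ i)
  have h2 := hmn i j p hpK'.2
  have h3 : m i j p = 0 := le_antisymm (h1.trans hp0) h2
  rw [hm] at h3
  exact h3

/-- If all principal minors of order two vanish, the compressed form has rank one. -/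
theorem rank_one_of_minors {S : Matrix ι ι ℂ} (hS : S.PosSemidef) (x : κ → ι → ℂ)
    (hm : ∀ i j, (star (x i) ⬝ᵥ (S *ᵥ x i)).re * (star (x j) ⬝ᵥ (S *ᵥ x j)).re
        - ‖star (x i) ⬝ᵥ (S *ᵥ x j)‖ ^ 2 = 0) (i₀ : κ)
    (hi₀ : (star (x i₀) ⬝ᵥ (S *ᵥ x i₀)).re ≠ 0) (j : κ) :
    S *ᵥ (x j - ((star (x i₀) ⬝ᵥ (S *ᵥ x j)) / (star (x i₀) ⬝ᵥ (S *ᵥ x i₀))) • x i₀) = 0 := by
  rw [← hS.dotProduct_mulVec_zero_iff]
  have h1 := herm_swap hS.1 (x i₀) (x j)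
  have hreal : ∀ y, star y ⬝ᵥ (S *ᵥ y) = (((star y ⬝ᵥ (S *ᵥ y)).re : ℝ) : ℂ) := by
    intro y
    have := herm_swap hS.1 y y
    exact (Complex.conj_eq_iff_re.mp this.symm).symm
  obtain ⟨X, hX⟩ : ∃ X, X = (star (x i₀) ⬝ᵥ (S *ᵥ x i₀)).re := ⟨_, rfl⟩
  obtain ⟨Y, hY⟩ : ∃ Y, Y = (star (x j) ⬝ᵥ (S *ᵥ x j)).re := ⟨_, rfl⟩
  obtain ⟨p, hp⟩ : ∃ p, p = star (x i₀) ⬝ᵥ (S *ᵥ x j) := ⟨_, rfl⟩
  have h2 := hm i₀ j
  rw [← hX, ← hY, ← hp] at h2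
  rw [Matrix.mulVec_sub, Matrix.mulVec_smul, star_sub, star_smul, sub_dotProduct,
    smul_dotProduct, dotProduct_sub, dotProduct_sub, dotProduct_smul, dotProduct_smul, h1,
    hreal (x i₀), hreal (x j), ← hX, ← hY, ← hp]
  rw [← hX] at hi₀
  have hXc : (X : ℂ) ≠ 0 := by exact_mod_cast hi₀
  simp only [smul_eq_mul, Complex.star_def, map_div₀, Complex.conj_ofReal]
  have h3 : (X : ℂ) * Y - starRingEnd ℂ p * p = 0 := by
    rw [Complex.conj_mul']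
    exact_mod_cast h2
  field_simp
  linear_combination h3

end Pool.Agent.Helper84.NR
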