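import Pool.Agent.Helper84.NR.Delta

set_option autoImplicit false

/-!
# Nearly extremal Gram matrices have small principal minors
-/

open Matrix
open scoped ComplexOrder

namespace Pool.Agent.Helper84.NR

open Pool.Agent.Helper774

variable {ι : Type*} [Fintype ι] {κ : Type*} [Fintype κ]

theorem herm_swap {S : Matrix ι ι ℂ} (hS : S.IsHermitian) (x y : ι → ℂ) :
    star y ⬝ᵥ (S *ᵥ x) = starRingEnd ℂ (star x ⬝ᵥ (S *ᵥ y)) := by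
  rw [← Complex.star_def, Matrix.star_dotProduct, Matrix.star_mulVec, hS.eq,
    ← Matrix.dotProduct_mulVec]

theorem psd_re_nonneg {S : Matrix ι ι ℂ} (hS : S.PosSemidef) (x : ι → ℂ) :
    0 ≤ (star x ⬝ᵥ (S *ᵥ x)).re := (Complex.le_def.mp (hS.dotProduct_mulVec_nonneg x)).1

/-- the form at `a x - y` -/
theorem form_sub {S : Matrix ι ι ℂ} (hS : S.IsHermitian) (a : ℝ) (x y : ι → ℂ) :
    (star ((a : ℂ) • x - y) ⬝ᵥ (S *ᵥ ((a : ℂ) • x - y))).re =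
      a ^ 2 * (star x ⬝ᵥ (S *ᵥ x)).re + (star y ⬝ᵥ (S *ᵥ y)).re
        - 2 * a * (star x ⬝ᵥ (S *ᵥ y)).re := by
  have h := herm_swap hS x y
  have e : (star y ⬝ᵥ (S *ᵥ x)).re = (star x ⬝ᵥ (S *ᵥ y)).re := by
    rw [h, Complex.conj_re]
  rw [Matrix.mulVec_sub, Matrix.mulVec_smul, star_sub, star_smul, sub_dotProduct, smul_dotProduct,
    dotProduct_sub, dotProduct_sub, dotProduct_smul, dotProduct_smul]
  simp only [smul_eq_mul, Complex.star_def, Complex.conj_ofReal, Complex.sub_re,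
    Complex.re_ofReal_mul]
  rw [e]
  ring

theorem psd_cs {S : Matrix ι ι ℂ} (hS : S.PosSemidef) (x y : ι → ℂ) :
    ‖star x ⬝ᵥ (S *ᵥ y)‖ ^ 2 ≤ (star x ⬝ᵥ (S *ᵥ x)).re * (star y ⬝ᵥ (S *ᵥ y)).re := by
  obtain ⟨p, hp⟩ : ∃ p, p = star x ⬝ᵥ (S *ᵥ y) := ⟨_, rfl⟩
  obtain ⟨X, hX⟩ : ∃ X, X = (star x ⬝ᵥ (S *ᵥ x)).re := ⟨_, rfl⟩
  obtain ⟨Y, hY⟩ : ∃ Y, Y = (star y ⬝ᵥ (S *ᵥ y)).re := ⟨_, rfl⟩
  have hXn : 0 ≤ X := by rw [hX]; exact psd_re_nonneg hS x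
  have hYn : 0 ≤ Y := by rw [hY]; exact psd_re_nonneg hS y
  have h1 : ∀ r : ℝ, 0 ≤ r ^ 2 * ‖p‖ ^ 2 * X + Y - 2 * r * ‖p‖ ^ 2 := by
    intro r
    have h := psd_re_nonneg hS ((r : ℂ) • (p • x) - y)
    rw [form_sub hS.1, ← hY] at h
    have e1 : (star (p • x) ⬝ᵥ (S *ᵥ (p • x))).re = ‖p‖ ^ 2 * X := by
      rw [Matrix.mulVec_smul, star_smul, smul_dotProduct, dotProduct_smul, smul_eq_mul,
        smul_eq_mul, Complex.star_def, ← mul_assoc, Complex.conj_mul', hX, ← Complex.ofReal_pow,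
        Complex.re_ofReal_mul]
    have e2 : (star (p • x) ⬝ᵥ (S *ᵥ y)).re = ‖p‖ ^ 2 := by
      rw [star_smul, smul_dotProduct, smul_eq_mul, Complex.star_def, ← hp, Complex.conj_mul',
        ← Complex.ofReal_pow, Complex.ofReal_re]
    rw [e1, e2] at h
    linarith
  rw [← hp, ← hX, ← hY]
  by_cases hX0 : X = 0
  · have h := h1 (Y + 1)
    rw [hX0] at h ⊢
    by_contra hc
    push Not at hc
    have h2 : 0 < ‖p‖ ^ 2 := by linarith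
    have h3 := h1 ((Y + 1) / ‖p‖ ^ 2)
    rw [hX0] at h3
    have : 2 * ((Y + 1) / ‖p‖ ^ 2) * ‖p‖ ^ 2 = 2 * (Y + 1) := by
      rw [mul_assoc, div_mul_cancel₀ _ h2.ne']
    nlinarith
  · have hXp : 0 < X := lt_of_le_of_ne hXn (Ne.symm hX0)
    have h := h1 (1 / X)
    have e : (1 / X) ^ 2 * ‖p‖ ^ 2 * X + Y - 2 * (1 / X) * ‖p‖ ^ 2 = Y - ‖p‖ ^ 2 / X := by
      field_simp
      ring
    rw [e] at h
    have h2 : ‖p‖ ^ 2 / X ≤ Y := by linarith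
    rw [div_le_iff₀ hXp] at h2
    linarith

/-- Gram determinants are small when the vectors are close -/
theorem gram_close {S : Matrix ι ι ℂ} (hS : S.PosSemidef) (x y : ι → ℂ) :
    (star x ⬝ᵥ (S *ᵥ x)).re * (star y ⬝ᵥ (S *ᵥ y)).re - ‖star x ⬝ᵥ (S *ᵥ y)‖ ^ 2 ≤
      (star x ⬝ᵥ (S *ᵥ x)).re * ((star x ⬝ᵥ (S *ᵥ x)).re + (star y ⬝ᵥ (S *ᵥ y)).re
        - 2 * (star x ⬝ᵥ (S *ᵥ y)).re) := by
  obtain ⟨p, hp⟩ : ∃ p, p = star x ⬝ᵥ (S *ᵥ y) := ⟨_, rfl⟩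
  rw [← hp]
  have h : ‖p‖ ^ 2 = p.re ^ 2 + p.im ^ 2 := by
    rw [← Complex.normSq_eq_norm_sq, Complex.normSq_apply]; ring
  rw [h]
  nlinarith [sq_nonneg ((star x ⬝ᵥ (S *ᵥ x)).re - p.re), sq_nonneg p.im]

theorem scale_form (S : Matrix ι ι ℂ) (a b : ℂ) (x y : ι → ℂ) :
    star (a • x) ⬝ᵥ (S *ᵥ (b • y)) = starRingEnd ℂ a * b * (star x ⬝ᵥ (S *ᵥ y)) := by
  rw [Matrix.mulVec_smul, star_smul, smul_dotProduct, dotProduct_smul, smul_eq_mul, smul_eq_mul,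
    Complex.star_def]
  ring

theorem minor_bound (x : κ → ι → ℂ) {S : Matrix ι ι ℂ} (hS : S.PosSemidef) (C : ℝ) (hC0 : 0 < C)
    (hC : ∀ i, (star (x i) ⬝ᵥ (S *ᵥ x i)).re ≤ C) (v : κ → ℂ) (k δ : ℝ)
    (hkd : k = (Fintype.card κ : ℝ)) (hk : 1 ≤ k) (hδ : 0 < δ) (hδ1 : 8 * k ^ 2 * δ ≤ 1)
    (h : k * (1 - δ) * ∑ i, ‖v i‖ ^ 2 * (star (x i) ⬝ᵥ (S *ᵥ x i)).re <
      (star (∑ i, v i • x i) ⬝ᵥ (S *ᵥ (∑ i, v i • x i))).re) (i j : κ) :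
    (star (x i) ⬝ᵥ (S *ᵥ x i)).re * (star (x j) ⬝ᵥ (S *ᵥ x j)).re
      - ‖star (x i) ⬝ᵥ (S *ᵥ x j)‖ ^ 2 ≤ 32 * C ^ 2 * k ^ 3 * δ := by
  obtain ⟨Θ, hΘ⟩ : ∃ Θ : κ → κ → ℂ, Θ = fun a b => star (v a • x a) ⬝ᵥ (S *ᵥ (v b • x b)) :=
    ⟨_, rfl⟩
  have hΘd : ∀ a, (Θ a a).re = ‖v a‖ ^ 2 * (star (x a) ⬝ᵥ (S *ᵥ x a)).re := by
    intro a
    rw [hΘ]
    simp only
    rw [scale_form, Complex.conj_mul', ← Complex.ofReal_pow, Complex.re_ofReal_mul]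
  have hΘn : ∀ a, 0 ≤ (Θ a a).re := by
    intro a
    rw [hΘ]
    exact psd_re_nonneg hS _
  have hsumΘ : star (∑ i, v i • x i) ⬝ᵥ (S *ᵥ (∑ i, v i • x i)) = ∑ a, ∑ b, Θ a b := by
    rw [Matrix.mulVec_sum, star_sum, sum_dotProduct]
    apply Finset.sum_congr rfl
    intro a _
    rw [dotProduct_sum, hΘ]
  obtain ⟨σ, hσ⟩ : ∃ σ : ℝ, σ = ∑ a, (Θ a a).re := ⟨_, rfl⟩
  have hσ' : ∑ i, ‖v i‖ ^ 2 * (star (x i) ⬝ᵥ (S *ᵥ x i)).re = σ := by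
    rw [hσ]
    exact Finset.sum_congr rfl fun a _ => (hΘd a).symm
  rw [hσ', hsumΘ] at h
  obtain ⟨η, hη⟩ : ∃ η : κ → κ → ℝ, η = fun a b => (Θ a a).re + (Θ b b).re - 2 * (Θ a b).re :=
    ⟨_, rfl⟩
  have hηn : ∀ a b, 0 ≤ η a b := by
    intro a b
    have h1 := psd_re_nonneg hS (((1 : ℝ) : ℂ) • (v a • x a) - v b • x b)
    rw [form_sub hS.1] at h1
    rw [hη, hΘ]
    simp only
    linarith
  have hηsum : ∑ a, ∑ b, η a b = 2 * k * σ - 2 * (∑ a, ∑ b, Θ a b).re := by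
    have h1 : ∀ a, ∑ b, η a b = k * (Θ a a).re + σ - 2 * ∑ b, (Θ a b).re := by
      intro a
      rw [hη]
      simp only
      rw [Finset.sum_sub_distrib, Finset.sum_add_distrib, Finset.sum_const, Finset.card_univ,
        nsmul_eq_mul, ← hkd, ← hσ, Finset.mul_sum]
    rw [Finset.sum_congr rfl (fun a _ => h1 a), Finset.sum_sub_distrib, Finset.sum_add_distrib,
      Finset.sum_const, Finset.card_univ, nsmul_eq_mul, ← hkd, ← Finset.mul_sum, ← hσ,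
      ← Finset.mul_sum, Complex.re_sum]
    simp only [Complex.re_sum]
    ring
  have hηle : ∀ a b, η a b ≤ 2 * k * δ * σ := by
    intro a b
    have h1 : η a b ≤ ∑ a, ∑ b, η a b := by
      calc η a b ≤ ∑ b, η a b := Finset.single_le_sum (fun b _ => hηn a b) (Finset.mem_univ b)
        _ ≤ _ := Finset.single_le_sum (f := fun a => ∑ b, η a b)
            (fun a _ => Finset.sum_nonneg fun b _ => hηn a b) (Finset.mem_univ a)
    rw [hηsum] at h1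
    nlinarith
  have hσn : 0 ≤ σ := by
    rw [hσ]
    exact Finset.sum_nonneg fun a _ => hΘn a
  have hσpos : 0 < σ := by
    rcases hσn.lt_or_eq with h1 | h1
    · exact h1
    · exfalso
      have h2 : 0 ≤ ∑ a, ∑ b, η a b := Finset.sum_nonneg fun a _ =>
        Finset.sum_nonneg fun b _ => hηn a b
      rw [hηsum, ← h1] at h2
      rw [← h1] at h
      linarith
  obtain ⟨m, hm⟩ : ∃ m, σ / k ≤ (Θ m m).re := by
    by_contra hc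
    push Not at hc
    have h1 : σ < ∑ a : κ, σ / k := by
      rw [hσ]
      apply Finset.sum_lt_sum_of_nonempty
      · exact ⟨i, Finset.mem_univ i⟩
      · intro a _
        rw [← hσ]
        exact hc a
    rw [Finset.sum_const, Finset.card_univ, nsmul_eq_mul, ← hkd] at h1
    have : k * (σ / k) = σ := by field_simp
    linarith
  have hlow : ∀ a, σ / (4 * k) ≤ (Θ a a).re := by
    intro a
    have h1 := psd_re_nonneg hS (((2 : ℝ) : ℂ) • (v a • x a) - v m • x m)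
    rw [form_sub hS.1] at h1
    have h2 : 0 ≤ 4 * (Θ a a).re + (Θ m m).re - 4 * (Θ a m).re := by
      rw [hΘ]
      simp only
      linarith
    have h3 := hηle a m
    have h4 : η a m = (Θ a a).re + (Θ m m).re - 2 * (Θ a m).re := by rw [hη]
    have h5 : 2 * (2 * k * δ * σ) ≤ σ / (2 * k) := by
      rw [le_div_iff₀ (by positivity)]
      nlinarith
    have h6 : σ / (4 * k) = (σ / k - σ / (2 * k)) / 2 := by
      field_simp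
      ring
    rw [h6]
    linarith
  have hv : ∀ a, σ / (4 * k * C) ≤ ‖v a‖ ^ 2 := by
    intro a
    have h1 := hlow a
    rw [hΘd] at h1
    have h2 : ‖v a‖ ^ 2 * (star (x a) ⬝ᵥ (S *ᵥ x a)).re ≤ ‖v a‖ ^ 2 * C :=
      mul_le_mul_of_nonneg_left (hC a) (by positivity)
    rw [div_le_iff₀ (by positivity)]
    have h3 := h1.trans h2
    rw [div_le_iff₀ (by positivity)] at h3
    linarith
  have hprod : ‖v i‖ ^ 2 * ‖v j‖ ^ 2 * ((star (x i) ⬝ᵥ (S *ᵥ x i)).re *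
      (star (x j) ⬝ᵥ (S *ᵥ x j)).re - ‖star (x i) ⬝ᵥ (S *ᵥ x j)‖ ^ 2) ≤ 2 * k * δ * σ ^ 2 := by
    have h1 := gram_close hS (v i • x i) (v j • x j)
    have h2 : ‖star (v i • x i) ⬝ᵥ (S *ᵥ (v j • x j))‖ ^ 2
        = ‖v i‖ ^ 2 * ‖v j‖ ^ 2 * ‖star (x i) ⬝ᵥ (S *ᵥ x j)‖ ^ 2 := by
      rw [scale_form, norm_mul, norm_mul, Complex.norm_conj]
      ring
    have h3 : (star (v i • x i) ⬝ᵥ (S *ᵥ (v i • x i))).re ≤ σ := by
      have : (Θ i i).re ≤ σ := by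
        rw [hσ]
        exact Finset.single_le_sum (f := fun a => (Θ a a).re) (fun a _ => hΘn a) (Finset.mem_univ i)
      rw [hΘ] at this
      exact this
    have h4 : (star (v i • x i) ⬝ᵥ (S *ᵥ (v i • x i))).re
        + (star (v j • x j) ⬝ᵥ (S *ᵥ (v j • x j))).re
        - 2 * (star (v i • x i) ⬝ᵥ (S *ᵥ (v j • x j))).re ≤ 2 * k * δ * σ := by
      have := hηle i j
      rw [hη, hΘ] at this
      exact this
    have h5 : 0 ≤ (star (v i • x i) ⬝ᵥ (S *ᵥ (v i • x i))).re := psd_re_nonneg hS _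
    have h6 := hΘd i
    have h7 := hΘd j
    rw [hΘ] at h6 h7
    simp only at h6 h7
    calc _ = (‖v i‖ ^ 2 * (star (x i) ⬝ᵥ (S *ᵥ x i)).re) *
        (‖v j‖ ^ 2 * (star (x j) ⬝ᵥ (S *ᵥ x j)).re)
        - ‖v i‖ ^ 2 * ‖v j‖ ^ 2 * ‖star (x i) ⬝ᵥ (S *ᵥ x j)‖ ^ 2 := by ring
      _ = (star (v i • x i) ⬝ᵥ (S *ᵥ (v i • x i))).re *
        (star (v j • x j) ⬝ᵥ (S *ᵥ (v j • x j))).re
        - ‖star (v i • x i) ⬝ᵥ (S *ᵥ (v j • x j))‖ ^ 2 := by rw [h6, h7, h2]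
      _ ≤ _ := h1
      _ ≤ (star (v i • x i) ⬝ᵥ (S *ᵥ (v i • x i))).re * (2 * k * δ * σ) := by gcongr
      _ ≤ σ * (2 * k * δ * σ) := by gcongr
      _ = _ := by ring
  obtain ⟨μ, hμ⟩ : ∃ μ, μ = (star (x i) ⬝ᵥ (S *ᵥ x i)).re *
      (star (x j) ⬝ᵥ (S *ᵥ x j)).re - ‖star (x i) ⬝ᵥ (S *ᵥ x j)‖ ^ 2 := ⟨_, rfl⟩
  rw [← hμ] at hprod ⊢
  have hμn : 0 ≤ μ := by
    rw [hμ]
    linarith [psd_cs hS (x i) (x j)]
  have h8 : (σ / (4 * k * C)) ^ 2 * μ ≤ 2 * k * δ * σ ^ 2 := by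
    calc (σ / (4 * k * C)) ^ 2 * μ = (σ / (4 * k * C)) * (σ / (4 * k * C)) * μ := by ring
      _ ≤ ‖v i‖ ^ 2 * ‖v j‖ ^ 2 * μ := by
          gcongr
          · exact hv i
          · exact hv j
      _ ≤ _ := hprod
  have h9 : (σ / (4 * k * C)) ^ 2 * μ = σ ^ 2 * (μ / (16 * k ^ 2 * C ^ 2)) := by
    field_simp
    ring
  rw [h9] at h8
  have h10 : μ / (16 * k ^ 2 * C ^ 2) ≤ 2 * k * δ := by
    have : σ ^ 2 * (μ / (16 * k ^ 2 * C ^ 2)) ≤ σ ^ 2 * (2 * k * δ) := by linarith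
    exact le_of_mul_le_mul_left this (by positivity)
  rw [div_le_iff₀ (by positivity)] at h10
  calc μ ≤ _ := h10
    _ = _ := by ring

end Pool.Agent.Helper84.NR
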