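import Pool.Agent.Helper84.NR.Limit

set_option autoImplicit false

/-!
# Necessity
-/

open Matrix
open scoped ComplexOrder

namespace Pool.Agent.Helper84.NR

open Pool.Agent.Helper774

variable {ι : Type*} [Fintype ι] [DecidableEq ι] {κ : Type*} [Fintype κ] [DecidableEq κ]

/-- For a dense set of directions the top eigenvalue is simple, and its eigenvector is not a
common eigenvector of `A` and `A*`. -/
def DensTop (A : Matrix ι ι ℂ) : Prop :=
  ∀ u : ℂ, ‖u‖ = 1 → ∀ ε : ℝ, 0 < ε →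
    ∃ u' : ℂ, ‖u'‖ = 1 ∧ ‖u' - u‖ < ε ∧ ∃ (t : ℝ) (x : ι → ℂ), Good A u' t x

theorem mw_eq {A : Matrix ι ι ℂ} (hd : DensTop A) (V : Matrix ι κ ℂ) (hV : Vᴴ * V = 1)
    (hrange : ∀ (u : ℂ) (t : ℝ) (x : ι → ℂ), ‖u‖ = 1 → Good A u t x → ∃ y, x = V *ᵥ y) :
    MW (Vᴴ * A * V) = MW A := by
  apply Set.Subset.antisymm (MW_compress_subset A V hV)
  intro z hz
  by_contra hzB
  -- the point of a good direction lies in the numerical range of the compression
  have hpt : ∀ (u : ℂ) (t : ℝ) (x : ι → ℂ), ‖u‖ = 1 → Good A u t x →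
      ∃ z' ∈ MW (Vᴴ * A * V), (u * z').re = t := by
    intro u t x hu h
    obtain ⟨y, hy⟩ := hrange u t x hu h
    refine ⟨star y ⬝ᵥ ((Vᴴ * A * V) *ᵥ y), ⟨y, ?_, rfl⟩, ?_⟩
    · have h1 := h.unit
      rw [hy, ← quad_gram, hV, Matrix.one_mulVec] at h1
      exact h1
    · rw [quad_compress, ← hy]
      exact h.eq
  obtain ⟨u, c, hc1, hc2⟩ := exists_sep' (Vᴴ * A * V) z hzB
  obtain ⟨C, hC⟩ := (MW_isCompact A).isBounded.exists_norm_le
  have hC0 : 0 ≤ C := (norm_nonneg z).trans (hC z hz)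
  have hu0 : u ≠ 0 := by
    rintro rfl
    obtain ⟨u1, hu1, _, t1, x1, h1⟩ := hd 1 norm_one 1 one_pos
    obtain ⟨z', hz', _⟩ := hpt u1 t1 x1 hu1 h1
    have := hc1 z' hz'
    simp only [zero_mul, Complex.zero_re] at this hc2
    linarith
  have hun : 0 < ‖u‖ := norm_pos_iff.mpr hu0
  obtain ⟨d, hd'⟩ : ∃ d, d = (u * z).re - c := ⟨_, rfl⟩
  have hdpos : 0 < d := by rw [hd']; linarith
  obtain ⟨u', hu'1, hu'2, t, x, hx⟩ := hd (((‖u‖⁻¹ : ℝ) : ℂ) * u) (by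
    rw [norm_mul, Complex.norm_real, Real.norm_eq_abs, abs_of_pos (inv_pos.mpr hun),
      inv_mul_cancel₀ hun.ne']) (d / (2 * (C + 1) * ‖u‖)) (by positivity)
  obtain ⟨z', hz', hz't⟩ := hpt u' t x hu'1 hx
  -- scale
  have h1 : ‖((‖u‖ : ℝ) : ℂ) * u' - u‖ ≤ d / (2 * (C + 1)) := by
    have e : ((‖u‖ : ℝ) : ℂ) * u' - u = ((‖u‖ : ℝ) : ℂ) * (u' - ((‖u‖⁻¹ : ℝ) : ℂ) * u) := by
      have : ((‖u‖ : ℝ) : ℂ) ≠ 0 := by exact_mod_cast hun.ne'
      push_cast
      field_simp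
    rw [e, norm_mul, Complex.norm_real, Real.norm_eq_abs, abs_of_pos hun]
    calc ‖u‖ * ‖u' - ((‖u‖⁻¹ : ℝ) : ℂ) * u‖ ≤ ‖u‖ * (d / (2 * (C + 1) * ‖u‖)) := by
          gcongr
      _ = d / (2 * (C + 1)) := by field_simp
  have h2 : ∀ ζ ∈ MW A, |(((‖u‖ : ℝ) : ℂ) * u' * ζ).re - (u * ζ).re| ≤ d / (2 * (C + 1)) * C := by
    intro ζ hζ
    rw [← Complex.sub_re, ← sub_mul]
    calc |((((‖u‖ : ℝ) : ℂ) * u' - u) * ζ).re| ≤ ‖(((‖u‖ : ℝ) : ℂ) * u' - u) * ζ‖ :=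
          Complex.abs_re_le_norm _
      _ = ‖((‖u‖ : ℝ) : ℂ) * u' - u‖ * ‖ζ‖ := norm_mul _ _
      _ ≤ _ := by
          gcongr
          exact hC ζ hζ
  have h3 : d / (2 * (C + 1)) * C < d / 2 := by
    rw [div_mul_eq_mul_div, div_lt_div_iff₀ (by positivity) (by norm_num)]
    nlinarith
  have h4 := abs_le.mp (h2 z hz)
  have h5 := abs_le.mp (h2 z' (MW_compress_subset A V hV hz'))
  have h6 := hc1 z' hz'
  have h7 := hx.adm z hz
  have h8 : (((‖u‖ : ℝ) : ℂ) * u' * z).re ≤ (((‖u‖ : ℝ) : ℂ) * u' * z').re := by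
    rw [mul_assoc, mul_assoc, Complex.re_ofReal_mul, Complex.re_ofReal_mul, hz't]
    exact mul_le_mul_of_nonneg_left h7 hun.le
  linarith

omit [DecidableEq ι] [DecidableEq κ] in
theorem sesq_compress (X : Matrix ι κ ℂ) (M : Matrix ι ι ℂ) (x y : κ → ℂ) :
    star x ⬝ᵥ ((Xᴴ * M * X) *ᵥ y) = star (X *ᵥ x) ⬝ᵥ (M *ᵥ (X *ᵥ y)) := by
  rw [Matrix.star_mulVec, ← Matrix.dotProduct_mulVec, Matrix.mulVec_mulVec, Matrix.mulVec_mulVec,
    Matrix.mul_assoc]

/-- The span of the good top vectors reduces `A`. -/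
theorem reducing {A : Matrix ι ι ℂ}
    (hA2 : ∀ T : Matrix (Fin 2) (Fin 2) ℂ, MW T ⊆ MW A → FinDil A T)
    (u : κ → ℂ) (t : κ → ℝ) (x : κ → ι → ℂ) (hu : ∀ i, ‖u i‖ = 1)
    (hgood : ∀ i, Good A (u i) (t i) (x i))
    (hind : ∀ i j, i ≠ j → ¬ ∃ c : ℂ, x j = c • x i) (i₀ : κ)
    (V : Matrix ι κ ℂ) (S₀ : Matrix κ κ ℂ) (hV : Vᴴ * V = 1) (hVX : V = colMat x * S₀)
    (hdil : FinDil (Vᴴ * A * V) A) :
    A * V = V * (Vᴴ * A * V) ∧ Aᴴ * V = V * (Vᴴ * A * V)ᴴ := by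
  obtain ⟨N, Q, hQ1, hQ2⟩ := finDil_toMatrix hdil
  have hR1 : ∑ p, (V * Q p)ᴴ * (V * Q p) = 1 := by
    rw [← hQ1]
    apply Finset.sum_congr rfl
    intro p _
    rw [conjTranspose_mul]
    calc (Q p)ᴴ * Vᴴ * (V * Q p) = (Q p)ᴴ * (Vᴴ * V) * Q p := by simp only [Matrix.mul_assoc]
      _ = _ := by rw [hV, Matrix.mul_one]
  have hR2 : ∑ p, (V * Q p)ᴴ * A * (V * Q p) = A := by
    refine Eq.trans ?_ hQ2
    apply Finset.sum_congr rfl
    intro p _
    rw [conjTranspose_mul]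
    simp only [Matrix.mul_assoc]
  have hker : ∀ p i, ∃ α : ℂ, (V * Q p) *ᵥ x i = α • x i := by
    intro p i
    apply (hgood i).kernel
    apply (hgood i).adm.kernel
    have h1 : ∑ q, (star ((V * Q q) *ᵥ x i) ⬝ᵥ (sm A (t i) (u i) *ᵥ ((V * Q q) *ᵥ x i))).re = 0 := by
      have e1 : ∑ q, star ((V * Q q) *ᵥ x i) ⬝ᵥ ((V * Q q) *ᵥ x i) = 1 := by
        have : ∀ q, star ((V * Q q) *ᵥ x i) ⬝ᵥ ((V * Q q) *ᵥ x i)
            = star (x i) ⬝ᵥ (((V * Q q)ᴴ * (V * Q q)) *ᵥ x i) := fun q => (quad_gram _ _).symm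
        rw [Finset.sum_congr rfl (fun q _ => this q), ← dotProduct_sum, ← Matrix.sum_mulVec, hR1,
          Matrix.one_mulVec, (hgood i).unit]
      have e2 : ∑ q, star ((V * Q q) *ᵥ x i) ⬝ᵥ (A *ᵥ ((V * Q q) *ᵥ x i))
          = star (x i) ⬝ᵥ (A *ᵥ x i) := by
        have : ∀ q, star ((V * Q q) *ᵥ x i) ⬝ᵥ (A *ᵥ ((V * Q q) *ᵥ x i))
            = star (x i) ⬝ᵥ (((V * Q q)ᴴ * A * (V * Q q)) *ᵥ x i) :=
          fun q => (quad_compress _ _ _).symm
        rw [Finset.sum_congr rfl (fun q _ => this q), ← dotProduct_sum, ← Matrix.sum_mulVec, hR2]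
      simp only [sm_quad_re]
      rw [Finset.sum_sub_distrib, ← Finset.mul_sum, ← Complex.re_sum, ← Complex.re_sum,
        ← Finset.mul_sum, e1, e2, (hgood i).eq, Complex.one_re, mul_one, sub_self]
    exact (Finset.sum_eq_zero_iff_of_nonneg (fun q _ => (hgood i).adm.nonneg _)).mp h1 p
      (Finset.mem_univ p)
  choose α hα using hker
  obtain ⟨C, hCd⟩ : ∃ C : κ → κ → ℂ, C = fun i j => ∑ p, starRingEnd ℂ (α p i) * α p j := ⟨_, rfl⟩
  have hC1 : ∀ i j, star (x i) ⬝ᵥ x j = C i j * (star (x i) ⬝ᵥ x j) := by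
    intro i j
    have h1 : star (x i) ⬝ᵥ ((∑ p, (V * Q p)ᴴ * (V * Q p)) *ᵥ x j) = star (x i) ⬝ᵥ x j := by
      rw [hR1, Matrix.one_mulVec]
    rw [Matrix.sum_mulVec, dotProduct_sum] at h1
    rw [hCd]
    simp only
    rw [Finset.sum_mul]
    conv_lhs => rw [← h1]
    apply Finset.sum_congr rfl
    intro p _
    rw [← Matrix.mulVec_mulVec, Matrix.dotProduct_mulVec, ← Matrix.star_mulVec, hα, hα, star_smul,
      smul_dotProduct, dotProduct_smul, smul_eq_mul, smul_eq_mul, Complex.star_def]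
    ring
  have hC2 : ∀ i j, star (x i) ⬝ᵥ (A *ᵥ x j) = C i j * (star (x i) ⬝ᵥ (A *ᵥ x j)) := by
    intro i j
    have h1 : star (x i) ⬝ᵥ ((∑ p, (V * Q p)ᴴ * A * (V * Q p)) *ᵥ x j)
        = star (x i) ⬝ᵥ (A *ᵥ x j) := by
      rw [hR2]
    rw [Matrix.sum_mulVec, dotProduct_sum] at h1
    rw [hCd]
    simp only
    rw [Finset.sum_mul]
    conv_lhs => rw [← h1]
    apply Finset.sum_congr rfl
    intro p _
    rw [sesq_compress, hα, hα, star_smul, Matrix.mulVec_smul,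
      smul_dotProduct, dotProduct_smul, smul_eq_mul, smul_eq_mul, Complex.star_def]
    ring
  have hCii : ∀ i, C i i = 1 := by
    intro i
    have h := hC1 i i
    rw [(hgood i).unit, mul_one] at h
    exact h.symm
  have hCij : ∀ i j, C i j = 1 := by
    intro i j
    by_cases hij : i = j
    · rw [hij]; exact hCii j
    by_contra hne
    have hne' : C i j - 1 ≠ 0 := sub_ne_zero.mpr hne
    have h1 := hC1 i j
    have h2 := hC2 i j
    apply connected hA2 (hgood i) (hgood j) (hu i) (hu j) (hind i j hij)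
    · have : (C i j - 1) * (star (x i) ⬝ᵥ x j) = 0 := by linear_combination -h1
      exact (mul_eq_zero.mp this).resolve_left hne'
    · have : (C i j - 1) * (star (x i) ⬝ᵥ (A *ᵥ x j)) = 0 := by linear_combination -h2
      exact (mul_eq_zero.mp this).resolve_left hne'
  have hαeq : ∀ p i, α p i = α p i₀ := by
    intro p i
    have h1 : ((∑ q, ‖α q i - α q i₀‖ ^ 2 : ℝ) : ℂ) = 0 := by
      have e : ∀ q, ((‖α q i - α q i₀‖ ^ 2 : ℝ) : ℂ)
          = starRingEnd ℂ (α q i) * α q i - starRingEnd ℂ (α q i) * α q i₀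
            - starRingEnd ℂ (α q i₀) * α q i + starRingEnd ℂ (α q i₀) * α q i₀ := by
        intro q
        have : starRingEnd ℂ (α q i - α q i₀) * (α q i - α q i₀)
            = ((‖α q i - α q i₀‖ ^ 2 : ℝ) : ℂ) := by
          rw [Complex.conj_mul']; norm_num
        rw [← this, map_sub]
        ring
      rw [Complex.ofReal_sum, Finset.sum_congr rfl (fun q _ => e q), Finset.sum_add_distrib,
        Finset.sum_sub_distrib, Finset.sum_sub_distrib]
      have e1 := hCij i i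
      have e2 := hCij i i₀
      have e3 := hCij i₀ i
      have e4 := hCij i₀ i₀
      rw [hCd] at e1 e2 e3 e4
      simp only at e1 e2 e3 e4
      rw [e1, e2, e3, e4]
      ring
    have h2 : ∑ q, ‖α q i - α q i₀‖ ^ 2 = 0 := by exact_mod_cast h1
    have h3 := (Finset.sum_eq_zero_iff_of_nonneg (fun q _ => by positivity)).mp h2 p
      (Finset.mem_univ p)
    have h4 : ‖α p i - α p i₀‖ = 0 := by simpa using h3
    exact sub_eq_zero.mp (norm_eq_zero.mp h4)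
  -- `V Q_p V = α_p V`
  have hQV : ∀ p, (V * Q p) * V = α p i₀ • V := by
    intro p
    have h1 : (V * Q p) * colMat x = α p i₀ • colMat x := by
      ext a i
      have h2 := congrFun (hα p i) a
      rw [hαeq] at h2
      rw [Matrix.mul_apply]
      simpa [Matrix.mulVec, dotProduct, colMat] using h2
    rw [hVX] at h1 ⊢
    rw [← Matrix.mul_assoc, h1, Matrix.smul_mul]
  obtain ⟨M, hM⟩ : ∃ M : Matrix ι κ ℂ, M = ∑ p, α p i₀ • (Q p)ᴴ := ⟨_, rfl⟩
  have hMV : M = V := by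
    have h1 : (∑ p, (V * Q p)ᴴ * (V * Q p)) * V = V := by rw [hR1, Matrix.one_mul]
    rw [Matrix.sum_mul] at h1
    rw [hM]
    refine Eq.trans ?_ h1
    apply Finset.sum_congr rfl
    intro p _
    rw [Matrix.mul_assoc, hQV, Matrix.mul_smul, conjTranspose_mul, Matrix.mul_assoc, hV,
      Matrix.mul_one]
  constructor
  · have h1 : (∑ p, (V * Q p)ᴴ * A * (V * Q p)) * V = A * V := by rw [hR2]
    rw [Matrix.sum_mul] at h1
    rw [← h1]
    have h2 : ∀ p, (V * Q p)ᴴ * A * (V * Q p) * V = (α p i₀ • (Q p)ᴴ) * (Vᴴ * A * V) := by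
      intro p
      rw [Matrix.mul_assoc, hQV, Matrix.mul_smul, conjTranspose_mul, Matrix.smul_mul]
      simp only [Matrix.mul_assoc]
    rw [Finset.sum_congr rfl (fun p _ => h2 p), ← Matrix.sum_mul, ← hM, hMV]
  · have hR3 : ∑ p, (V * Q p)ᴴ * Aᴴ * (V * Q p) = Aᴴ := by
      refine Eq.trans ?_ (congrArg conjTranspose hR2)
      rw [conjTranspose_sum]
      apply Finset.sum_congr rfl
      intro p _
      rw [conjTranspose_mul ((V * Q p)ᴴ * A), conjTranspose_mul (V * Q p)ᴴ A,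
        conjTranspose_conjTranspose, Matrix.mul_assoc]
    have h1 : (∑ p, (V * Q p)ᴴ * Aᴴ * (V * Q p)) * V = Aᴴ * V := by rw [hR3]
    rw [Matrix.sum_mul] at h1
    rw [← h1]
    have h2 : ∀ p, (V * Q p)ᴴ * Aᴴ * (V * Q p) * V = (α p i₀ • (Q p)ᴴ) * (Vᴴ * A * V)ᴴ := by
      intro p
      rw [Matrix.mul_assoc, hQV, Matrix.mul_smul, conjTranspose_mul, Matrix.smul_mul,
        conjTranspose_mul, conjTranspose_mul, conjTranspose_conjTranspose]
      simp only [Matrix.mul_assoc]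
    rw [Finset.sum_congr rfl (fun p _ => h2 p), ← Matrix.sum_mul, ← hM, hMV]

end Pool.Agent.Helper84.NR
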