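import Pool.Agent.Helper84.NR.Thm

set_option autoImplicit false

/-!
# From the dilation property for operators to matrices
-/

open Matrix
open scoped ComplexOrder InnerProductSpace TensorProduct

namespace Pool.Agent.Helper84.NR

open Pool.Agent.Helper774

universe u

/-- the finite-dimensional consequence of the dilation property, all sizes -/
theorem finDil_of_property {n k : ℕ} (A : Matrix (Fin n) (Fin n) ℂ)
    (h : ∀ (K : Type u) [NormedAddCommGroup K] [InnerProductSpace ℂ K] [CompleteSpace K]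
      (T : K →L[ℂ] K), (∀ x : K, ‖x‖ = 1 → inner ℂ x (T x) ∈ MW A) →
      ∃ (H : Type u) (_ : NormedAddCommGroup H) (_ : InnerProductSpace ℂ H)
        (_ : CompleteSpace H) (X : K →ₗᵢ[ℂ] H ⊗[ℂ] EuclideanSpace ℂ (Fin n)),
        ∀ x y : K, inner ℂ (X y) (LinearMap.lTensor H (Matrix.toEuclideanLin A) (X x))
          = inner ℂ y (T x))
    (T : Matrix (Fin k) (Fin k) ℂ) (hT : MW T ⊆ MW A) : FinDil A T := by
  classical
  set T' : Matrix (ULift.{u} (Fin k)) (ULift.{u} (Fin k)) ℂ :=
    T.submatrix ULift.down ULift.down with hT'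
  have hsum : ∀ F : Fin k → ℂ, ∑ i : ULift.{u} (Fin k), F i.down = ∑ i, F i := by
    intro F
    exact Fintype.sum_equiv Equiv.ulift _ _ (fun _ => rfl)
  have hquad : ∀ x : ULift.{u} (Fin k) → ℂ, star x ⬝ᵥ (T' *ᵥ x)
      = star (fun i => x (ULift.up i)) ⬝ᵥ (T *ᵥ (fun i => x (ULift.up i))) := by
    intro x
    rw [dotProduct, dotProduct, ← hsum]
    apply Finset.sum_congr rfl
    intro i _
    have e1 : (T' *ᵥ x) i = (T *ᵥ (fun i => x (ULift.up i))) i.down := by
      change ∑ j : ULift.{u} (Fin k), T i.down j.down * x j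
        = ∑ j : Fin k, T i.down j * x (ULift.up j)
      exact hsum (fun j => T i.down j * x (ULift.up j))
    rw [e1]
    rfl
  have hunit : ∀ x : ULift.{u} (Fin k) → ℂ, star x ⬝ᵥ x
      = star (fun i => x (ULift.up i)) ⬝ᵥ (fun i => x (ULift.up i)) := by
    intro x
    rw [dotProduct, dotProduct, ← hsum]
    rfl
  obtain ⟨H, i1, i2, i3, X, hX⟩ := h (EuclideanSpace ℂ (ULift.{u} (Fin k)))
    (Matrix.toEuclideanCLM (𝕜 := ℂ) T') (by
      intro x hx
      apply hT
      rw [Helper774.inner_toEuclideanCLM, hquad]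
      refine ⟨_, ?_, rfl⟩
      rw [← hunit]
      exact (norm_eq_one_iff_dot x).mp hx)
  set Y : Fin k → H ⊗[ℂ] EuclideanSpace ℂ (Fin n) :=
    fun a => X (EuclideanSpace.single (ULift.up a) (1 : ℂ)) with hY
  apply FinDil.of_tensor A T Y
  · intro a b
    rw [hY]
    simp only [LinearIsometry.inner_map_map]
    rw [EuclideanSpace.inner_single_left, map_one, one_mul]
    by_cases hab : a = b
    · subst hab; simp
    · rw [if_neg hab]
      simp [hab]
  · intro a b
    rw [hY]
    simp only
    rw [hX, Helper774.inner_toEuclideanCLM]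
    have e1 : (EuclideanSpace.single (ULift.up.{u} b) (1 : ℂ)).ofLp
        = Pi.single (ULift.up b) 1 := rfl
    have e2 : (EuclideanSpace.single (ULift.up.{u} a) (1 : ℂ)).ofLp
        = Pi.single (ULift.up a) 1 := rfl
    rw [e1, e2, Matrix.mulVec_single_one, dotProduct, Finset.sum_eq_single (ULift.up a)]
    · simp [hT']
    · intro j _ hj
      simp [hj]
    · simp

end Pool.Agent.Helper84.NR
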