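import Pool.Agent.Helper84.NR.Alg

set_option autoImplicit false

/-!
# Reducing, algebraic proof
-/

open Matrix
open scoped ComplexOrder

namespace Pool.Agent.Helper84.NR

open Pool.Agent.Helper774

variable {ι : Type*} [Fintype ι] [DecidableEq ι]

theorem reducing_alg {k : ℕ} {A : Matrix ι ι ℂ} {s : ℝ} {w : ℂ} (hadm : Adm A s w) (hw : w ≠ 0)
    (V : Matrix ι (Fin k) ℂ) (hV : Vᴴ * V = 1) (g : Fin k → ℂ) (hg : g ≠ 0)
    (hΓ : Vᴴ * sm A s w * V = vecMulVec g (star g)) (U : Set ℂ) (hU : U.Infinite)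
    (hgood : ∀ u ∈ U, ‖u‖ = 1 ∧ (u / w).im ≠ 0 ∧ ∃ (t : ℝ) (c : Fin k → ℂ), Good A u t (V *ᵥ c))
    (hspan : ∀ N : Submodule ℂ (Fin k → ℂ),
      (∀ u ∈ U, ∀ (t : ℝ) (c : Fin k → ℂ), Good A u t (V *ᵥ c) → c ∈ N) → N = ⊤)
    (y : ι → ℂ) (hy : Vᴴ *ᵥ y = 0) (c : Fin k → ℂ) :
    star y ⬝ᵥ (A *ᵥ (V *ᵥ c)) = 0 ∧ star y ⬝ᵥ (Aᴴ *ᵥ (V *ᵥ c)) = 0 := by
  obtain ⟨S₀, hS₀⟩ : ∃ S₀, S₀ = sm A s w := ⟨_, rfl⟩
  obtain ⟨S₂, hS₂⟩ : ∃ S₂, S₂ = sm A 0 (Complex.I * w) := ⟨_, rfl⟩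
  have hyV : ∀ c, star y ⬝ᵥ (V *ᵥ c) = 0 := by
    intro c
    have h1 : star (Vᴴ *ᵥ y) ⬝ᵥ c = 0 := by rw [hy, star_zero, zero_dotProduct]
    rw [Matrix.star_mulVec, conjTranspose_conjTranspose, ← Matrix.dotProduct_mulVec] at h1
    exact h1
  -- the norm of g
  obtain ⟨G, hG⟩ : ∃ G : ℂ, G = star g ⬝ᵥ g := ⟨_, rfl⟩
  have hG0 : G ≠ 0 := by
    intro h
    apply hg
    apply dot_self_re_eq_zero
    rw [← hG, h, Complex.zero_re]
  obtain ⟨h, hh⟩ : ∃ h : ι → ℂ, h = G⁻¹ • (S₀ *ᵥ (V *ᵥ g)) := ⟨_, rfl⟩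
  have hform : ∀ c, star (V *ᵥ c) ⬝ᵥ (S₀ *ᵥ (V *ᵥ c)) = (star c ⬝ᵥ g) * (star g ⬝ᵥ c) := by
    intro c
    rw [← quad_compress, hS₀, hΓ, Matrix.vecMulVec_mulVec, op_smul_eq_smul,
      dotProduct_smul, smul_eq_mul, mul_comm]
  have hperp : ∀ c, star g ⬝ᵥ c = 0 → S₀ *ᵥ (V *ᵥ c) = 0 := by
    intro c hc
    rw [hS₀]
    apply hadm.kernel
    rw [← hS₀, hform, hc, mul_zero, Complex.zero_re]
  have hS0 : ∀ c, S₀ *ᵥ (V *ᵥ c) = (star g ⬝ᵥ c) • h := by
    intro c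
    have h1 := hperp (c - (G⁻¹ * (star g ⬝ᵥ c)) • g) (by
      rw [dotProduct_sub, dotProduct_smul, ← hG, smul_eq_mul]
      field_simp
      ring)
    rw [Matrix.mulVec_sub, Matrix.mulVec_sub, Matrix.mulVec_smul, Matrix.mulVec_smul,
      sub_eq_zero] at h1
    rw [h1, hh, smul_smul, mul_comm]
  have hVh : Vᴴ *ᵥ h = g := by
    rw [hh, Matrix.mulVec_smul, Matrix.mulVec_mulVec, Matrix.mulVec_mulVec,
      hS₀, hΓ, Matrix.vecMulVec_mulVec, op_smul_eq_smul, ← hG, smul_smul,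
      inv_mul_cancel₀ hG0, one_smul]
  -- the relation for a good top
  have hrel : ∀ (u : ℂ) (t : ℝ) (c : Fin k → ℂ), Good A u t (V *ᵥ c) →
      ((((u / w).re : ℝ) : ℂ) * (star g ⬝ᵥ c)) • h +
      ((((t - (u / w).re * s : ℝ) : ℂ)) • (V *ᵥ c) +
        (((u / w).im : ℝ) : ℂ) • (S₂ *ᵥ (V *ᵥ c))) = 0 := by
    intro u t c hgd
    have h1 := hgd.sm_zero
    rw [sm_expand A s t w u hw, Matrix.add_mulVec, Matrix.add_mulVec, Matrix.smul_mulVec,
      Matrix.smul_mulVec, Matrix.smul_mulVec, Matrix.one_mulVec, ← hS₀, ← hS₂, hS0, smul_smul] at h1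
    exact h1
  obtain ⟨η, hη⟩ : ∃ η : ℂ, η = star y ⬝ᵥ h := ⟨_, rfl⟩
  have hE1 : ∀ (u : ℂ) (t : ℝ) (c : Fin k → ℂ), Good A u t (V *ᵥ c) →
      (((u / w).re : ℝ) : ℂ) * (star g ⬝ᵥ c) * η +
        (((u / w).im : ℝ) : ℂ) * (star y ⬝ᵥ (S₂ *ᵥ (V *ᵥ c))) = 0 := by
    intro u t c hgd
    have h1 := congrArg (fun z => star y ⬝ᵥ z) (hrel u t c hgd)
    simp only [dotProduct_add, dotProduct_smul, smul_eq_mul, dotProduct_zero, hyV, mul_zero,
      zero_add, ← hη] at h1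
    exact h1
  -- η vanishes
  have hη0 : η = 0 := by
    by_contra hηne
    obtain ⟨ℓ, hℓ⟩ : ∃ ℓ : Fin k → ℂ, ℓ = η⁻¹ • (star y ᵥ* (S₂ * V)) := ⟨_, rfl⟩
    have hℓc : ∀ c, ℓ ⬝ᵥ c = η⁻¹ * (star y ⬝ᵥ (S₂ *ᵥ (V *ᵥ c))) := by
      intro c
      rw [hℓ, smul_dotProduct, smul_eq_mul, ← Matrix.dotProduct_mulVec, Matrix.mulVec_mulVec]
    obtain ⟨M, hM⟩ : ∃ M : Matrix (Fin k) (Fin k) ℂ, M = Vᴴ * S₂ * V - vecMulVec g ℓ := ⟨_, rfl⟩
    have hMc : ∀ c, M *ᵥ c = Vᴴ *ᵥ (S₂ *ᵥ (V *ᵥ c)) - (ℓ ⬝ᵥ c) • g := by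
      intro c
      rw [hM, Matrix.sub_mulVec, Matrix.vecMulVec_mulVec, op_smul_eq_smul,
        Matrix.mulVec_mulVec, Matrix.mulVec_mulVec]
    have heig : ∀ (u : ℂ) (t : ℝ) (c : Fin k → ℂ), Good A u t (V *ᵥ c) → (u / w).im ≠ 0 →
        M *ᵥ c = ((-((t - (u / w).re * s) / (u / w).im) : ℝ) : ℂ) • c := by
      intro u t c hgd hγ
      have h1 := hE1 u t c hgd
      have h2 := congrArg (fun z => Vᴴ *ᵥ z) (hrel u t c hgd)
      simp only [Matrix.mulVec_add, Matrix.mulVec_smul, Matrix.mulVec_zero, hVh] at h2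
      rw [Matrix.mulVec_mulVec c Vᴴ V, hV, Matrix.one_mulVec] at h2
      obtain ⟨α, hα⟩ : ∃ α : ℝ, α = (u / w).re := ⟨_, rfl⟩
      obtain ⟨γ, hγd⟩ : ∃ γ : ℝ, γ = (u / w).im := ⟨_, rfl⟩
      rw [← hα, ← hγd] at h1 h2
      rw [← hα, ← hγd]
      rw [← hγd] at hγ
      have hγc : (γ : ℂ) ≠ 0 := by exact_mod_cast hγ
      have h3 : (α : ℂ) * (star g ⬝ᵥ c) = -((γ : ℂ) * (ℓ ⬝ᵥ c)) := by
        rw [hℓc]
        have h4 : ((α : ℂ) * (star g ⬝ᵥ c) + (γ : ℂ) * (η⁻¹ * (star y ⬝ᵥ (S₂ *ᵥ (V *ᵥ c))))) * η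
            = 0 := by
          calc _ = (α : ℂ) * (star g ⬝ᵥ c) * η + (γ : ℂ) * (star y ⬝ᵥ (S₂ *ᵥ (V *ᵥ c)))
                * (η⁻¹ * η) := by ring
            _ = 0 := by rw [inv_mul_cancel₀ hηne, mul_one]; exact h1
        have h5 := (mul_eq_zero.mp h4).resolve_right hηne
        linear_combination h5
      rw [h3] at h2
      rw [hMc]
      have h6 : (γ : ℂ) • (Vᴴ *ᵥ (S₂ *ᵥ (V *ᵥ c)) - (ℓ ⬝ᵥ c) • g)
          = -(((t - α * s : ℝ) : ℂ) • c) := by
        rw [smul_sub, smul_smul, sub_eq_iff_eq_add]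
        have h7 : (γ : ℂ) • Vᴴ *ᵥ (S₂ *ᵥ (V *ᵥ c)) = (((γ : ℂ) * (ℓ ⬝ᵥ c)) • g)
            - ((t - α * s : ℝ) : ℂ) • c := by
          rw [eq_sub_iff_add_eq, add_comm, ← sub_eq_zero]
          rw [neg_smul] at h2
          rw [← h2]
          abel
        rw [h7]
        abel
      have h8 : Vᴴ *ᵥ (S₂ *ᵥ (V *ᵥ c)) - (ℓ ⬝ᵥ c) • g
          = (γ : ℂ)⁻¹ • ((γ : ℂ) • (Vᴴ *ᵥ (S₂ *ᵥ (V *ᵥ c)) - (ℓ ⬝ᵥ c) • g)) := by
        rw [smul_smul, inv_mul_cancel₀ hγc, one_smul]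
      rw [h8, h6, smul_neg, smul_smul, ← neg_smul]
      congr 1
      push_cast
      field_simp
    -- infinitely many directions, finitely many eigenvalues
    have hch : ∀ u : U, ∃ (t : ℝ) (c : Fin k → ℂ), Good A (u : ℂ) t (V *ᵥ c) :=
      fun u => (hgood u u.2).2.2
    choose tt cc hcc using hch
    obtain ⟨F, hF⟩ : ∃ F : U → ℂ × Prop, F = fun u =>
      (((-((tt u - ((u : ℂ) / w).re * s) / ((u : ℂ) / w).im) : ℝ) : ℂ), 0 < ((u : ℂ) / w).im) :=
      ⟨_, rfl⟩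
    have hfin : (({μ : ℂ | Module.End.HasEigenvalue (Matrix.toLin' M) μ} : Set ℂ) ×ˢ
        (Set.univ : Set Prop)).Finite :=
      (Module.End.finite_hasEigenvalue _).prod Set.finite_univ
    haveI : Infinite U := hU.to_subtype
    obtain ⟨a, -, b, -, hab, hFab⟩ := Set.Infinite.exists_ne_map_eq_of_mapsTo
      (Set.infinite_univ (α := U)) (f := F) (t := ({μ : ℂ | Module.End.HasEigenvalue
        (Matrix.toLin' M) μ} : Set ℂ) ×ˢ (Set.univ : Set Prop)) (by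
        intro a _
        rw [hF]
        refine ⟨?_, Set.mem_univ _⟩
        apply Module.End.hasEigenvalue_of_hasEigenvector (x := cc a)
        rw [Module.End.hasEigenvector_iff, Module.End.mem_eigenspace_iff]
        refine ⟨?_, ?_⟩
        · rw [Matrix.toLin'_apply]
          exact heig _ _ _ (hcc a) (hgood a a.2).2.1
        · intro h0
          apply (hcc a).ne_zero
          rw [h0, Matrix.mulVec_zero]) hfin
    rw [hF] at hFab
    simp only [Prod.mk.injEq, Complex.ofReal_inj] at hFab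
    obtain ⟨hβ, hsign⟩ := hFab
    have hγa := (hgood a a.2).2.1
    have hγb := (hgood b b.2).2.1
    have hna := (hgood a a.2).1
    have hnb := (hgood b b.2).1
    have hga := hcc a
    have hgb := hcc b
    have hne : (a : ℂ) ≠ (b : ℂ) := fun h => hab (Subtype.ext h)
    generalize tt a = ta at hβ hga
    generalize tt b = tb at hβ hgb
    generalize cc a = ca at hga
    generalize cc b = cb at hgb
    generalize (a : ℂ) = ua at hβ hsign hγa hna hga hne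
    generalize (b : ℂ) = ub at hβ hsign hγb hnb hgb hne
    have hrpos : 0 < (ua / w).im / (ub / w).im := by
      by_cases hp : 0 < (ua / w).im
      · exact div_pos hp (hsign ▸ hp)
      · have hp' : ¬ 0 < (ub / w).im := by rw [← hsign]; exact hp
        apply div_pos_of_neg_of_neg
        · exact lt_of_le_of_ne (not_lt.mp hp) hγa
        · exact lt_of_le_of_ne (not_lt.mp hp') hγb
    obtain ⟨r, hr⟩ : ∃ r : ℝ, r = (ua / w).im / (ub / w).im := ⟨_, rfl⟩
    rw [← hr] at hrpos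
    have hγr : (ua / w).im = r * (ub / w).im := by rw [hr]; field_simp
    have hβr : ta - (ua / w).re * s = r * (tb - (ub / w).re * s) := by
      have h1 : (ta - (ua / w).re * s) / (ua / w).im = (tb - (ub / w).re * s) / (ub / w).im := by
        linarith
      rw [div_eq_div_iff hγa hγb, hγr] at h1
      have h2 : (ta - (ua / w).re * s) * (ub / w).im
          = (r * (tb - (ub / w).re * s)) * (ub / w).im := by rw [h1]; ring
      exact mul_right_cancel₀ hγb h2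
    have hkey : sm A ta ua = (r : ℂ) • sm A tb ub
        + (((ua / w).re - r * (ub / w).re : ℝ) : ℂ) • sm A s w := by
      rw [sm_expand A s ta w ua hw, sm_expand A s tb w ub hw, hβr, hγr]
      push_cast
      rw [smul_add, smul_add, smul_smul, smul_smul, smul_smul, sub_smul]
      abel
    have hopp : ∀ v v' : ℂ, (v / w).im ≠ 0 → v' = -v → (v' / w).im = - (v / w).im := by
      intro v v' _ h
      rw [h, neg_div, Complex.neg_im]
    rcases le_total 0 ((ua / w).re - r * (ub / w).re) with hκ | hκ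
    · rcases no_pair hga hna hnb hgb.adm hadm r _ hrpos hκ hkey with h1 | h1
      · exact hne h1.symm
      · have h2 := hopp ua ub hγa h1
        rw [h2] at hγr
        have : (1 + r) * (ua / w).im = 0 := by linarith
        rcases mul_eq_zero.mp this with h3 | h3
        · linarith
        · exact hγa h3
    · have hkey' : sm A tb ub = ((r⁻¹ : ℝ) : ℂ) • sm A ta ua
          + ((-(r⁻¹ * ((ua / w).re - r * (ub / w).re)) : ℝ) : ℂ) • sm A s w := by
        rw [hkey, smul_add, smul_smul, smul_smul]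
        have e1 : ((r⁻¹ : ℝ) : ℂ) * (r : ℂ) = 1 := by
          rw [← Complex.ofReal_mul, inv_mul_cancel₀ hrpos.ne', Complex.ofReal_one]
        rw [e1, one_smul, Complex.ofReal_neg, neg_smul, Complex.ofReal_mul]
        abel
      rcases no_pair hgb hnb hna hga.adm hadm r⁻¹ _ (inv_pos.mpr hrpos)
        (by
          have := mul_nonneg_of_nonpos_of_nonpos (a := -r⁻¹) (b := (ua / w).re - r * (ub / w).re)
            (by have := inv_pos.mpr hrpos; linarith) hκ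
          linarith) hkey' with h1 | h1
      · exact hne h1
      · have h2 := hopp ub ua hγb h1
        rw [h2] at hγr
        have : (1 + r) * (ub / w).im = 0 := by linarith
        rcases mul_eq_zero.mp this with h3 | h3
        · linarith
        · exact hγb h3
  -- so the two generators preserve the range
  have h0 : ∀ c, star y ⬝ᵥ (S₀ *ᵥ (V *ᵥ c)) = 0 := by
    intro c
    rw [hS0, dotProduct_smul, ← hη, hη0, smul_zero]
  have h2 : ∀ c, star y ⬝ᵥ (S₂ *ᵥ (V *ᵥ c)) = 0 := by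
    obtain ⟨N, hN⟩ : ∃ N : Submodule ℂ (Fin k → ℂ),
        ∀ c, c ∈ N ↔ star y ⬝ᵥ (S₂ *ᵥ (V *ᵥ c)) = 0 := by
      refine ⟨{ carrier := {c | star y ⬝ᵥ (S₂ *ᵥ (V *ᵥ c)) = 0}
                add_mem' := ?_
                zero_mem' := ?_
                smul_mem' := ?_ }, fun c => Iff.rfl⟩
      · intro a b ha hb
        simp only [Set.mem_ofPred_eq] at ha hb ⊢
        rw [Matrix.mulVec_add, Matrix.mulVec_add, dotProduct_add, ha, hb, add_zero]
      · simp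
      · intro z a ha
        simp only [Set.mem_ofPred_eq] at ha ⊢
        rw [Matrix.mulVec_smul, Matrix.mulVec_smul, dotProduct_smul, ha, smul_zero]
    have hNtop := hspan N (by
      intro u hu t c hgd
      rw [hN]
      have h1 := hE1 u t c hgd
      rw [hη0, mul_zero, zero_add] at h1
      have hγ := (hgood u hu).2.1
      exact (mul_eq_zero.mp h1).resolve_left (by exact_mod_cast hγ))
    intro c
    rw [← hN, hNtop]
    exact Submodule.mem_top
  -- back to A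
  have e0 : Hu A w = (s : ℂ) • (1 : Matrix ι ι ℂ) - S₀ := by
    rw [hS₀, sm, sub_sub_cancel]
  have e2 : Hu A (Complex.I * w) = - S₂ := by
    rw [hS₂, sm]; simp
  have a1 : w • A = Hu A w - Complex.I • Hu A (Complex.I * w) := by
    unfold Hu
    ext i j
    simp only [Matrix.smul_apply, Matrix.sub_apply, Matrix.add_apply, Matrix.conjTranspose_apply,
      smul_eq_mul, Complex.star_def, map_mul, Complex.conj_I]
    linear_combination ((1 / 2) * w * A i j - (1 / 2) * starRingEnd ℂ w * starRingEnd ℂ (A j i)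
      ) * (Complex.I_sq)
  have a2 : (starRingEnd ℂ w) • Aᴴ = Hu A w + Complex.I • Hu A (Complex.I * w) := by
    unfold Hu
    ext i j
    simp only [Matrix.smul_apply, Matrix.add_apply, Matrix.conjTranspose_apply,
      smul_eq_mul, Complex.star_def, map_mul, Complex.conj_I]
    linear_combination (-(1 / 2) * w * A i j + (1 / 2) * starRingEnd ℂ w * starRingEnd ℂ (A j i)
      ) * (Complex.I_sq)
  have b0 : star y ⬝ᵥ (Hu A w *ᵥ (V *ᵥ c)) = 0 := by
    rw [e0, Matrix.sub_mulVec, dotProduct_sub, Matrix.smul_mulVec, Matrix.one_mulVec,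
      dotProduct_smul, hyV, h0, smul_zero, sub_zero]
  have b2 : star y ⬝ᵥ (Hu A (Complex.I * w) *ᵥ (V *ᵥ c)) = 0 := by
    rw [e2, Matrix.neg_mulVec, dotProduct_neg, h2, neg_zero]
  constructor
  · have h3 : star y ⬝ᵥ ((w • A) *ᵥ (V *ᵥ c)) = 0 := by
      rw [a1, Matrix.sub_mulVec, dotProduct_sub, Matrix.smul_mulVec, dotProduct_smul, b0, b2,
        smul_zero, sub_zero]
    rw [Matrix.smul_mulVec, dotProduct_smul, smul_eq_mul] at h3
    exact (mul_eq_zero.mp h3).resolve_left hw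
  · have h3 : star y ⬝ᵥ (((starRingEnd ℂ w) • Aᴴ) *ᵥ (V *ᵥ c)) = 0 := by
      rw [a2, Matrix.add_mulVec, dotProduct_add, Matrix.smul_mulVec, dotProduct_smul, b0, b2,
        smul_zero, add_zero]
    rw [Matrix.smul_mulVec, dotProduct_smul, smul_eq_mul] at h3
    exact (mul_eq_zero.mp h3).resolve_left (fun h => hw ((map_eq_zero _).mp h))

end Pool.Agent.Helper84.NR
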