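import Pool.Agent.Helper84.NR.Four

set_option autoImplicit false

/-!
# Irreducible matrices of size at most four have a simple direction
-/

open Matrix
open scoped ComplexOrder

namespace Pool.Agent.Helper84.NR

open Pool.Agent.Helper774

theorem exists_scaled {V : Type*} [AddCommGroup V] [Module ℂ V] [FiniteDimensional ℂ V]
    (F1 F2 F3 F4 : Submodule ℂ V) (h12 : IsCompl F1 F2) (h32 : Disjoint F3 F2)
    (h31 : Disjoint F3 F1) (h24 : Disjoint F2 F4) (hF3 : 1 ≤ Module.finrank ℂ F3)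
    (hdim : Module.finrank ℂ F3 = Module.finrank ℂ (V ⧸ F4)) :
    ∃ x ∈ F1, ∃ y ∈ F2, ∃ μ : ℂ, x ≠ 0 ∧ y ≠ 0 ∧ x + y ∈ F3 ∧ x + μ • y ∈ F4 := by
  obtain ⟨P1, hP1⟩ : ∃ P1, P1 = F1.projection F2 h12 := ⟨_, rfl⟩
  obtain ⟨P2, hP2⟩ : ∃ P2, P2 = F2.projection F1 h12.symm := ⟨_, rfl⟩
  obtain ⟨Ta, hTa⟩ : ∃ Ta : F3 →ₗ[ℂ] V ⧸ F4, Ta = (F4.mkQ ∘ₗ P1) ∘ₗ F3.subtype := ⟨_, rfl⟩
  obtain ⟨Tb, hTb⟩ : ∃ Tb : F3 →ₗ[ℂ] V ⧸ F4, Tb = (F4.mkQ ∘ₗ P2) ∘ₗ F3.subtype := ⟨_, rfl⟩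
  have hP1z : ∀ v ∈ F3, P1 v = 0 → v = 0 := by
    intro v hv h0
    rw [hP1, Submodule.projection_apply_eq_zero_iff] at h0
    exact (Submodule.disjoint_def.mp h32) v hv h0
  have hP2z : ∀ v ∈ F3, P2 v = 0 → v = 0 := by
    intro v hv h0
    rw [hP2, Submodule.projection_apply_eq_zero_iff] at h0
    exact (Submodule.disjoint_def.mp h31) v hv h0
  have hinj : Function.Injective Tb := by
    rw [← LinearMap.ker_eq_bot, LinearMap.ker_eq_bot']
    intro v hv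
    rw [hTb] at hv
    have h1 : P2 v ∈ F4 := by
      have : F4.mkQ (P2 v) = 0 := hv
      rwa [Submodule.mkQ_apply, Submodule.Quotient.mk_eq_zero] at this
    have h2 : P2 v ∈ F2 := by rw [hP2]; exact Submodule.projection_apply_mem _ _
    have h3 := (Submodule.disjoint_def.mp h24) _ h2 h1
    exact Subtype.ext (hP2z v v.2 h3)
  haveI : Nontrivial F3 := Module.nontrivial_of_finrank_pos (R := ℂ) (by omega)
  obtain ⟨c, hc⟩ := Module.End.exists_eigenvalue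
    (((LinearMap.linearEquivOfInjective Tb hinj hdim).symm : (V ⧸ F4) →ₗ[ℂ] F3) ∘ₗ Ta)
  obtain ⟨v, hv⟩ := hc.exists_hasEigenvector
  have hv1 := hv.apply_eq_smul
  have hv0 : (v : V) ≠ 0 := by
    intro h
    exact hv.2 (Subtype.ext h)
  have h1 : Ta v = c • Tb v := by
    have h2 := congrArg (LinearMap.linearEquivOfInjective Tb hinj hdim) hv1
    rw [LinearMap.comp_apply, LinearEquiv.coe_coe, LinearEquiv.apply_symm_apply, map_smul,
      LinearMap.linearEquivOfInjective_apply] at h2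
    exact h2
  refine ⟨P1 v, by rw [hP1]; exact Submodule.projection_apply_mem _ _, P2 v,
    by rw [hP2]; exact Submodule.projection_apply_mem _ _, -c,
    fun h => hv0 (hP1z v v.2 h), fun h => hv0 (hP2z v v.2 h), ?_, ?_⟩
  · rw [hP1, hP2, Submodule.projection_add_projection_eq_self]
    exact v.2
  · have h2 : F4.mkQ (P1 v + (-c) • P2 v) = 0 := by
      rw [map_add, map_smul, neg_smul, ← sub_eq_add_neg, sub_eq_zero]
      rw [hTa, hTb] at h1
      exact h1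
    rwa [Submodule.mkQ_apply, Submodule.Quotient.mk_eq_zero] at h2

variable {ι : Type*} [Fintype ι] [DecidableEq ι]

theorem exists_simple_small {A : Matrix ι ι ℂ} [Nonempty ι] (hcard : Fintype.card ι ≤ 4)
    (hnj : ∀ x : ι → ℂ, star x ⬝ᵥ x = 1 → ¬ ∃ a a' : ℂ, A *ᵥ x = a • x ∧ Aᴴ *ᵥ x = a' • x)
    (hirr : ∀ P : Matrix ι ι ℂ, Pᴴ = P → P * P = P → A * P = P * A → P = 0 ∨ P = 1) :
    ∃ (u : ℂ) (t : ℝ) (x : ι → ℂ), ‖u‖ = 1 ∧ Good A u t x := by
  by_contra hcon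
  have hcon' : ∀ u : ℂ, ‖u‖ = 1 → ¬ ∃ (t : ℝ) (x : ι → ℂ), Good A u t x := by
    intro u hu ⟨t, x, h⟩
    exact hcon ⟨u, t, x, hu, h⟩
  have hne : (MW A).Nonempty := by
    obtain ⟨i⟩ := ‹Nonempty ι›
    exact ⟨_, Pi.single i 1, by simp, rfl⟩
  obtain ⟨u3, hu3⟩ : ∃ u3 : ℂ, u3 = ⟨3 / 5, 4 / 5⟩ := ⟨_, rfl⟩
  obtain ⟨u4, hu4⟩ : ∃ u4 : ℂ, u4 = ⟨4 / 5, 3 / 5⟩ := ⟨_, rfl⟩
  have hn3 : ‖u3‖ = 1 := by
    rw [hu3, Complex.norm_def, Complex.normSq_mk]; norm_num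
  have hn4 : ‖u4‖ = 1 := by
    rw [hu4, Complex.norm_def, Complex.normSq_mk]; norm_num
  obtain ⟨t1, ha1, hf1⟩ := ker_of_nonsimple hne hnj 1 (hcon' 1 (by simp))
  obtain ⟨t2, ha2, hf2⟩ := ker_of_nonsimple hne hnj Complex.I (hcon' _ (by simp))
  obtain ⟨t3, ha3, hf3⟩ := ker_of_nonsimple hne hnj u3 (hcon' _ hn3)
  obtain ⟨t4, ha4, hf4⟩ := ker_of_nonsimple hne hnj u4 (hcon' _ hn4)
  have hdis : ∀ (t t' : ℝ) (u w : ℂ), w * starRingEnd ℂ u - starRingEnd ℂ w * u ≠ 0 →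
      Disjoint (kerS A t u) (kerS A t' w) := by
    intro t t' u w hD
    rw [Submodule.disjoint_def]
    intro x h1 h2
    exact ker_inf hnj hD x (mem_kerS.mp h1) (mem_kerS.mp h2)
  have hD12 : Complex.I * starRingEnd ℂ 1 - starRingEnd ℂ Complex.I * 1 ≠ 0 := by
    intro h
    have := congrArg Complex.im h
    simp at this
  have hD13 : u3 * starRingEnd ℂ 1 - starRingEnd ℂ u3 * 1 ≠ 0 := by
    intro h
    have := congrArg Complex.im h
    simp [hu3] at this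
  have hD23 : u3 * starRingEnd ℂ Complex.I - starRingEnd ℂ u3 * Complex.I ≠ 0 := by
    intro h
    have := congrArg Complex.im h
    simp [hu3] at this
    norm_num at this
  have hD24 : u4 * starRingEnd ℂ Complex.I - starRingEnd ℂ u4 * Complex.I ≠ 0 := by
    intro h
    have := congrArg Complex.im h
    simp [hu4] at this
    norm_num at this
  have hd12 := hdis t1 t2 1 Complex.I hD12
  have hd13 := hdis t1 t3 1 u3 hD13
  have hd23 := hdis t2 t3 Complex.I u3 hD23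
  have hd24 := hdis t2 t4 Complex.I u4 hD24
  have hV : Module.finrank ℂ (ι → ℂ) = Fintype.card ι := Module.finrank_fintype_fun_eq_card ℂ
  have hs12 := Submodule.finrank_add_finrank_le_of_disjoint hd12
  have hs13 := Submodule.finrank_add_finrank_le_of_disjoint hd13
  have hs24 := Submodule.finrank_add_finrank_le_of_disjoint hd24
  have hF4 : Module.finrank ℂ ((ι → ℂ) ⧸ kerS A t4 u4) = 2 := by
    have := Submodule.finrank_quotient_add_finrank (kerS A t4 u4)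
    omega
  have hcompl : IsCompl (kerS A t1 1) (kerS A t2 Complex.I) :=
    ⟨hd12, codisjoint_iff.mpr (Submodule.eq_top_of_disjoint _ _ (by omega) hd12)⟩
  obtain ⟨x, hx, y, hy, μ, hx0, hy0, h3, h4⟩ := exists_scaled (kerS A t1 1) (kerS A t2 Complex.I)
    (kerS A t3 u3) (kerS A t4 u4) hcompl hd23.symm hd13.symm hd24 (by omega) (by omega)
  rw [mem_kerS] at hx hy h3 h4
  obtain ⟨S1, hS1⟩ : ∃ S1, S1 = sm A t1 1 := ⟨_, rfl⟩
  obtain ⟨S2, hS2⟩ : ∃ S2, S2 = sm A t2 Complex.I := ⟨_, rfl⟩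
  have hone : sm A 1 0 = (1 : Matrix ι ι ℂ) := by
    rw [sm, Hu]; simp
  obtain ⟨γ, hγ⟩ : ∃ γ : ℝ, γ = t3 - 3 / 5 * t1 - 4 / 5 * t2 := ⟨_, rfl⟩
  obtain ⟨γ', hγ'⟩ : ∃ γ' : ℝ, γ' = t4 - 4 / 5 * t1 - 3 / 5 * t2 := ⟨_, rfl⟩
  have hS3 : sm A t3 u3 = ((3 / 5 : ℝ) : ℂ) • S1 + (((4 / 5 : ℝ) : ℂ) • S2
      + ((γ : ℝ) : ℂ) • (1 : Matrix ι ι ℂ)) := by
    rw [hS1, hS2, ← hone, ← sm_smul, ← sm_smul, ← sm_smul, ← sm_add, ← sm_add]
    congr 1
    · rw [hγ]; ring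
    · rw [hu3]
      apply Complex.ext <;> simp
  have hS4 : sm A t4 u4 = ((4 / 5 : ℝ) : ℂ) • S1 + (((3 / 5 : ℝ) : ℂ) • S2
      + ((γ' : ℝ) : ℂ) • (1 : Matrix ι ι ℂ)) := by
    rw [hS1, hS2, ← hone, ← sm_smul, ← sm_smul, ← sm_smul, ← sm_add, ← sm_add]
    congr 1
    · rw [hγ']; ring
    · rw [hu4]
      apply Complex.ext <;> simp
  rw [← hS1] at hx
  rw [← hS2] at hy
  -- the constants do not vanish
  have hnz : ∀ (a b : ℝ) (S : Matrix ι ι ℂ) (v : ι → ℂ), 0 < a → 0 < b →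
      S = ((a : ℝ) : ℂ) • S1 + ((b : ℝ) : ℂ) • S2 → S *ᵥ v = 0 → v = 0 := by
    intro a b S v ha hb hS hv
    have h5 : (star v ⬝ᵥ (S *ᵥ v)).re = 0 := by rw [hv, dotProduct_zero, Complex.zero_re]
    rw [hS, Matrix.add_mulVec, dotProduct_add, smul_form, smul_form, Complex.add_re,
      Complex.re_ofReal_mul, Complex.re_ofReal_mul, hS1, hS2] at h5
    have h6 := ha1.nonneg v
    have h7 := ha2.nonneg v
    have h8 : (star v ⬝ᵥ (sm A t1 1 *ᵥ v)).re = 0 := by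
      have p1 := mul_nonneg ha.le h6
      have p2 := mul_nonneg hb.le h7
      have p3 : a * (star v ⬝ᵥ (sm A t1 1 *ᵥ v)).re = 0 := by linarith
      rcases mul_eq_zero.mp p3 with h | h
      · exact absurd h ha.ne'
      · exact h
    have h9 : (star v ⬝ᵥ (sm A t2 Complex.I *ᵥ v)).re = 0 := by
      have p1 := mul_nonneg ha.le h6
      have p2 := mul_nonneg hb.le h7
      have p3 : b * (star v ⬝ᵥ (sm A t2 Complex.I *ᵥ v)).re = 0 := by linarith
      rcases mul_eq_zero.mp p3 with h | h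
      · exact absurd h hb.ne'
      · exact h
    exact ker_inf hnj hD12 v (ha1.kernel v h8) (ha2.kernel v h9)
  have hxy : x + y ≠ 0 := by
    intro h
    have h5 : y = -x := by rw [eq_neg_iff_add_eq_zero, add_comm]; exact h
    exact hy0 (ker_inf (t := t1) (t' := t2) hnj hD12 y
      (by rw [← hS1, h5, Matrix.mulVec_neg, hx, neg_zero]) (by rw [← hS2]; exact hy))
  have hγ0 : γ ≠ 0 := by
    intro h
    apply hxy
    apply hnz (3 / 5) (4 / 5) _ _ (by norm_num) (by norm_num) _ h3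
    rw [hS3, h, Complex.ofReal_zero, zero_smul, add_zero]
  have hγ'0 : γ' ≠ 0 := by
    intro h
    have h5 : x + μ • y = 0 := by
      apply hnz (4 / 5) (3 / 5) _ _ (by norm_num) (by norm_num) _ h4
      rw [hS4, h, Complex.ofReal_zero, zero_smul, add_zero]
    have h6 : x = -(μ • y) := by rw [eq_neg_iff_add_eq_zero]; exact h5
    exact hx0 (ker_inf (t := t1) (t' := t2) hnj hD12 x (by rw [← hS1]; exact hx)
      (by rw [← hS2, h6, Matrix.mulVec_neg, Matrix.mulVec_smul, hy, smul_zero, neg_zero]))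
  have hγc : (γ : ℂ) ≠ 0 := by exact_mod_cast hγ0
  have hγ'c : (γ' : ℂ) ≠ 0 := by exact_mod_cast hγ'0
  -- the two relations
  have r3 : (3 / 5 : ℂ) • (S1 *ᵥ y) + (4 / 5 : ℂ) • (S2 *ᵥ x) + (γ : ℂ) • (x + y) = 0 := by
    have h5 := h3
    rw [hS3, Matrix.add_mulVec, Matrix.add_mulVec, Matrix.smul_mulVec, Matrix.smul_mulVec,
      Matrix.smul_mulVec, Matrix.one_mulVec, Matrix.mulVec_add, Matrix.mulVec_add, hx, hy,
      zero_add, add_zero] at h5
    rw [← h5]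
    push_cast
    abel
  have r4 : (4 / 5 : ℂ) • (μ • (S1 *ᵥ y)) + (3 / 5 : ℂ) • (S2 *ᵥ x) + (γ' : ℂ) • (x + μ • y)
      = 0 := by
    have h5 := h4
    rw [hS4, Matrix.add_mulVec, Matrix.add_mulVec, Matrix.smul_mulVec, Matrix.smul_mulVec,
      Matrix.smul_mulVec, Matrix.one_mulVec, Matrix.mulVec_add, Matrix.mulVec_add,
      Matrix.mulVec_smul, Matrix.mulVec_smul, hx, hy, zero_add, smul_zero, add_zero] at h5
    rw [← h5]
    push_cast
    abel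
  -- linear independence of x and y
  have hind : ∀ a b : ℂ, a • x + b • y = 0 → a = 0 ∧ b = 0 := by
    intro a b hab
    have h5 : a • x = 0 := by
      apply ker_inf (t := t1) (t' := t2) hnj hD12 (a • x)
      · rw [← hS1, Matrix.mulVec_smul, hx, smul_zero]
      · have h6 : a • x = -(b • y) := by rw [eq_neg_iff_add_eq_zero]; exact hab
        rw [← hS2, h6, Matrix.mulVec_neg, Matrix.mulVec_smul, hy, smul_zero, neg_zero]
    rw [h5, zero_add] at hab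
    exact ⟨(smul_eq_zero.mp h5).resolve_right hx0, (smul_eq_zero.mp hab).resolve_right hy0⟩
  have hΔ : (16 / 25 : ℂ) * μ - 9 / 25 ≠ 0 := by
    intro hΔ
    have h5 : ((3 / 5 : ℂ) * γ - (4 / 5) * γ') • x + ((3 / 5 : ℂ) * γ - (4 / 5) * γ' * μ) • y
        = 0 := by
      have e1 := congrArg (fun z => (3 / 5 : ℂ) • z) r3
      have e2 := congrArg (fun z => (4 / 5 : ℂ) • z) r4
      simp only [smul_zero] at e1 e2
      have e3 : (3 / 5 : ℂ) • ((3 / 5 : ℂ) • (S1 *ᵥ y) + (4 / 5 : ℂ) • (S2 *ᵥ x)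
          + (γ : ℂ) • (x + y)) - (4 / 5 : ℂ) • ((4 / 5 : ℂ) • (μ • (S1 *ᵥ y))
          + (3 / 5 : ℂ) • (S2 *ᵥ x) + (γ' : ℂ) • (x + μ • y))
          = ((3 / 5 : ℂ) * γ - (4 / 5) * γ') • x + ((3 / 5 : ℂ) * γ - (4 / 5) * γ' * μ) • y
            - ((16 / 25 : ℂ) * μ - 9 / 25) • (S1 *ᵥ y) := by
        module
      rw [e1, e2, hΔ, zero_smul, sub_zero, sub_zero] at e3
      exact e3.symm
    obtain ⟨h6, h7⟩ := hind _ _ h5
    have h8 : γ' * (μ - 1) = 0 := by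
      have : (4 / 5 : ℂ) * (γ' * (μ - 1)) = 0 := by linear_combination h6 - h7
      rcases mul_eq_zero.mp this with h | h
      · norm_num at h
      · exact h
    rcases mul_eq_zero.mp h8 with h | h
    · exact hγ'c h
    · have : μ = 1 := sub_eq_zero.mp h
      rw [this] at hΔ
      norm_num at hΔ
  -- S1 y and S2 x are combinations of x and y
  obtain ⟨W, hW⟩ : ∃ W : Submodule ℂ (ι → ℂ), W = Submodule.span ℂ {x, y} := ⟨_, rfl⟩
  have hxW : x ∈ W := by rw [hW]; exact Submodule.subset_span (by simp)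
  have hyW : y ∈ W := by rw [hW]; exact Submodule.subset_span (by simp)
  have hS1y : S1 *ᵥ y ∈ W := by
    have e3 : ((16 / 25 : ℂ) * μ - 9 / 25) • (S1 *ᵥ y)
        = ((3 / 5 : ℂ) * γ - (4 / 5) * γ') • x + ((3 / 5 : ℂ) * γ - (4 / 5) * γ' * μ) • y := by
      have e4 : ((16 / 25 : ℂ) * μ - 9 / 25) • (S1 *ᵥ y)
          = ((3 / 5 : ℂ) * γ - (4 / 5) * γ') • x + ((3 / 5 : ℂ) * γ - (4 / 5) * γ' * μ) • y
            - ((3 / 5 : ℂ) • ((3 / 5 : ℂ) • (S1 *ᵥ y) + (4 / 5 : ℂ) • (S2 *ᵥ x)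
          + (γ : ℂ) • (x + y)) - (4 / 5 : ℂ) • ((4 / 5 : ℂ) • (μ • (S1 *ᵥ y))
          + (3 / 5 : ℂ) • (S2 *ᵥ x) + (γ' : ℂ) • (x + μ • y))) := by
        module
      rw [r3, r4, smul_zero, smul_zero, sub_zero, sub_zero] at e4
      exact e4
    have e5 : S1 *ᵥ y = ((16 / 25 : ℂ) * μ - 9 / 25)⁻¹ • (((16 / 25 : ℂ) * μ - 9 / 25)
        • (S1 *ᵥ y)) := by rw [smul_smul, inv_mul_cancel₀ hΔ, one_smul]
    rw [e5, e3]
    exact W.smul_mem _ (W.add_mem (W.smul_mem _ hxW) (W.smul_mem _ hyW))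
  have hS2x : S2 *ᵥ x ∈ W := by
    have e3 : S2 *ᵥ x = (-(3 / 4) : ℂ) • (S1 *ᵥ y) + (-(5 / 4) * γ : ℂ) • (x + y) := by
      have e4 : S2 *ᵥ x = (-(3 / 4) : ℂ) • (S1 *ᵥ y) + (-(5 / 4) * γ : ℂ) • (x + y)
          + (5 / 4 : ℂ) • ((3 / 5 : ℂ) • (S1 *ᵥ y) + (4 / 5 : ℂ) • (S2 *ᵥ x)
          + (γ : ℂ) • (x + y)) := by
        module
      rw [r3, smul_zero, add_zero] at e4
      exact e4
    rw [e3]
    exact W.add_mem (W.smul_mem _ hS1y) (W.smul_mem _ (W.add_mem hxW hyW))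
  have hinv : ∀ (M : Matrix ι ι ℂ), M *ᵥ x ∈ W → M *ᵥ y ∈ W → ∀ z ∈ W, M *ᵥ z ∈ W := by
    intro M h1 h2 z hz
    rw [hW, Submodule.mem_span_pair] at hz
    obtain ⟨a, b, rfl⟩ := hz
    rw [Matrix.mulVec_add, Matrix.mulVec_smul, Matrix.mulVec_smul]
    exact W.add_mem (W.smul_mem _ h1) (W.smul_mem _ h2)
  have hi1 := hinv S1 (by rw [hx]; exact W.zero_mem) hS1y
  have hi2 := hinv S2 hS2x (by rw [hy]; exact W.zero_mem)
  have a1 : A = ((t1 : ℂ) • (1 : Matrix ι ι ℂ) - S1)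
      - Complex.I • ((t2 : ℂ) • (1 : Matrix ι ι ℂ) - S2) := by
    rw [hS1, hS2, sm, sm, sub_sub_cancel, sub_sub_cancel]
    unfold Hu
    ext i j
    simp only [Matrix.smul_apply, Matrix.sub_apply, Matrix.add_apply, Matrix.conjTranspose_apply,
      smul_eq_mul, Complex.star_def, map_mul, Complex.conj_I, map_one, one_mul]
    linear_combination ((1 / 2) * A i j - (1 / 2) * starRingEnd ℂ (A j i)) * (Complex.I_sq)
  have a2 : Aᴴ = ((t1 : ℂ) • (1 : Matrix ι ι ℂ) - S1)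
      + Complex.I • ((t2 : ℂ) • (1 : Matrix ι ι ℂ) - S2) := by
    rw [hS1, hS2, sm, sm, sub_sub_cancel, sub_sub_cancel]
    unfold Hu
    ext i j
    simp only [Matrix.smul_apply, Matrix.add_apply, Matrix.conjTranspose_apply,
      smul_eq_mul, Complex.star_def, map_mul, Complex.conj_I, map_one, one_mul]
    linear_combination (-(1 / 2) * A i j + (1 / 2) * starRingEnd ℂ (A j i)) * (Complex.I_sq)
  have hAW : ∀ z ∈ W, A *ᵥ z ∈ W := by
    intro z hz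
    rw [a1, Matrix.sub_mulVec, Matrix.sub_mulVec, Matrix.smul_mulVec, Matrix.smul_mulVec,
      Matrix.sub_mulVec, Matrix.smul_mulVec, Matrix.one_mulVec]
    exact W.sub_mem (W.sub_mem (W.smul_mem _ hz) (hi1 z hz))
      (W.smul_mem _ (W.sub_mem (W.smul_mem _ hz) (hi2 z hz)))
  have hAHW : ∀ z ∈ W, Aᴴ *ᵥ z ∈ W := by
    intro z hz
    rw [a2, Matrix.add_mulVec, Matrix.sub_mulVec, Matrix.smul_mulVec, Matrix.smul_mulVec,
      Matrix.sub_mulVec, Matrix.smul_mulVec, Matrix.one_mulVec]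
    exact W.add_mem (W.sub_mem (W.smul_mem _ hz) (hi1 z hz))
      (W.smul_mem _ (W.sub_mem (W.smul_mem _ hz) (hi2 z hz)))
  obtain ⟨k, V, hVV, hVr, hVs⟩ := iso_of_set ({x, y} : Set (ι → ℂ))
  rw [← hW] at hVs
  have hVW : ∀ z ∈ W, z = V *ᵥ (Vᴴ *ᵥ z) := by
    intro z hz
    rw [hW] at hz
    refine Submodule.span_induction (p := fun z _ => z = V *ᵥ (Vᴴ *ᵥ z)) ?_ ?_ ?_ ?_ hz
    · intro z hz
      obtain ⟨d, hd⟩ := hVr z hz
      rw [hd, Matrix.mulVec_mulVec d Vᴴ V, hVV, Matrix.one_mulVec]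
    · simp
    · intro a b _ _ ha hb
      rw [Matrix.mulVec_add, Matrix.mulVec_add, ← ha, ← hb]
    · intro r a _ ha
      rw [Matrix.mulVec_smul, Matrix.mulVec_smul, ← ha]
  have hperp : ∀ M : Matrix ι ι ℂ, (∀ z ∈ W, M *ᵥ z ∈ W) → ∀ y' : ι → ℂ, Vᴴ *ᵥ y' = 0 →
      ∀ c, star y' ⬝ᵥ (M *ᵥ (V *ᵥ c)) = 0 := by
    intro M hM y' hy' c
    rw [hVW _ (hM _ (hVs c)), Matrix.dotProduct_mulVec]
    have : star y' ᵥ* V = star (Vᴴ *ᵥ y') := by
      rw [Matrix.star_mulVec, conjTranspose_conjTranspose]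
    rw [this, hy', star_zero, zero_dotProduct]
  have hcomm := comm_of_range V A (range_of_perp V hVV A (hperp A hAW))
    (range_of_perp V hVV Aᴴ (hperp Aᴴ hAHW))
  rcases hirr (V * Vᴴ) (by rw [conjTranspose_mul, conjTranspose_conjTranspose]) (by
      rw [Matrix.mul_assoc, ← Matrix.mul_assoc Vᴴ, hVV, Matrix.one_mul]) hcomm with h | h
  · apply hx0
    rw [hVW x hxW, Matrix.mulVec_mulVec, h, Matrix.zero_mulVec]
  · have htop : W = ⊤ := by
      rw [eq_top_iff]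
      intro z _
      have : z = V *ᵥ (Vᴴ *ᵥ z) := by rw [Matrix.mulVec_mulVec, h, Matrix.one_mulVec]
      rw [this]
      exact hVs _
    have h5 : Module.finrank ℂ W ≤ 2 := by
      rw [hW]
      have := finrank_span_finset_le_card (R := ℂ) ({x, y} : Finset (ι → ℂ))
      rw [Set.finrank] at this
      have e : ((({x, y} : Finset (ι → ℂ)) : Set (ι → ℂ))) = ({x, y} : Set (ι → ℂ)) := by simp
      rw [e] at this
      exact this.trans Finset.card_le_two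
    rw [htop, finrank_top] at h5
    omega

end Pool.Agent.Helper84.NR
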