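import Pool.Agent.Helper84.NR.Nec

set_option autoImplicit false

/-!
# The classification
-/

open Matrix
open scoped ComplexOrder

namespace Pool.Agent.Helper84.NR

open Pool.Agent.Helper774

variable {ι : Type*} [Fintype ι] [DecidableEq ι]

theorem not_mul_of_li {k : ℕ} {f : Fin k → ι → ℂ} (hli : LinearIndependent ℂ f) (i j : Fin k)
    (hij : i ≠ j) : ¬ ∃ c : ℂ, f j = c • f i := by
  rintro ⟨c, hc⟩
  have h2 : LinearIndependent ℂ ![f i, f j] := by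
    have h := hli.comp ![i, j] (by
      intro a b hab
      fin_cases a <;> fin_cases b <;> simp_all [hij.symm])
    have e : f ∘ ![i, j] = ![f i, f j] := by
      funext a
      fin_cases a <;> rfl
    rwa [e] at h
  have h3 := LinearIndependent.pair_iff.mp h2 (-c) 1 (by rw [hc]; simp)
  exact one_ne_zero h3.2

theorem two_independent {A : Matrix ι ι ℂ} (hd : DensTop A) :
    ∃ (u₁ u₂ : ℂ) (t₁ t₂ : ℝ) (x₁ x₂ : ι → ℂ), ‖u₁‖ = 1 ∧ ‖u₂‖ = 1 ∧ Good A u₁ t₁ x₁ ∧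
      Good A u₂ t₂ x₂ ∧ ¬ ∃ c : ℂ, x₂ = c • x₁ := by
  obtain ⟨u1, hu1, _, t1, x1, h1⟩ := hd 1 norm_one 1 one_pos
  obtain ⟨u2, hu2, hu2', t2, x2, h2⟩ := hd (Complex.I * u1) (by
    rw [norm_mul, Complex.norm_I, hu1, one_mul]) (1 / 2) (by norm_num)
  refine ⟨u1, u2, t1, t2, x1, x2, hu1, hu2, h1, h2, ?_⟩
  rintro ⟨c, hc⟩
  have hc0 : c ≠ 0 := by
    rintro rfl
    exact h2.ne_zero (by rw [hc, zero_smul])
  have h3 : sm A t2 u2 *ᵥ x1 = 0 := by
    have h4 := h2.sm_zero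
    rw [hc, Matrix.mulVec_smul] at h4
    exact (smul_eq_zero.mp h4).resolve_left hc0
  obtain ⟨r, _, hr⟩ := h1.ker_line hu1 t2 u2 h3
  rw [hr, ← sub_mul, norm_mul, hu1, mul_one] at hu2'
  have h5 : 1 ≤ ‖(r : ℂ) - Complex.I‖ := by
    have := Complex.abs_im_le_norm ((r : ℂ) - Complex.I)
    simpa using this
  linarith

theorem real_form {S : Matrix ι ι ℂ} (hS : S.IsHermitian) (y : ι → ℂ) :
    star y ⬝ᵥ (S *ᵥ y) = (((star y ⬝ᵥ (S *ᵥ y)).re : ℝ) : ℂ) := by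
  have := herm_swap hS y y
  exact (Complex.conj_eq_iff_re.mp this.symm).symm

theorem necessity {A : Matrix ι ι ℂ} (hD : FinPropD A) (hd : DensTop A) :
    ∃ (k : ℕ) (V : Matrix ι (Fin k) ℂ), 2 ≤ k ∧ Vᴴ * V = 1 ∧ MW (Vᴴ * A * V) = MW A ∧
      A * (V * Vᴴ) = (V * Vᴴ) * A ∧
      ∃ (u : ℂ) (lam : ℝ) (g : Fin k → ℂ), u ≠ 0 ∧ g ≠ 0 ∧
        (u • (Vᴴ * A * V)) + (u • (Vᴴ * A * V))ᴴ =
          (2 : ℂ) • ((lam : ℂ) • 1 - vecMulVec g (star g)) := by
  obtain ⟨S, hS⟩ : ∃ S : Set (ι → ℂ), S = {x | ∃ (u : ℂ) (t : ℝ), ‖u‖ = 1 ∧ Good A u t x} :=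
    ⟨_, rfl⟩
  obtain ⟨f, hfS, hspan, hli⟩ := Submodule.exists_fun_fin_finrank_span_eq ℂ S
  -- the rank is at least two
  have hk2 : 2 ≤ Module.finrank ℂ (Submodule.span ℂ S) := by
    obtain ⟨u₁, u₂, t₁, t₂, x₁, x₂, hu₁, hu₂, h₁, h₂, hne⟩ := two_independent hd
    have hli2 : LinearIndependent ℂ ![x₁, x₂] := by
      rw [LinearIndependent.pair_iff]
      intro a b hab
      have hb : b = 0 := by
        by_contra hb
        apply hne
        refine ⟨-(b⁻¹ * a), ?_⟩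
        have : b • x₂ = -(a • x₁) := by
          rw [eq_neg_iff_add_eq_zero, add_comm]; exact hab
        have h3 : x₂ = b⁻¹ • (b • x₂) := by rw [smul_smul, inv_mul_cancel₀ hb, one_smul]
        rw [h3, this, smul_neg, smul_smul, neg_smul]
      rw [hb, zero_smul, add_zero] at hab
      exact ⟨(smul_eq_zero.mp hab).resolve_right h₁.ne_zero, hb⟩
    have h3 : Module.finrank ℂ (Submodule.span ℂ (Set.range ![x₁, x₂])) = 2 := by
      rw [finrank_span_eq_card hli2]; simp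
    refine h3.symm.le.trans (Submodule.finrank_mono ?_)
    rw [Submodule.span_le]
    rintro y ⟨i, rfl⟩
    fin_cases i
    · apply Submodule.subset_span
      rw [hS]
      exact ⟨u₁, t₁, hu₁, h₁⟩
    · apply Submodule.subset_span
      rw [hS]
      exact ⟨u₂, t₂, hu₂, h₂⟩
  generalize Module.finrank ℂ (Submodule.span ℂ S) = k at f hfS hspan hli hk2
  have hfS' : ∀ i, ∃ (u : ℂ) (t : ℝ), ‖u‖ = 1 ∧ Good A u t (f i) := by
    intro i
    have := hfS i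
    rw [hS] at this
    exact this
  choose u t hu hgood using hfS'
  have hind := not_mul_of_li hli
  -- the isometry
  have hinj : Function.Injective (colMat f).mulVec := by
    rw [Matrix.mulVec_injective_iff]
    exact hli
  obtain ⟨R₀, S₀, hRS, hSR, hGR⟩ := exists_factor ((colMat f)ᴴ * colMat f)
    (Matrix.PosDef.conjTranspose_mul_self _ hinj)
  obtain ⟨V, hVd⟩ : ∃ V, V = colMat f * S₀ := ⟨_, rfl⟩
  have hSR' : S₀ᴴ * R₀ᴴ = 1 := by
    rw [← conjTranspose_mul, hRS, conjTranspose_one]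
  have hRS' : R₀ᴴ * S₀ᴴ = 1 := by
    rw [← conjTranspose_mul, hSR, conjTranspose_one]
  have hV : Vᴴ * V = 1 := by
    rw [hVd, conjTranspose_mul]
    calc S₀ᴴ * (colMat f)ᴴ * (colMat f * S₀) = S₀ᴴ * ((colMat f)ᴴ * colMat f) * S₀ := by
          simp only [Matrix.mul_assoc]
      _ = (S₀ᴴ * R₀ᴴ) * (R₀ * S₀) := by rw [hGR]; simp only [Matrix.mul_assoc]
      _ = 1 := by rw [hSR', hRS, Matrix.one_mul]
  have hXV : colMat f = V * R₀ := by rw [hVd, Matrix.mul_assoc, hSR, Matrix.mul_one]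
  have hrange : ∀ (u : ℂ) (t : ℝ) (x : ι → ℂ), ‖u‖ = 1 → Good A u t x → ∃ y, x = V *ᵥ y := by
    intro u' t' x hu' h
    have h1 : x ∈ Submodule.span ℂ (Set.range f) := by
      rw [hspan]
      apply Submodule.subset_span
      rw [hS]
      exact ⟨u', t', hu', h⟩
    obtain ⟨c, hc⟩ := (Submodule.mem_span_range_iff_exists_fun ℂ).mp h1
    refine ⟨R₀ *ᵥ c, ?_⟩
    rw [Matrix.mulVec_mulVec, ← hXV, colMat_mulVec, hc]
  have hi0 : 0 < k := by omega
  have hi1 : 1 < k := by omega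
  have hk1 : 1 ≤ Fintype.card (Fin k) := by rw [Fintype.card_fin]; omega
  obtain ⟨s, w, hadm, hnorm, hm⟩ := exists_minor_zero (hD 2) (hD k) u t f hu hgood hind hk1
  have hne01 : (⟨0, hi0⟩ : Fin k) ≠ ⟨1, hi1⟩ := by
    intro h
    have := congrArg Fin.val h
    simp at this
  obtain ⟨i₀, hi₀⟩ : ∃ i₀, (star (f i₀) ⬝ᵥ (sm A s w *ᵥ f i₀)).re ≠ 0 := by
    by_contra hc
    push Not at hc
    have h0 := hadm.kernel _ (hc ⟨0, hi0⟩)
    have h1 := hadm.kernel _ (hc ⟨1, hi1⟩)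
    obtain ⟨r, hr1, hr2⟩ := (hgood ⟨0, hi0⟩).ker_line (hu _) s w h0
    have hr : r ≠ 0 := by
      rintro rfl
      rw [hr1, hr2] at hnorm
      simp at hnorm
    rw [hr1, hr2, sm_smul, Matrix.smul_mulVec] at h1
    have h2 := (smul_eq_zero.mp h1).resolve_left (by exact_mod_cast hr)
    exact hind _ _ hne01 ((hgood ⟨0, hi0⟩).kernel _ h2)
  have hrk := rank_one_of_minors hadm.psd f hm i₀ hi₀
  obtain ⟨μ, hμ⟩ : ∃ μ, μ = (star (f i₀) ⬝ᵥ (sm A s w *ᵥ f i₀)).re := ⟨_, rfl⟩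
  have hμ0 : μ ≠ 0 := by rw [hμ]; exact hi₀
  have hμpos : 0 < μ := lt_of_le_of_ne (by rw [hμ]; exact hadm.nonneg _) (Ne.symm hμ0)
  have hμc : star (f i₀) ⬝ᵥ (sm A s w *ᵥ f i₀) = (μ : ℂ) := by
    rw [hμ]; exact real_form (sm_herm A s w) _
  -- the direction is not degenerate
  have hw : w ≠ 0 := by
    rintro rfl
    have hs : s ≠ 0 := by
      rintro rfl
      simp at hnorm
    have hsm : sm A s 0 = (s : ℂ) • (1 : Matrix ι ι ℂ) := by
      rw [sm, Hu]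
      simp
    obtain ⟨j, hj⟩ : ∃ j, i₀ ≠ j := by
      by_cases h : i₀ = ⟨0, hi0⟩
      · exact ⟨⟨1, hi1⟩, by rw [h]; exact hne01⟩
      · exact ⟨_, h⟩
    have h1 := hrk j
    rw [hsm, Matrix.smul_mulVec, Matrix.one_mulVec] at h1
    have h2 := (smul_eq_zero.mp h1).resolve_left (by exact_mod_cast hs)
    exact hind _ _ hj ⟨_, sub_eq_zero.mp h2⟩
  obtain ⟨σ, hσ⟩ : ∃ σ, σ = Real.sqrt μ := ⟨_, rfl⟩
  have hσpos : 0 < σ := by rw [hσ]; exact Real.sqrt_pos.mpr hμpos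
  have hσσ : (σ : ℂ) * σ = (μ : ℂ) := by
    rw [← Complex.ofReal_mul, hσ, Real.mul_self_sqrt hμpos.le]
  have hσc : (σ : ℂ) ≠ 0 := by exact_mod_cast hσpos.ne'
  have hμcne : (μ : ℂ) ≠ 0 := by exact_mod_cast hμ0
  obtain ⟨g, hg⟩ : ∃ g : Fin k → ℂ, g = fun j => star (f j) ⬝ᵥ (sm A s w *ᵥ f i₀) / (σ : ℂ) :=
    ⟨_, rfl⟩
  have hΓ : (colMat f)ᴴ * sm A s w * colMat f = vecMulVec g (star g) := by
    ext l j
    have h1 := hrk j
    rw [Matrix.mulVec_sub, Matrix.mulVec_smul, sub_eq_zero] at h1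
    rw [entry_form]
    change star (f l) ⬝ᵥ (sm A s w *ᵥ f j) = g l * star (g j)
    rw [h1, dotProduct_smul, smul_eq_mul, hμc, hg]
    simp only
    have h2 := herm_swap (sm_herm A s w) (f j) (f i₀)
    rw [Complex.star_def, map_div₀, Complex.conj_ofReal, h2, ← hσσ]
    field_simp
  obtain ⟨g', hg'⟩ : ∃ g', g' = S₀ᴴ *ᵥ g := ⟨_, rfl⟩
  have hg0 : g ≠ 0 := by
    intro h
    have h1 := congrFun h i₀
    rw [hg] at h1
    simp only [hμc, Pi.zero_apply] at h1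
    exact (div_ne_zero hμcne hσc) h1
  have hg'0 : g' ≠ 0 := by
    intro h
    apply hg0
    have : R₀ᴴ *ᵥ g' = g := by rw [hg', Matrix.mulVec_mulVec, hRS', Matrix.one_mulVec]
    rw [← this, h, Matrix.mulVec_zero]
  have hcomp : Vᴴ * sm A s w * V = vecMulVec g' (star g') := by
    calc Vᴴ * sm A s w * V = S₀ᴴ * ((colMat f)ᴴ * sm A s w * colMat f) * S₀ := by
          rw [hVd, conjTranspose_mul]; simp only [Matrix.mul_assoc]
      _ = S₀ᴴ * vecMulVec g (star g) * S₀ := by rw [hΓ]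
      _ = vecMulVec g' (star g') := by
          rw [Matrix.mul_vecMulVec, Matrix.vecMulVec_mul, hg', Matrix.star_mulVec,
            conjTranspose_conjTranspose]
  have hrel : (w • (Vᴴ * A * V)) + (w • (Vᴴ * A * V))ᴴ =
      (2 : ℂ) • ((s : ℂ) • 1 - vecMulVec g' (star g')) := by
    have h1 : w • A + (w • A)ᴴ = (2 : ℂ) • ((s : ℂ) • 1 - sm A s w) := by
      rw [sm, sub_sub_cancel, Hu, smul_smul]
      norm_num
    have h2 : (w • (Vᴴ * A * V)) + (w • (Vᴴ * A * V))ᴴ = Vᴴ * (w • A + (w • A)ᴴ) * V := by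
      rw [Matrix.mul_add, Matrix.add_mul, conjTranspose_smul, conjTranspose_smul,
        conjTranspose_mul, conjTranspose_mul, conjTranspose_conjTranspose]
      simp only [Matrix.mul_smul, Matrix.smul_mul, Matrix.mul_assoc]
    rw [h2, h1, ← hcomp, Matrix.mul_smul, Matrix.smul_mul, Matrix.mul_sub, Matrix.sub_mul,
      Matrix.mul_smul, Matrix.smul_mul, Matrix.mul_one, hV]
  have hMW := mw_eq hd V hV hrange
  have hdil : FinDil (Vᴴ * A * V) A :=
    rankOne_FinDil (Vᴴ * A * V) w hw s g' hg'0 (by rw [Fintype.card_fin]; exact hk2) hrel A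
      (by rw [hMW])
  obtain ⟨hr1, hr2⟩ := reducing (hD 2) u t f hu hgood hind i₀ V S₀ hV hVd hdil
  refine ⟨k, V, hk2, hV, hMW, ?_, w, s, g', hw, hg'0, hrel⟩
  have e1 : A * (V * Vᴴ) = V * (Vᴴ * A * V) * Vᴴ := by
    rw [← Matrix.mul_assoc, hr1]
  have e2 : (V * Vᴴ) * A = V * (Vᴴ * A * V) * Vᴴ := by
    have h3 := congrArg conjTranspose hr2
    rw [conjTranspose_mul, conjTranspose_conjTranspose, conjTranspose_mul,
      conjTranspose_conjTranspose] at h3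
    calc (V * Vᴴ) * A = V * (Vᴴ * A) := Matrix.mul_assoc _ _ _
      _ = V * (Vᴴ * A * V * Vᴴ) := congrArg (V * ·) h3
      _ = _ := by simp only [Matrix.mul_assoc]
  rw [e1, e2]

end Pool.Agent.Helper84.NR
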