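import Pool.Agent.Helper84.NR.Basic

set_option autoImplicit false

/-!
# Simple largest eigenvalues
-/

open Matrix
open scoped ComplexOrder

namespace Pool.Agent.Helper84.NR

open Pool.Agent.Helper774

variable {ι : Type*} [Fintype ι] [DecidableEq ι]

/-- `x` is a unit vector; `t` is the largest eigenvalue of `Re (u A)`, it is simple with
eigenvector `x`, and `x` is not a common eigenvector of `A` and `A*`. -/
structure Good (A : Matrix ι ι ℂ) (u : ℂ) (t : ℝ) (x : ι → ℂ) : Prop where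
  unit : star x ⬝ᵥ x = 1
  adm : Adm A t u
  eq : (u * (star x ⬝ᵥ (A *ᵥ x))).re = t
  simple : ∀ y, star y ⬝ᵥ y = 1 → (u * (star y ⬝ᵥ (A *ᵥ y))).re = t → ∃ c : ℂ, y = c • x
  nonjoint : ¬ ∃ a a' : ℂ, A *ᵥ x = a • x ∧ Aᴴ *ᵥ x = a' • x

theorem exists_normalize (x : ι → ℂ) (hx : x ≠ 0) :
    ∃ s : ℝ, 0 < s ∧ star ((s : ℂ) • x) ⬝ᵥ ((s : ℂ) • x) = 1 := by
  have hpos : 0 < (star x ⬝ᵥ x).re := by
    rcases (dot_self_re_nonneg x).lt_or_eq with h | h
    · exact h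
    · exact absurd (dot_self_re_eq_zero h.symm) hx
  obtain ⟨ρ, hρ⟩ : ∃ ρ : ℝ, (star x ⬝ᵥ x).re = ρ := ⟨_, rfl⟩
  rw [hρ] at hpos
  refine ⟨(Real.sqrt ρ)⁻¹, by positivity, ?_⟩
  have hxx : star x ⬝ᵥ x = (ρ : ℂ) := by
    apply Complex.ext
    · simp [hρ]
    · simp [dot_self_im]
  rw [star_smul, smul_dotProduct, dotProduct_smul, hxx]
  simp only [smul_eq_mul, Complex.star_def, Complex.conj_ofReal]
  rw [← Complex.ofReal_mul, ← Complex.ofReal_mul]
  have h2 := Real.mul_self_sqrt hpos.le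
  have h3 : Real.sqrt ρ ≠ 0 := (Real.sqrt_pos.mpr hpos).ne'
  have : (Real.sqrt ρ)⁻¹ * ((Real.sqrt ρ)⁻¹ * ρ) = 1 := by
    conv_lhs => rw [← h2]
    rw [Real.sqrt_mul_self (Real.sqrt_nonneg _)]
    field_simp
  rw [this, Complex.ofReal_one]

theorem Good.ne_zero {A : Matrix ι ι ℂ} {u : ℂ} {t : ℝ} {x : ι → ℂ} (h : Good A u t x) : x ≠ 0 := by
  rintro rfl
  have := h.unit
  simp at this

theorem Good.sm_zero {A : Matrix ι ι ℂ} {u : ℂ} {t : ℝ} {x : ι → ℂ} (h : Good A u t x) :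
    sm A t u *ᵥ x = 0 := by
  apply h.adm.kernel
  rw [sm_quad_re, h.unit, h.eq, Complex.one_re, mul_one, sub_self]

theorem Good.kernel {A : Matrix ι ι ℂ} {u : ℂ} {t : ℝ} {x : ι → ℂ} (h : Good A u t x)
    (y : ι → ℂ) (hy : sm A t u *ᵥ y = 0) : ∃ c : ℂ, y = c • x := by
  by_cases hy0 : y = 0
  · exact ⟨0, by rw [hy0, zero_smul]⟩
  obtain ⟨s, hs, hs1⟩ := exists_normalize y hy0
  have h1 : sm A t u *ᵥ ((s : ℂ) • y) = 0 := by rw [Matrix.mulVec_smul, hy, smul_zero]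
  have h2 := sm_quad_re A t u ((s : ℂ) • y)
  rw [h1, dotProduct_zero, hs1, Complex.one_re, mul_one, Complex.zero_re] at h2
  obtain ⟨c, hc⟩ := h.simple _ hs1 (by linarith)
  refine ⟨(s : ℂ)⁻¹ * c, ?_⟩
  have hs0 : (s : ℂ) ≠ 0 := by exact_mod_cast hs.ne'
  rw [mul_smul, ← hc, smul_smul, inv_mul_cancel₀ hs0, one_smul]

theorem Hu_of_sm {A : Matrix ι ι ℂ} {t : ℝ} {w : ℂ} {x : ι → ℂ} (h : sm A t w *ᵥ x = 0) :
    Hu A w *ᵥ x = (t : ℂ) • x := by
  rw [sm, Matrix.sub_mulVec, Matrix.smul_mulVec, Matrix.one_mulVec] at h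
  exact (sub_eq_zero.mp h).symm

/-- Only the real multiples of `(t, u)` kill `x`. -/
theorem Good.ker_line {A : Matrix ι ι ℂ} {u : ℂ} {t : ℝ} {x : ι → ℂ} (h : Good A u t x)
    (hu : ‖u‖ = 1) (t' : ℝ) (w : ℂ) (hw : sm A t' w *ᵥ x = 0) :
    ∃ r : ℝ, t' = r * t ∧ w = (r : ℂ) * u := by
  have e1 := Hu_of_sm h.sm_zero
  have e2 := Hu_of_sm hw
  have huu : starRingEnd ℂ u * u = 1 := by
    rw [Complex.conj_mul', hu]; norm_num
  set D : ℂ := w * starRingEnd ℂ u - starRingEnd ℂ w * u with hD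
  by_cases hD0 : D = 0
  · obtain ⟨r, hr⟩ : ∃ r : ℝ, w * starRingEnd ℂ u = (r : ℂ) := by
      refine ⟨(w * starRingEnd ℂ u).re, ?_⟩
      have : starRingEnd ℂ (w * starRingEnd ℂ u) = w * starRingEnd ℂ u := by
        rw [map_mul, Complex.conj_conj]
        exact (sub_eq_zero.mp hD0).symm
      exact (Complex.conj_eq_iff_re.mp this).symm
    have h4 : w = (r : ℂ) * u := by
      rw [← hr, mul_assoc, huu, mul_one]
    refine ⟨r, ?_, h4⟩
    have h5 : sm A (r * t) w *ᵥ x = 0 := by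
      rw [h4, sm_smul, Matrix.smul_mulVec, h.sm_zero, smul_zero]
    have e3 := Hu_of_sm h5
    rw [e2] at e3
    obtain ⟨i, hi⟩ : ∃ i, x i ≠ 0 := by
      by_contra hcon
      push Not at hcon
      exact h.ne_zero (funext hcon)
    have e4 := congrFun e3 i
    simp only [Pi.smul_apply, smul_eq_mul] at e4
    exact_mod_cast mul_right_cancel₀ hi e4
  · exfalso
    apply h.nonjoint
    have hA : A = (2 / D) • (starRingEnd ℂ u • Hu A w - starRingEnd ℂ w • Hu A u) := by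
      ext i j
      simp only [Hu, Matrix.sub_apply, Matrix.smul_apply, Matrix.add_apply,
        Matrix.conjTranspose_apply, smul_eq_mul, Complex.star_def, map_mul]
      field_simp
      rw [hD]
      ring
    have hAH : Aᴴ = (2 / D) • (w • Hu A u - u • Hu A w) := by
      ext i j
      simp only [Hu, Matrix.sub_apply, Matrix.smul_apply, Matrix.add_apply,
        Matrix.conjTranspose_apply, smul_eq_mul, Complex.star_def, map_mul]
      field_simp
      rw [hD]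
      ring
    refine ⟨(2 / D) * (starRingEnd ℂ u * t' - starRingEnd ℂ w * t), (2 / D) * (w * t - u * t'), ?_, ?_⟩
    · conv_lhs => rw [hA]
      rw [Matrix.smul_mulVec, Matrix.sub_mulVec, Matrix.smul_mulVec, Matrix.smul_mulVec, e1, e2,
        smul_smul, smul_smul, ← sub_smul, smul_smul]
    · conv_lhs => rw [hAH]
      rw [Matrix.smul_mulVec, Matrix.sub_mulVec, Matrix.smul_mulVec, Matrix.smul_mulVec, e1, e2,
        smul_smul, smul_smul, ← sub_smul, smul_smul]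

end Pool.Agent.Helper84.NR
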